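import Pool.Agent.CDP.Stmts

set_option autoImplicit false

namespace Pool.Agent.CDP

open Finset

namespace AR1M

/-! ### summation by parts with a periodic factor of mean zero -/

theorem parts (h f : ℕ → ℝ) (n : ℕ) :
    ∑ t ∈ range (n + 1), h t * f t = (∑ s ∈ range (n + 1), h s) * f n -
      ∑ t ∈ range n, (∑ s ∈ range (t + 1), h s) * (f (t + 1) - f t) := by
  induction n with
  | zero => simp
  | succ n ih =>
    rw [Finset.sum_range_succ, ih, Finset.sum_range_succ (fun s => h s) (n + 1),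
      Finset.sum_range_succ (fun t => (∑ s ∈ range (t + 1), h s) * (f (t + 1) - f t)) n]
    ring

theorem psum_le (h : ℕ → ℝ) (m : ℕ) (hm : 1 ≤ m) (hp : ∀ t, h (t + m) = h t)
    (h0 : ∑ r ∈ range m, h r = 0) (hb : ∀ t, |h t| ≤ 2) (t : ℕ) :
    |∑ s ∈ range t, h s| ≤ 2 * m := by
  have hper : Function.Periodic (fun t => ∑ s ∈ range t, h s) m := by
    intro t
    simp only
    rw [add_comm t m, Finset.sum_range_add, h0, zero_add]
    refine Finset.sum_congr rfl fun s _ => ?_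
    rw [add_comm m s, hp]
  have h1 := hper.map_mod_nat t
  rw [← h1]
  refine (Finset.abs_sum_le_sum_abs _ _).trans ?_
  refine (Finset.sum_le_sum fun s _ => hb s).trans ?_
  rw [Finset.sum_const, Finset.card_range, nsmul_eq_mul, mul_comm]
  have : ((t % m : ℕ) : ℝ) ≤ m := by exact_mod_cast (Nat.mod_lt t (by omega)).le
  linarith

theorem wt_eq (T t : ℕ) : wt T t = (3 * (t : ℝ) ^ 2 - 3 * t + 1) * ((T : ℝ) ^ 3 - (t : ℝ) ^ 3) := by
  rw [wt]
  ring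

theorem poly_bounds {T t : ℕ} (hT : 1 ≤ T) (ht : t ≤ T) :
    0 ≤ 3 * (t : ℝ) ^ 2 - 3 * t + 1 ∧ 3 * (t : ℝ) ^ 2 - 3 * t + 1 ≤ 3 * (T : ℝ) ^ 2 := by
  have h1 : (0 : ℝ) ≤ t := Nat.cast_nonneg t
  have h2 : (t : ℝ) ≤ T := by exact_mod_cast ht
  have h3 : (1 : ℝ) ≤ T := by exact_mod_cast hT
  constructor
  · nlinarith [sq_nonneg ((t : ℝ) - 1 / 2)]
  · rcases Nat.eq_zero_or_pos t with h | h
    · subst h
      simp only [Nat.cast_zero]
      nlinarith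
    · have h4 : (1 : ℝ) ≤ t := by exact_mod_cast h
      nlinarith

theorem wt_nonneg {T t : ℕ} (hT : 1 ≤ T) (ht : t ≤ T) : 0 ≤ wt T t := by
  rw [wt_eq]
  have h2 : (t : ℝ) ≤ T := by exact_mod_cast ht
  have h3 : (t : ℝ) ^ 3 ≤ (T : ℝ) ^ 3 := pow_le_pow_left₀ (Nat.cast_nonneg t) h2 3
  exact mul_nonneg (poly_bounds hT ht).1 (by linarith)

theorem wt_le {T t : ℕ} (hT : 1 ≤ T) (ht : t ≤ T) : wt T t ≤ 3 * (T : ℝ) ^ 5 := by
  rw [wt_eq]
  have h2 : (t : ℝ) ≤ T := by exact_mod_cast ht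
  have h3 : (t : ℝ) ^ 3 ≤ (T : ℝ) ^ 3 := pow_le_pow_left₀ (Nat.cast_nonneg t) h2 3
  have h4 : (0 : ℝ) ≤ (t : ℝ) ^ 3 := by positivity
  calc _ ≤ (3 * (T : ℝ) ^ 2) * (T : ℝ) ^ 3 := by
        apply mul_le_mul (poly_bounds hT ht).2 (by linarith) (by linarith) (by positivity)
    _ = _ := by ring

theorem wt_step {T t : ℕ} (hT : 1 ≤ T) (ht : t < T) :
    |wt T (t + 1) - wt T t| ≤ 15 * (T : ℝ) ^ 4 := by
  have h1 : (0 : ℝ) ≤ t := Nat.cast_nonneg t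
  have h2 : (t : ℝ) + 1 ≤ T := by exact_mod_cast ht
  have h3 : (1 : ℝ) ≤ T := by exact_mod_cast hT
  have h4 : ((t : ℝ) + 1) ^ 3 ≤ (T : ℝ) ^ 3 := pow_le_pow_left₀ (by linarith) h2 3
  have h5 : (0 : ℝ) ≤ ((t : ℝ) + 1) ^ 3 := by positivity
  obtain ⟨h6, h7⟩ := poly_bounds hT ht.le
  have h8 : 3 * (t : ℝ) ^ 2 + 3 * t + 1 ≤ 3 * (T : ℝ) ^ 2 := by nlinarith
  have h9 : 0 ≤ 3 * (t : ℝ) ^ 2 + 3 * t + 1 := by positivity
  have e : wt T (t + 1) - wt T t = 6 * t * ((T : ℝ) ^ 3 - ((t : ℝ) + 1) ^ 3) -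
      (3 * (t : ℝ) ^ 2 - 3 * t + 1) * (3 * (t : ℝ) ^ 2 + 3 * t + 1) := by
    rw [wt_eq, wt_eq]
    push_cast
    ring
  have a1 : 0 ≤ 6 * t * ((T : ℝ) ^ 3 - ((t : ℝ) + 1) ^ 3) := by
    apply mul_nonneg (by positivity) (by linarith)
  have a2 : 6 * t * ((T : ℝ) ^ 3 - ((t : ℝ) + 1) ^ 3) ≤ 6 * (T : ℝ) ^ 4 := by
    calc _ ≤ 6 * (T : ℝ) * (T : ℝ) ^ 3 := by
          apply mul_le_mul (by linarith) (by linarith) (by linarith) (by positivity)
      _ = _ := by ring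
  have a3 : 0 ≤ (3 * (t : ℝ) ^ 2 - 3 * t + 1) * (3 * (t : ℝ) ^ 2 + 3 * t + 1) :=
    mul_nonneg h6 h9
  have a4 : (3 * (t : ℝ) ^ 2 - 3 * t + 1) * (3 * (t : ℝ) ^ 2 + 3 * t + 1) ≤ 9 * (T : ℝ) ^ 4 := by
    calc _ ≤ (3 * (T : ℝ) ^ 2) * (3 * (T : ℝ) ^ 2) := by
          apply mul_le_mul h7 h8 h9 (by positivity)
      _ = _ := by ring
  have a5 : (0 : ℝ) ≤ (T : ℝ) ^ 4 := by positivity
  rw [e, abs_le]
  constructor <;> linarith

/-- The estimate for one of the two sums. -/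
theorem main_sum (h F : ℕ → ℝ) (β : ℝ) (m T : ℕ) (hm : 1 ≤ m) (hT : 1 ≤ T)
    (hp : ∀ t, h (t + m) = h t) (h0 : ∑ r ∈ range m, h r = 0) (hb : ∀ t, |h t| ≤ 2)
    (hF : ∀ t, |F t| ≤ 1)
    (hF' : ∀ t, |F (t + 1) - F t| ≤ 2 * Real.pi * |β| * (((t : ℝ) + 1) ^ 3 - (t : ℝ) ^ 3)) :
    |∑ t ∈ Icc 1 T, h t * (wt T t * F t)| ≤ 40 * m * (T : ℝ) ^ 5 * (1 + (T : ℝ) ^ 3 * |β|) := by
  have hm' : (1 : ℝ) ≤ m := by exact_mod_cast hm
  have hT' : (1 : ℝ) ≤ T := by exact_mod_cast hT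
  have hsplit : ∑ t ∈ range (T + 1), h t * (wt T t * F t) =
      h 0 * (wt T 0 * F 0) + ∑ t ∈ Icc 1 T, h t * (wt T t * F t) := by
    rw [Finset.range_eq_Ico, Finset.sum_eq_sum_Ico_succ_bot (by omega)]
    congr 1
  have hTT : wt T T = 0 := by rw [wt, sub_self, mul_zero]
  have hparts := parts h (fun t => wt T t * F t) T
  rw [hTT, zero_mul, mul_zero, zero_sub] at hparts
  have hstep : ∀ t ∈ range T, |wt T (t + 1) * F (t + 1) - wt T t * F t| ≤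
      15 * (T : ℝ) ^ 4 + 3 * (T : ℝ) ^ 5 * (2 * Real.pi * |β|) *
        (((t : ℝ) + 1) ^ 3 - (t : ℝ) ^ 3) := by
    intro t ht
    have ht' := Finset.mem_range.1 ht
    have e : wt T (t + 1) * F (t + 1) - wt T t * F t =
        (wt T (t + 1) - wt T t) * F (t + 1) + wt T t * (F (t + 1) - F t) := by ring
    rw [e]
    refine (abs_add_le _ _).trans ?_
    rw [abs_mul, abs_mul]
    apply add_le_add
    · calc _ ≤ 15 * (T : ℝ) ^ 4 * 1 :=
            mul_le_mul (wt_step hT ht') (hF _) (abs_nonneg _) (by positivity)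
        _ = _ := by ring
    · rw [abs_of_nonneg (wt_nonneg hT ht'.le)]
      calc _ ≤ 3 * (T : ℝ) ^ 5 * (2 * Real.pi * |β| * (((t : ℝ) + 1) ^ 3 - (t : ℝ) ^ 3)) :=
            mul_le_mul (wt_le hT ht'.le) (hF' t) (abs_nonneg _) (by positivity)
        _ = _ := by ring
  have htel : ∑ t ∈ range T, (((t : ℝ) + 1) ^ 3 - (t : ℝ) ^ 3) = (T : ℝ) ^ 3 := by
    have := Finset.sum_range_sub (fun t : ℕ => (t : ℝ) ^ 3) T
    push_cast at this
    rw [this]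
    ring
  have hV : ∑ t ∈ range T, |wt T (t + 1) * F (t + 1) - wt T t * F t| ≤
      15 * (T : ℝ) ^ 5 + 3 * (T : ℝ) ^ 5 * (2 * Real.pi * |β|) * (T : ℝ) ^ 3 := by
    refine (Finset.sum_le_sum hstep).trans ?_
    have e2 : ∑ t ∈ range T, 3 * (T : ℝ) ^ 5 * (2 * Real.pi * |β|) *
        (((t : ℝ) + 1) ^ 3 - (t : ℝ) ^ 3) =
        3 * (T : ℝ) ^ 5 * (2 * Real.pi * |β|) * (T : ℝ) ^ 3 := by
      rw [← Finset.mul_sum, htel]
    rw [Finset.sum_add_distrib, e2, Finset.sum_const, Finset.card_range, nsmul_eq_mul]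
    apply le_of_eq
    ring
  have hfull : |∑ t ∈ range (T + 1), h t * (wt T t * F t)| ≤
      2 * m * (15 * (T : ℝ) ^ 5 + 3 * (T : ℝ) ^ 5 * (2 * Real.pi * |β|) * (T : ℝ) ^ 3) := by
    rw [hparts, abs_neg]
    refine (Finset.abs_sum_le_sum_abs _ _).trans ?_
    refine (Finset.sum_le_sum (g := fun t => 2 * (m : ℝ) *
      |wt T (t + 1) * F (t + 1) - wt T t * F t|) fun t _ => ?_).trans ?_
    · rw [abs_mul]
      exact mul_le_mul_of_nonneg_right (psum_le h m hm hp h0 hb _) (abs_nonneg _)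
    · rw [← Finset.mul_sum]
      exact mul_le_mul_of_nonneg_left hV (by positivity)
  have hzero : |h 0 * (wt T 0 * F 0)| ≤ 2 * (T : ℝ) ^ 5 := by
    rw [abs_mul, abs_mul]
    have hw : |wt T 0| = (T : ℝ) ^ 3 := by
      rw [abs_of_nonneg (wt_nonneg hT (Nat.zero_le _)), wt_eq]
      push_cast
      ring
    rw [hw]
    calc _ ≤ 2 * ((T : ℝ) ^ 3 * 1) := by
          apply mul_le_mul (hb 0) _ (by positivity) (by norm_num)
          exact mul_le_mul_of_nonneg_left (hF 0) (by positivity)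
      _ ≤ 2 * (T : ℝ) ^ 5 := by
          rw [mul_one]
          have := pow_le_pow_right₀ hT' (show 3 ≤ 5 by norm_num)
          linarith
  have hpi : Real.pi ≤ 3.15 := Real.pi_lt_d2.le
  have e1 : ∑ t ∈ Icc 1 T, h t * (wt T t * F t) =
      ∑ t ∈ range (T + 1), h t * (wt T t * F t) - h 0 * (wt T 0 * F 0) := by
    rw [hsplit]
    ring
  rw [e1]
  refine (abs_sub _ _).trans ((add_le_add hfull hzero).trans ?_)
  have k1 : (0 : ℝ) ≤ (T : ℝ) ^ 5 := by positivity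
  have k2 : (0 : ℝ) ≤ (T : ℝ) ^ 8 * |β| := by positivity
  have k3 : (T : ℝ) ^ 5 ≤ m * (T : ℝ) ^ 5 := by nlinarith
  have k4 : Real.pi * (m * ((T : ℝ) ^ 8 * |β|)) ≤ 3.15 * (m * ((T : ℝ) ^ 8 * |β|)) :=
    mul_le_mul_of_nonneg_right hpi (by positivity)
  have k5 : 0 ≤ m * ((T : ℝ) ^ 8 * |β|) := by positivity
  calc _ = 30 * (m * (T : ℝ) ^ 5) + 12 * (Real.pi * (m * ((T : ℝ) ^ 8 * |β|))) +
        2 * (T : ℝ) ^ 5 := by ring
    _ ≤ 40 * (m * (T : ℝ) ^ 5) + 40 * (m * ((T : ℝ) ^ 8 * |β|)) := by linarith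
    _ = _ := by ring

/-! ### the periodic factors -/

theorem arg_add (a m t : ℕ) (hm : 1 ≤ m) :
    2 * Real.pi * (((t + m : ℕ) : ℝ) ^ 3 * ((a : ℝ) / m)) =
      2 * Real.pi * ((t : ℝ) ^ 3 * ((a : ℝ) / m)) +
        ((a * (3 * t ^ 2 + 3 * t * m + m ^ 2) : ℕ) : ℝ) * (2 * Real.pi) := by
  have hm' : (m : ℝ) ≠ 0 := by positivity
  push_cast
  field_simp
  ring

theorem arg_sub (a m t : ℕ) (hm : 1 ≤ m) (ht : t ≤ m) :
    2 * Real.pi * (((m - t : ℕ) : ℝ) ^ 3 * ((a : ℝ) / m)) =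
      ((a * (m ^ 2 - 3 * m * t + 3 * t ^ 2) : ℤ) : ℝ) * (2 * Real.pi) -
      2 * Real.pi * ((t : ℝ) ^ 3 * ((a : ℝ) / m)) := by
  have hm' : (m : ℝ) ≠ 0 := by positivity
  rw [Nat.cast_sub ht]
  push_cast
  field_simp
  ring

theorem sin_sum (a m : ℕ) (hm : 1 ≤ m) :
    ∑ r ∈ range m, Real.sin (2 * Real.pi * ((r : ℝ) ^ 3 * ((a : ℝ) / m))) = 0 := by
  set g : ℕ → ℝ := fun r => Real.sin (2 * Real.pi * ((r : ℝ) ^ 3 * ((a : ℝ) / m))) with hg
  have hper : g m = g 0 := by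
    have := arg_add a m 0 hm
    rw [zero_add] at this
    rw [hg]
    simp only
    rw [this, Real.sin_add_nat_mul_two_pi]
  have h1 : ∑ r ∈ range m, g (r + 1) = ∑ r ∈ range m, g r := by
    have := Finset.sum_range_succ' g m
    rw [Finset.sum_range_succ, hper] at this
    linarith
  have h2 : ∑ r ∈ range m, g (r + 1) = - ∑ r ∈ range m, g r := by
    rw [← Finset.sum_range_reflect (fun r => g (r + 1)) m, ← Finset.sum_neg_distrib]
    refine Finset.sum_congr rfl fun r hr => ?_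
    have hr' := Finset.mem_range.1 hr
    have e : m - 1 - r + 1 = m - r := by omega
    rw [e, hg]
    simp only
    rw [arg_sub a m r hm hr'.le, Real.sin_int_mul_two_pi_sub]
  change ∑ r ∈ range m, g r = 0
  linarith

theorem gam_le (a m : ℕ) (hm : 1 ≤ m) : |gam a m| ≤ 1 := by
  have hm' : (0 : ℝ) < m := by positivity
  rw [gam, abs_div, abs_of_pos hm', div_le_one hm']
  refine (Finset.abs_sum_le_sum_abs _ _).trans ?_
  refine (Finset.sum_le_sum fun r _ => Real.abs_cos_le_one _).trans ?_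
  simp

end AR1M

open AR1M in
theorem t_AR1 : S_AR1 := by
  refine ⟨80, by norm_num, fun β a m T hm hT => ?_⟩
  have hm' : (m : ℝ) ≠ 0 := by positivity
  have hcube : ∀ t : ℕ, |2 * Real.pi * (((t + 1 : ℕ) : ℝ) ^ 3 * β) -
      2 * Real.pi * ((t : ℝ) ^ 3 * β)| =
      2 * Real.pi * |β| * (((t : ℝ) + 1) ^ 3 - (t : ℝ) ^ 3) := by
    intro t
    have e : 2 * Real.pi * (((t + 1 : ℕ) : ℝ) ^ 3 * β) - 2 * Real.pi * ((t : ℝ) ^ 3 * β) =
        2 * Real.pi * (((t : ℝ) + 1) ^ 3 - (t : ℝ) ^ 3) * β := by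
      push_cast
      ring
    have h1 : (t : ℝ) ^ 3 ≤ ((t : ℝ) + 1) ^ 3 :=
      pow_le_pow_left₀ (Nat.cast_nonneg t) (by linarith) 3
    rw [e, abs_mul, abs_of_nonneg (mul_nonneg (by positivity) (by linarith))]
    ring
  have hA := main_sum (fun t => Real.cos (2 * Real.pi * ((t : ℝ) ^ 3 * ((a : ℝ) / m))) - gam a m)
    (fun t => Real.cos (2 * Real.pi * ((t : ℝ) ^ 3 * β))) β m T hm hT
    (fun t => by
      rw [arg_add a m t hm, Real.cos_add_nat_mul_two_pi])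
    (by
      rw [Finset.sum_sub_distrib, Finset.sum_const, Finset.card_range, nsmul_eq_mul, gam,
        mul_div_cancel₀ _ hm', sub_self])
    (fun t => by
      refine (abs_sub _ _).trans ?_
      have h1 := Real.abs_cos_le_one (2 * Real.pi * ((t : ℝ) ^ 3 * ((a : ℝ) / m)))
      have h2 := gam_le a m hm
      linarith)
    (fun t => Real.abs_cos_le_one _)
    (fun t => by
      rw [← hcube t]
      exact Real.abs_cos_sub_cos_le _ _)
  have hB := main_sum (fun t => Real.sin (2 * Real.pi * ((t : ℝ) ^ 3 * ((a : ℝ) / m))))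
    (fun t => Real.sin (2 * Real.pi * ((t : ℝ) ^ 3 * β))) β m T hm hT
    (fun t => by
      rw [arg_add a m t hm, Real.sin_add_nat_mul_two_pi])
    (sin_sum a m hm)
    (fun t => (Real.abs_sin_le_one _).trans (by norm_num))
    (fun t => Real.abs_sin_le_one _)
    (fun t => by
      rw [← hcube t]
      exact Real.abs_sin_sub_sin_le _ _)
  have e : ker T ((a : ℝ) / m + β) - gam a m * ker T β =
      ∑ t ∈ Icc 1 T, (Real.cos (2 * Real.pi * ((t : ℝ) ^ 3 * ((a : ℝ) / m))) - gam a m) *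
        (wt T t * Real.cos (2 * Real.pi * ((t : ℝ) ^ 3 * β))) -
      ∑ t ∈ Icc 1 T, Real.sin (2 * Real.pi * ((t : ℝ) ^ 3 * ((a : ℝ) / m))) *
        (wt T t * Real.sin (2 * Real.pi * ((t : ℝ) ^ 3 * β))) := by
    rw [ker, ker, Finset.mul_sum, ← Finset.sum_sub_distrib, ← Finset.sum_sub_distrib]
    refine Finset.sum_congr rfl fun t _ => ?_
    rw [show 2 * Real.pi * ((t : ℝ) ^ 3 * ((a : ℝ) / m + β)) =
      2 * Real.pi * ((t : ℝ) ^ 3 * ((a : ℝ) / m)) + 2 * Real.pi * ((t : ℝ) ^ 3 * β) by ring,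
      Real.cos_add]
    ring
  rw [e]
  refine (abs_sub _ _).trans ((add_le_add hA hB).trans (le_of_eq ?_))
  ring

end Pool.Agent.CDP
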