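import Pool.Agent.CDP.Stmts

set_option autoImplicit false

/-!
# Project CDP, module AR2: the kernel of the cubes near zero
-/

namespace Pool.Agent.CDP

open Finset
open Pool.Agent.Lib_helper83.EF (e)
open MUR (cop)

namespace AR2M

theorem e_re (x : ℝ) : (e x).re = Real.cos (2 * Real.pi * x) := by
  unfold e
  have h : (2 * (Real.pi : ℂ) * x * Complex.I) = ((2 * Real.pi * x : ℝ) : ℂ) * Complex.I := by
    push_cast; ring
  rw [h, Complex.exp_ofReal_mul_I_re]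

theorem e_im (x : ℝ) : (e x).im = Real.sin (2 * Real.pi * x) := by
  unfold e
  have h : (2 * (Real.pi : ℂ) * x * Complex.I) = ((2 * Real.pi * x : ℝ) : ℂ) * Complex.I := by
    push_cast; ring
  rw [h, Complex.exp_ofReal_mul_I_im]

theorem fej_sq (U : ℕ) (β : ℝ) : fej U β =
    (∑ u ∈ range U, Real.cos (2 * Real.pi * (u * β))) ^ 2 +
      (∑ u ∈ range U, Real.sin (2 * Real.pi * (u * β))) ^ 2 := by
  unfold fej
  rw [← Complex.normSq_eq_norm_sq, Complex.normSq_apply, Complex.re_sum, Complex.im_sum]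
  simp only [e_re, e_im]
  ring

/-- the Fejer kernel as a cosine sum -/
theorem fej_cos (U : ℕ) (β : ℝ) : fej U β = U + 2 * ∑ u ∈ range U,
    ((U : ℝ) - (u + 1)) * Real.cos (2 * Real.pi * ((u + 1) * β)) := by
  rw [fej_sq]
  induction U with
  | zero => simp
  | succ U ih =>
    have hc := Real.cos_sq_add_sin_sq (2 * Real.pi * (U * β))
    have h1 : (∑ u ∈ range U, Real.cos (2 * Real.pi * (u * β))) *
          Real.cos (2 * Real.pi * (U * β)) +
        (∑ u ∈ range U, Real.sin (2 * Real.pi * (u * β))) * Real.sin (2 * Real.pi * (U * β)) =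
        ∑ u ∈ range U, Real.cos (2 * Real.pi * ((u + 1) * β)) := by
      rw [← Finset.sum_range_reflect (fun u : ℕ => Real.cos (2 * Real.pi * (((u : ℝ) + 1) * β))) U,
        Finset.sum_mul, Finset.sum_mul, ← Finset.sum_add_distrib]
      refine Finset.sum_congr rfl fun u hu => ?_
      rw [Finset.mem_range] at hu
      have h2 : ((U - 1 - u : ℕ) : ℝ) + 1 = U - u := by
        have h3 : U - 1 - u + 1 + u = U := by omega
        have h4 : ((U - 1 - u : ℕ) : ℝ) + 1 + u = U := by exact_mod_cast h3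
        linarith
      rw [h2, ← Real.cos_sub]
      rw [← Real.cos_neg]
      congr 1
      ring
    have h5 : ∑ u ∈ range (U + 1), (((U + 1 : ℕ) : ℝ) - (u + 1)) *
          Real.cos (2 * Real.pi * ((u + 1) * β)) =
        ∑ u ∈ range U, ((U : ℝ) - (u + 1)) * Real.cos (2 * Real.pi * ((u + 1) * β)) +
          ∑ u ∈ range U, Real.cos (2 * Real.pi * ((u + 1) * β)) := by
      rw [Finset.sum_range_succ, ← Finset.sum_add_distrib]
      push_cast
      rw [sub_self, zero_mul, add_zero]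
      refine Finset.sum_congr rfl fun u _ => ?_
      ring
    rw [h5, Finset.sum_range_succ, Finset.sum_range_succ]
    push_cast
    rw [← h1]
    linear_combination ih + hc

/-- a sum over blocks -/
theorem blocks (F : ℕ → ℝ) (T : ℕ) : ∑ u ∈ range (T ^ 3), F u =
    ∑ t ∈ range T, ∑ j ∈ range ((t + 1) ^ 3 - t ^ 3), F (t ^ 3 + j) := by
  induction T with
  | zero => simp
  | succ T ih =>
    rw [Finset.sum_range_succ, ← ih, ← Finset.sum_range_add]
    have h : T ^ 3 ≤ (T + 1) ^ 3 := Nat.pow_le_pow_left (Nat.le_succ T) 3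
    congr 2
    omega

/-- the summand -/
noncomputable def g (U : ℕ) (β x : ℝ) : ℝ := ((U : ℝ) - x) * Real.cos (2 * Real.pi * (x * β))

theorem icc (F : ℕ → ℝ) (T : ℕ) : ∑ t ∈ Icc 1 T, F t = ∑ t ∈ range T, F (t + 1) := by
  induction T with
  | zero => simp
  | succ T ih => rw [Finset.sum_Icc_succ_top (by omega), ih, Finset.sum_range_succ]

theorem ker_eq (T : ℕ) (β : ℝ) : ker T β =
    ∑ t ∈ range T, ∑ j ∈ range ((t + 1) ^ 3 - t ^ 3), g (T ^ 3) β (((t : ℝ) + 1) ^ 3) := by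
  unfold ker
  rw [icc]
  refine Finset.sum_congr rfl fun t _ => ?_
  rw [Finset.sum_const, card_range, nsmul_eq_mul]
  have h : t ^ 3 ≤ (t + 1) ^ 3 := Nat.pow_le_pow_left (Nat.le_succ t) 3
  rw [Nat.cast_sub h]
  unfold wt g
  push_cast
  ring_nf

theorem g_diff (U : ℕ) (β a b : ℝ) (hb : 0 ≤ b) (hab : b ≤ a) (ha : a ≤ U) :
    |g U β a - g U β b| ≤ (a - b) * (1 + 7 * U * |β|) := by
  unfold g
  have h1 : ((U : ℝ) - a) * Real.cos (2 * Real.pi * (a * β)) -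
      ((U : ℝ) - b) * Real.cos (2 * Real.pi * (b * β)) =
      ((U : ℝ) - a) * (Real.cos (2 * Real.pi * (a * β)) - Real.cos (2 * Real.pi * (b * β))) -
        (a - b) * Real.cos (2 * Real.pi * (b * β)) := by ring
  rw [h1]
  have h2 := Real.abs_cos_sub_cos_le (2 * Real.pi * (a * β)) (2 * Real.pi * (b * β))
  have h3 : |2 * Real.pi * (a * β) - 2 * Real.pi * (b * β)| = 2 * Real.pi * ((a - b) * |β|) := by
    have : 2 * Real.pi * (a * β) - 2 * Real.pi * (b * β) = 2 * Real.pi * ((a - b) * β) := by ring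
    rw [this, abs_mul, abs_mul (a - b), abs_of_nonneg (by positivity : (0 : ℝ) ≤ 2 * Real.pi),
      abs_of_nonneg (by linarith : 0 ≤ a - b)]
  rw [h3] at h2
  have h4 := Real.abs_cos_le_one (2 * Real.pi * (b * β))
  have h5 : (0 : ℝ) ≤ U - a := by linarith
  have h6 : (0 : ℝ) ≤ a - b := by linarith
  have h7 : |((U : ℝ) - a) * (Real.cos (2 * Real.pi * (a * β)) -
      Real.cos (2 * Real.pi * (b * β)))| ≤ (a - b) * (7 * U * |β|) := by
    rw [abs_mul, abs_of_nonneg h5]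
    calc ((U : ℝ) - a) * |Real.cos (2 * Real.pi * (a * β)) - Real.cos (2 * Real.pi * (b * β))|
        ≤ U * (2 * Real.pi * ((a - b) * |β|)) := by
          refine mul_le_mul (by linarith) h2 (abs_nonneg _) (by positivity)
      _ ≤ U * (7 * ((a - b) * |β|)) := by
          refine mul_le_mul_of_nonneg_left ?_ (by positivity)
          refine mul_le_mul_of_nonneg_right ?_ (mul_nonneg h6 (abs_nonneg _))
          have := Real.pi_lt_d2
          linarith
      _ = (a - b) * (7 * U * |β|) := by ring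
  have h8 : |(a - b) * Real.cos (2 * Real.pi * (b * β))| ≤ a - b := by
    rw [abs_mul, abs_of_nonneg h6]
    exact mul_le_of_le_one_right h6 h4
  calc |((U : ℝ) - a) * (Real.cos (2 * Real.pi * (a * β)) - Real.cos (2 * Real.pi * (b * β))) -
        (a - b) * Real.cos (2 * Real.pi * (b * β))|
      ≤ |((U : ℝ) - a) * (Real.cos (2 * Real.pi * (a * β)) -
          Real.cos (2 * Real.pi * (b * β)))| + |(a - b) * Real.cos (2 * Real.pi * (b * β))| :=
        abs_sub _ _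
    _ ≤ (a - b) * (7 * U * |β|) + (a - b) := add_le_add h7 h8
    _ = (a - b) * (1 + 7 * U * |β|) := by ring

end AR2M

open AR2M in
theorem t_AR2 : S_AR2 := by
  refine ⟨70, by norm_num, fun β T hT => ?_⟩
  have hT' : (1 : ℝ) ≤ T := by exact_mod_cast hT
  have h1 : fej (T ^ 3) β / 2 = ((T : ℝ) ^ 3) / 2 +
      ∑ t ∈ range T, ∑ j ∈ range ((t + 1) ^ 3 - t ^ 3),
        g (T ^ 3) β (((t ^ 3 + j : ℕ) : ℝ) + 1) := by
    rw [fej_cos]
    have := blocks (fun u => g (T ^ 3) β ((u : ℝ) + 1)) T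
    rw [← this]
    unfold g
    push_cast
    ring
  rw [h1, ker_eq]
  have h2 : ∀ t ∈ range T, ∀ j ∈ range ((t + 1) ^ 3 - t ^ 3),
      |g (T ^ 3) β (((t : ℝ) + 1) ^ 3) - g (T ^ 3) β (((t ^ 3 + j : ℕ) : ℝ) + 1)| ≤
        3 * (T : ℝ) ^ 2 * (1 + 7 * (T : ℝ) ^ 3 * |β|) := by
    intro t ht j hj
    rw [Finset.mem_range] at ht hj
    have a1 : t ^ 3 + j + 1 ≤ (t + 1) ^ 3 := by omega
    have a2 : (t + 1) ^ 3 ≤ T ^ 3 := Nat.pow_le_pow_left ht 3
    have a1' : (((t ^ 3 + j : ℕ) : ℝ) + 1) ≤ ((t : ℝ) + 1) ^ 3 := by exact_mod_cast a1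
    have a2' : ((t : ℝ) + 1) ^ 3 ≤ ((T ^ 3 : ℕ) : ℝ) := by exact_mod_cast a2
    have h3 := g_diff (T ^ 3) β (((t : ℝ) + 1) ^ 3) (((t ^ 3 + j : ℕ) : ℝ) + 1) (by positivity)
      a1' a2'
    refine h3.trans ?_
    push_cast
    refine mul_le_mul_of_nonneg_right ?_ (by positivity)
    have ht' : (t : ℝ) + 1 ≤ T := by exact_mod_cast ht
    have ht0 : (0 : ℝ) ≤ t := by positivity
    have hj0 : (0 : ℝ) ≤ j := by positivity
    have h4 : ((t : ℝ) + 1) ^ 3 - (t : ℝ) ^ 3 ≤ 3 * ((t : ℝ) + 1) ^ 2 := by nlinarith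
    have h5 : ((t : ℝ) + 1) ^ 2 ≤ (T : ℝ) ^ 2 := pow_le_pow_left₀ (by linarith) ht' 2
    linarith
  have h3 : |∑ t ∈ range T, ∑ j ∈ range ((t + 1) ^ 3 - t ^ 3), g (T ^ 3) β (((t : ℝ) + 1) ^ 3) -
      ∑ t ∈ range T, ∑ j ∈ range ((t + 1) ^ 3 - t ^ 3),
        g (T ^ 3) β (((t ^ 3 + j : ℕ) : ℝ) + 1)| ≤
      (T : ℝ) * ((3 * (T : ℝ) ^ 2) * (3 * (T : ℝ) ^ 2 * (1 + 7 * (T : ℝ) ^ 3 * |β|))) := by
    rw [← Finset.sum_sub_distrib]
    refine (Finset.abs_sum_le_sum_abs _ _).trans ?_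
    have h4 : ∀ t ∈ range T, |∑ j ∈ range ((t + 1) ^ 3 - t ^ 3),
          g (T ^ 3) β (((t : ℝ) + 1) ^ 3) - ∑ j ∈ range ((t + 1) ^ 3 - t ^ 3),
        g (T ^ 3) β (((t ^ 3 + j : ℕ) : ℝ) + 1)| ≤
        (3 * (T : ℝ) ^ 2) * (3 * (T : ℝ) ^ 2 * (1 + 7 * (T : ℝ) ^ 3 * |β|)) := by
      intro t ht
      rw [← Finset.sum_sub_distrib]
      refine (Finset.abs_sum_le_sum_abs _ _).trans ?_
      refine (Finset.sum_le_sum (h2 t ht)).trans ?_
      rw [Finset.sum_const, card_range, nsmul_eq_mul]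
      refine mul_le_mul_of_nonneg_right ?_ (by positivity)
      rw [Finset.mem_range] at ht
      have h : t ^ 3 ≤ (t + 1) ^ 3 := Nat.pow_le_pow_left (Nat.le_succ t) 3
      rw [Nat.cast_sub h]
      push_cast
      have ht' : (t : ℝ) + 1 ≤ T := by exact_mod_cast ht
      have ht0 : (0 : ℝ) ≤ t := by positivity
      have h4 : ((t : ℝ) + 1) ^ 3 - (t : ℝ) ^ 3 ≤ 3 * ((t : ℝ) + 1) ^ 2 := by nlinarith
      have h5 : ((t : ℝ) + 1) ^ 2 ≤ (T : ℝ) ^ 2 := pow_le_pow_left₀ (by linarith) ht' 2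
      linarith
    refine (Finset.sum_le_sum h4).trans ?_
    rw [Finset.sum_const, card_range, nsmul_eq_mul]
  have h4 : |∑ t ∈ range T, ∑ j ∈ range ((t + 1) ^ 3 - t ^ 3), g (T ^ 3) β (((t : ℝ) + 1) ^ 3) -
      ((T : ℝ) ^ 3 / 2 + ∑ t ∈ range T, ∑ j ∈ range ((t + 1) ^ 3 - t ^ 3),
        g (T ^ 3) β (((t ^ 3 + j : ℕ) : ℝ) + 1))| ≤
      (T : ℝ) * ((3 * (T : ℝ) ^ 2) * (3 * (T : ℝ) ^ 2 * (1 + 7 * (T : ℝ) ^ 3 * |β|))) +
        (T : ℝ) ^ 3 / 2 := by
    have h5 : (0 : ℝ) ≤ (T : ℝ) ^ 3 / 2 := by positivity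
    rw [abs_le] at h3 ⊢
    constructor <;> linarith [h3.1, h3.2]
  refine h4.trans ?_
  have h6 : (T : ℝ) ^ 3 ≤ (T : ℝ) ^ 5 := pow_le_pow_right₀ hT' (by norm_num)
  have h7 : (0 : ℝ) ≤ (T : ℝ) ^ 3 * |β| := by positivity
  have h8 : (0 : ℝ) ≤ (T : ℝ) ^ 5 := by positivity
  have h9 : (0 : ℝ) ≤ (T : ℝ) ^ 5 * ((T : ℝ) ^ 3 * |β|) := mul_nonneg h8 h7
  nlinarith

end Pool.Agent.CDP
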