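import Pool.Agent.CDP.Stmts
import Pool.Agent.MUR.LSS
import Pool.Agent.MUR.GS
import Pool.Agent.MUR.MER
import Pool.Agent.MUR.MON
import Pool.Agent.MUR.TRG

/-!
# The upper bound of Brun and Titchmarsh (project CDP, module BRT, helper63)
-/

set_option autoImplicit false
set_option maxHeartbeats 4000000

namespace Pool.Agent.CDP

open Finset
open Pool.Agent.Lib_helper83.EF (e)

namespace BRTM

/-- The function `1` is a combination of exponentials. -/
theorem trig_one : MUR.Trig 1 1 (fun _ => (1 : ℂ)) := by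
  refine ⟨fun _ _ => 1, ?_⟩
  intro w
  have h1 : MUR.smo 1 1 = {1} := by
    ext q
    simp only [MUR.smo, mem_filter, mem_Icc, mem_singleton]
    constructor
    · rintro ⟨⟨h1, h2⟩, -⟩
      omega
    · rintro rfl
      simp
  have h2 : MUR.cop 1 = {0} := by
    ext a
    simp only [MUR.cop, mem_filter, mem_range, mem_singleton]
    constructor
    · rintro ⟨h1, -⟩
      omega
    · rintro rfl
      simp
  have he : e 0 = 1 := by simp [e]
  rw [h1, sum_singleton, h2, sum_singleton]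
  simp [he]

/-- A class modulo `l` that the numbers `x + W u` divisible by `l` belong to. -/
theorem exists_class (W x l : ℕ) (hl : l.Prime) (h : ¬ l ∣ W) : ∃ r : ℕ, l ∣ x + W * r := by
  have hc : Nat.Coprime W l := ((Nat.Prime.coprime_iff_not_dvd hl).2 h).symm
  obtain ⟨y, hy⟩ := Nat.exists_mul_mod_eq_one_of_coprime hc hl.one_lt
  refine ⟨y * ((l - 1) * x), ?_⟩
  have h1 : W * y ≡ 1 [MOD l] := by
    rw [Nat.ModEq, Nat.mod_eq_of_lt hl.one_lt]
    exact hy.2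
  have h2 : x + W * (y * ((l - 1) * x)) ≡ x + 1 * ((l - 1) * x) [MOD l] := by
    rw [← mul_assoc W]
    exact (h1.mul_right _).add_left x
  have h3 : x + 1 * ((l - 1) * x) = l * x := by
    obtain ⟨m, rfl⟩ : ∃ m, l = m + 1 := ⟨l - 1, by have := hl.one_lt; omega⟩
    simp only [Nat.add_sub_cancel]
    ring
  rw [h3] at h2
  exact (Nat.ModEq.dvd_iff h2 (dvd_refl l)).2 (dvd_mul_right l x)

theorem card_win (C : ℝ) (hC : ∀ (R G z k L w₀ : ℕ) (S : Finset ℕ) (ρ : ℕ → ℕ) (g : ℕ → ℂ),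
    1 ≤ R → 1 ≤ G → 1 ≤ k → 2 ≤ z → 16 * (G * z) ^ 4 ≤ L → S ⊆ Ioc w₀ (w₀ + L) →
    (∀ l : ℕ, l.Prime → R < l → l ≤ z → ¬ l ∣ k → ∀ w ∈ S, ¬ w ≡ ρ l [MOD l]) → MUR.Trig G R g →
    ∑ w ∈ S, ‖g w‖ ^ 2 ≤ C * Real.log (R + 1) * ((k : ℝ) / k.totient) / Real.log z *
      ∑ w ∈ Ioc w₀ (w₀ + L), ‖g w‖ ^ 2)
    (P : Finset ℕ) (W U z x : ℕ) (hW : 1 ≤ W) (hz : 2 ≤ z) (hU : 16 * z ^ 4 ≤ U)
    (hP : ∀ p ∈ P, p.Prime ∧ z < p) :
    ((win P W U x).card : ℝ) ≤ C * Real.log 2 * ((W : ℝ) / W.totient) / Real.log z * U := by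
  classical
  have hex : ∀ l : ℕ, ∃ r : ℕ, l.Prime → ¬ l ∣ W → l ∣ x + W * r := by
    intro l
    by_cases h1 : l.Prime
    · by_cases h2 : l ∣ W
      · exact ⟨0, fun _ h => absurd h2 h⟩
      · obtain ⟨r, hr⟩ := exists_class W x l h1 h2
        exact ⟨r, fun _ _ => hr⟩
    · exact ⟨0, fun h => absurd h h1⟩
  choose r hr using hex
  have key := hC 1 1 z W U 0 ((win P W U x).image (· + 1)) (fun l => r l + 1) (fun _ => 1)
    le_rfl le_rfl hW hz (by simpa using hU) ?_ ?_ trig_one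
  · rw [show ((1 : ℕ) : ℝ) + 1 = 2 by norm_num] at key
    have h1 : ((win P W U x).image (· + 1)).card = (win P W U x).card :=
      card_image_of_injective _ (add_left_injective 1)
    simpa [h1] using key
  · intro w hw
    obtain ⟨u, hu, rfl⟩ := mem_image.1 hw
    have hu' := mem_range.1 (mem_filter.1 hu).1
    rw [mem_Ioc]
    omega
  · intro l hl _ hlz hlW w hw hcon
    obtain ⟨u, hu, rfl⟩ := mem_image.1 hw
    have hup : x + W * u ∈ P := (mem_filter.1 hu).2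
    obtain ⟨hpr, hpz⟩ := hP _ hup
    have h1 : u ≡ r l [MOD l] := Nat.ModEq.add_right_cancel' 1 hcon
    have h2 : x + W * u ≡ x + W * r l [MOD l] := (h1.mul_left W).add_left x
    have h3 : l ∣ x + W * u := (Nat.ModEq.dvd_iff h2 (dvd_refl l)).2 (hr l hl hlW)
    have h4 := (Nat.prime_dvd_prime_iff_eq hl hpr).1 h3
    omega

end BRTM

theorem t_BRT : M_BRT := by
  intro hWIN
  obtain ⟨C, hC0, hC⟩ := MUR.t_LSS MUR.t_GS MUR.t_MER MUR.t_MON MUR.t_TRG
  refine ⟨C * Real.log 2, mul_pos hC0 (Real.log_pos (by norm_num)), ?_⟩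
  intro P W U z N hW hz hU hP
  obtain ⟨h2, h3⟩ := hWIN P W U N 0 hW (fun p hp => (hP p hp).2.2)
  have he : e 0 = 1 := by simp [e]
  have h4 : en P W U 0 = ∑ x ∈ range (N + 1), ((win P W U x).card : ℝ) ^ 2 := by
    rw [h2]
    refine Finset.sum_congr rfl fun x _ => ?_
    simp [he]
  have h5 : ((U : ℝ) * P.card) = ∑ x ∈ range (N + 1), ((win P W U x).card : ℝ) := by
    exact_mod_cast h3.symm
  have h6 : ∀ x ∈ range (N + 1), ((win P W U x).card : ℝ) ^ 2 ≤
      (C * Real.log 2 * ((W : ℝ) / W.totient) / Real.log z * U) * ((win P W U x).card : ℝ) := by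
    intro x _
    rw [sq]
    exact mul_le_mul_of_nonneg_right (BRTM.card_win C hC P W U z x hW hz hU
      (fun p hp => ⟨(hP p hp).1, (hP p hp).2.1⟩)) (Nat.cast_nonneg _)
  rw [h4]
  refine (sum_le_sum h6).trans ?_
  rw [← mul_sum, ← h5]
  apply le_of_eq
  ring

end Pool.Agent.CDP
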