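import Pool.Agent.CDP.Stmts

set_option autoImplicit false

/-!
# Project CDP: counting form of the theorem

THEOREM (`CountStatement`). Let `S` be a set of primes of positive upper Dirichlet density, `n, M₀ ≥ 1`. There is
`c > 0` such that for arbitrarily large `N` at least `c N^(4/3) / (log N)^2` pairs `p < q ≤ N` of elements of `S` satisfy
`q - p = n t^3`, `M₀ ∣ t`. (This is the order of magnitude of the number of all such pairs of primes.)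

The proof is that of `Stmts.lean` (read `CNT.lean`, `ONE.lean`, `FIN.lean` in this folder and modify them: COPY the proofs, do
not import these three files) with `T` of the order `N^(1/3)`.
-/

namespace Pool.Agent.CDP

open Finset
open Pool.Agent.Lib_helper83.EF (e)
open MUR (cop)

noncomputable section

/-- The solutions `(p, q, t)` of `q = p + W t^3`, `p, q ∈ P`, `1 ≤ t ≤ T`. -/
def sols (P : Finset ℕ) (W T : ℕ) : Finset ((ℕ × ℕ) × ℕ) :=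
  ((P ×ˢ P) ×ˢ Icc 1 T).filter (fun x => x.1.2 = x.1.1 + W * x.2 ^ 3)

/-- CNTC: as `S_CNT`. PROOF. `t_CNT` (CNT.lean): now the integral with `ker` is `∑_t wt T t #{(u, v) ∈ S_b^2 : u = v + t^3}`, which
is at most `3 T^5` times the number of the `(u, v, t)` (`wt T t ≤ 3 T^2 * T^3`), and the sum over `b` of these numbers is
`#(sols P W T)`. -/
def S_CNTC : Prop := ∀ (P : Finset ℕ) (W T Q : ℕ) (B : ℝ), 1 ≤ W → 1 ≤ T →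
  (∀ α : ℝ, |ker T α - model T Q α| ≤ B) →
  ∑ m ∈ Icc 1 Q, ∑ a ∈ cop m, gam a m * en P W (T ^ 3) ((a : ℝ) / m) ≤
    2 * B * P.card + 6 * (T : ℝ) ^ 5 * (sols P W T).card

def M_CNTC : Prop := S_PAR → S_CNTC

/-- ONEC: as `S_ONE` (same hypotheses). PROOF. `t_ONE` (ONE.lean) with `CNTC` in place of `CNT` gives, with
`E = en P W (T^3) 0 ≥ T^6 |P|^2 / (N + 1)` (LOW), `E ≤ 3 E / 8 + 6 T^5 #sols`, so `T |P|^2 / (N + 1) ≤ E / T^5 ≤ (48/5) #sols`. -/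
def S_ONEC : Prop := ∃ C : ℝ, 0 < C ∧ ∀ (P : Finset ℕ) (W T w Q z N : ℕ) (η : ℝ), 1 ≤ W → 1 ≤ T →
  1 ≤ w → w ≤ Q → 2 ≤ z → 0 < η → P.Nonempty → (∀ l ∈ W.primeFactors, l ≤ w) → Q ^ 20 ≤ T →
  (Q * z) ^ 2 ≤ T ^ 3 → (∀ p ∈ P, p.Prime ∧ z < p ∧ W * T ^ 3 ≤ p ∧ p ≤ N) →
  η * (((N : ℝ) + 1) / Real.log z) ≤ (P.card : ℝ) →
  C * (w : ℝ) ^ (-(1 / 10) : ℝ) ≤ η / 8 →
  2 * C * (Q : ℝ) ^ (-(1 / 5) : ℝ) ≤ η / (8 * Real.log z) →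
  ∑ m ∈ Ioc 1 w, ∑ a ∈ cop m, en P W (T ^ 3) ((a : ℝ) / m) ≤ 1 / 8 * en P W (T ^ 3) 0 →
  (T : ℝ) * (P.card : ℝ) ^ 2 ≤ 10 * ((N : ℝ) + 1) * (sols P W T).card

def M_ONEC : Prop := S_MOD → S_CNTC → S_FJB → S_WIN → S_LOW → S_TAI → S_ONEC

/-- CHE: few small primes. PROOF. Mathlib `Chebyshev.pi_le_log4_mul_div`: `π(x) ≤ log 4 * x / log √x + √x ≤ 5 x / log x` for
large `x`, with `x = δ N`, `log (δ N) ≥ (1/2) log N`: the number is at most `10 δ N / log N`; `δ = ε / 10`. -/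
def S_CHE : Prop := ∀ ε : ℝ, 0 < ε → ∃ (δ : ℝ) (N₁ : ℕ), 0 < δ ∧ δ ≤ 1 ∧ ∀ N X : ℕ, N₁ ≤ N → (X : ℝ) ≤ δ * N →
  (((Ioc 0 X).filter Nat.Prime).card : ℝ) ≤ ε * ((N : ℝ) / Real.log N)

/-- FINC: the choice of the parameters. PROOF. As `t_FIN` (FIN.lean), with `U_i` of the order of `N`. Let `c > 0` be such that
`|PP ∩ (0, N]| ≥ c N / log N` for arbitrarily large `N`, and `δ`, `N₁` from CHE for `ε = c / 2`. `η = c / 1600`, `C`, `C_B`, `w`, `k = w!`,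
`W_i = n (M₀ k^(i+1))^3`, `ρ`, `B`, `I` as in `t_FIN`. For `N` large (`≥ N₁`) let `s` be the largest integer with `s^200 ≤ N`, `z = Q = s`,
`X₀ = ⌊δ N⌋`, `T₀` the largest integer with `n (M₀ k^(I+1))^3 T₀^3 ≤ X₀` (so `T₀ ≥ c₂ N^(1/3)` with `c₂` independent of `N`),
`T_i = k^(I-i) T₀`, `U_i = T_i^3`: `W_i U_i = X := n (M₀ k^(I+1))^3 T₀^3 ≤ X₀` for all `i`, `W_{i+1} = W_i k^3`, `U_i = k^3 U_{i+1}`.
Let `P = PB PP X₀ N` (the `p ∈ PP` with `X₀ < p ≤ N`): `|P| ≥ c N / log N - (c/2) N / log N = (c/2) N / log N ≥ (c / 4) (N + 1) / (400 log s) =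
η (N+1) / log z`. All conditions of ONEC hold for every `i` and `N` large (`Q^20 = s^20 ≤ N^(1/10) ≤ T_i`, `(Q z)^2 = s^4 ≤ T_i^3`,
`z = s < p`, `W_i T_i^3 ≤ X₀ < p`). Energies: as in `t_FIN` (LOW for `f 0`, BRT with `16 z^4 ≤ U_I` for `f I`, PIG, FIX), so for one
`i < I` ONEC gives `#(sols P W_i T_i) ≥ T_i |P|^2 / (10 (N + 1)) ≥ c' N^(4/3) / (log N)^2`, `c' = c₂ c^2 / 80`. The map
`(p, q, t) ↦ (p, q)` is injective on `sols`, `q = p + W_i t^3 = p + n (M₀ k^(i+1) t)^3`, and `N₀ < X₀` for `N` large. -/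
def S_FINC : Prop := ∀ (PP : Set ℕ) (c : ℝ), (∀ p ∈ PP, p.Prime) → 0 < c →
  (∀ N₀ : ℕ, ∃ N : ℕ, N₀ ≤ N ∧ c * ((N : ℝ) / Real.log N) ≤ ((PB PP 0 N).card : ℝ)) →
  ∀ n M₀ : ℕ, 1 ≤ n → 1 ≤ M₀ → ∃ c' : ℝ, 0 < c' ∧ ∀ N₀ : ℕ, ∃ N : ℕ, N₀ ≤ N ∧ ∃ F : Finset (ℕ × ℕ),
    c' * ((N : ℝ) ^ (4 / 3 : ℝ) / Real.log N ^ 2) ≤ (F.card : ℝ) ∧
    ∀ x ∈ F, x.1 ∈ PP ∧ x.2 ∈ PP ∧ N₀ < x.1 ∧ x.2 ≤ N ∧ ∃ t : ℕ, 0 < t ∧ M₀ ∣ t ∧ x.2 = x.1 + n * t ^ 3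

def M_FINC : Prop := S_LOW → S_BRT → S_PIG → S_FIX → S_CHE → S_ONEC → S_FINC

/-- The main statement in counting form. -/
def CountStatement : Prop := ∀ S : Set ℕ, Thick S → ∀ n M₀ : ℕ, 1 ≤ n → 1 ≤ M₀ → ∃ c : ℝ, 0 < c ∧
  ∀ N₀ : ℕ, ∃ N : ℕ, N₀ ≤ N ∧ ∃ F : Finset (ℕ × ℕ),
    c * ((N : ℝ) ^ (4 / 3 : ℝ) / Real.log N ^ 2) ≤ (F.card : ℝ) ∧
    ∀ x ∈ F, x.1.Prime ∧ x.2.Prime ∧ x.1 ∈ S ∧ x.2 ∈ S ∧ N₀ < x.1 ∧ x.2 ≤ N ∧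
      ∃ t : ℕ, 0 < t ∧ M₀ ∣ t ∧ x.2 = x.1 + n * t ^ 3

theorem count_of (h1 : S_DEN) (h2 : S_FINC) : CountStatement := by
  intro S hS n M₀ hn hM
  obtain ⟨c, hc, h⟩ := h1 S hS
  obtain ⟨c', hc', h'⟩ := h2 {q | q.Prime ∧ q ∈ S} c (fun p hp => hp.1) hc h n M₀ hn hM
  refine ⟨c', hc', fun N₀ => ?_⟩
  obtain ⟨N, hN, F, hF, hx⟩ := h' N₀
  refine ⟨N, hN, F, hF, fun x hxF => ?_⟩
  obtain ⟨h3, h4, h5, h6, h7⟩ := hx x hxF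
  exact ⟨h3.1, h4.1, h3.2, h4.2, h5, h6, h7⟩

end

end Pool.Agent.CDP
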