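import Mathlib.NumberTheory.Chebyshev
import Pool.Agent.CDP.StmtsC

/-!
# CHE: few small primes
-/

set_option autoImplicit false

namespace Pool.Agent.CDP

open Finset Filter

theorem t_CHE : S_CHE := by
  intro ε hε
  obtain ⟨x₀, hx₀⟩ := eventually_atTop.1 (Chebyshev.eventually_primeCounting_le (ε := 1) one_pos)
  obtain ⟨δ, hδ⟩ : ∃ δ : ℝ, δ = min 1 (ε / 6) := ⟨_, rfl⟩
  have hδ0 : 0 < δ := by
    rw [hδ]
    exact lt_min one_pos (by positivity)
  have hδ1 : δ ≤ 1 := by
    rw [hδ]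
    exact min_le_left _ _
  have hδε : 6 * δ ≤ ε := by
    have : δ ≤ ε / 6 := by
      rw [hδ]
      exact min_le_right _ _
    linarith
  obtain ⟨N₁, hN₁⟩ := exists_nat_ge (max (max x₀ 2 / δ) (max (1 / δ ^ 2) 2))
  refine ⟨δ, N₁, hδ0, hδ1, ?_⟩
  intro N X hN hX
  have hNr : max (max x₀ 2 / δ) (max (1 / δ ^ 2) 2) ≤ (N : ℝ) :=
    hN₁.trans (by exact_mod_cast hN)
  have h1 : max x₀ 2 ≤ δ * N := by
    have h := (le_max_left _ _).trans hNr
    rw [div_le_iff₀ hδ0] at h
    linarith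
  have h2 : 1 ≤ δ ^ 2 * N := by
    have h := ((le_max_left _ _).trans (le_max_right _ _)).trans hNr
    rw [div_le_iff₀ (by positivity)] at h
    linarith
  have hN2 : (2 : ℝ) ≤ N := ((le_max_right _ _).trans (le_max_right _ _)).trans hNr
  have hN0 : (0 : ℝ) < N := by linarith
  have hlogN : 0 < Real.log N := Real.log_pos (by linarith)
  have hx2 : (2 : ℝ) ≤ δ * N := (le_max_right _ _).trans h1
  have hlog : Real.log N ≤ 2 * Real.log (δ * N) := by
    have h3 : (N : ℝ) ≤ (δ * N) ^ 2 := by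
      calc (N : ℝ) = 1 * N := (one_mul _).symm
        _ ≤ (δ ^ 2 * N) * N := mul_le_mul_of_nonneg_right h2 hN0.le
        _ = (δ * N) ^ 2 := by ring
    calc Real.log N ≤ Real.log ((δ * N) ^ 2) := Real.log_le_log hN0 h3
      _ = 2 * Real.log (δ * N) := by
        rw [Real.log_pow]
        norm_num
  have hlog0 : 0 < Real.log (δ * N) := by linarith
  have hcard : (((Ioc 0 X).filter Nat.Prime).card : ℝ) ≤ (Nat.primeCounting ⌊δ * (N : ℝ)⌋₊ : ℝ) := by
    have h3 : X ≤ ⌊δ * (N : ℝ)⌋₊ := Nat.le_floor hX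
    have h4 : ((Ioc 0 X).filter Nat.Prime).card ≤ Nat.primeCounting X := by
      rw [Nat.primeCounting, Nat.primeCounting', Nat.count_eq_card_filter_range]
      refine Finset.card_le_card fun p hp => ?_
      rw [Finset.mem_filter, Finset.mem_Ioc] at hp
      rw [Finset.mem_filter, Finset.mem_range]
      exact ⟨by omega, hp.2⟩
    exact_mod_cast h4.trans (Nat.monotone_primeCounting h3)
  have hpi := hx₀ (δ * N) ((le_max_left _ _).trans h1)
  have hlog4 : Real.log 4 + 1 ≤ 3 := by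
    have h5 : Real.log 4 = 2 * Real.log 2 := by
      rw [show (4 : ℝ) = 2 ^ 2 by norm_num, Real.log_pow]
      norm_num
    have h6 := Real.log_two_lt_d9
    rw [h5]
    linarith
  calc (((Ioc 0 X).filter Nat.Prime).card : ℝ) ≤ (Nat.primeCounting ⌊δ * (N : ℝ)⌋₊ : ℝ) := hcard
    _ ≤ (Real.log 4 + 1) * (δ * N) / Real.log (δ * N) := hpi
    _ ≤ 3 * (δ * N) / (Real.log N / 2) := by
      have h7 : 0 ≤ δ * (N : ℝ) := by positivity
      exact div_le_div₀ (by positivity) (mul_le_mul_of_nonneg_right hlog4 h7)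
        (by positivity) (by linarith)
    _ = (6 * δ) * (N / Real.log N) := by
      field_simp
      ring
    _ ≤ ε * (N / Real.log N) :=
      mul_le_mul_of_nonneg_right hδε (by positivity)

end Pool.Agent.CDP
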