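import Pool.Agent.CDP.Stmts

set_option autoImplicit false

/-!
# Project CDP: module CNT, counting by the circle method
-/

namespace Pool.Agent.CDP

open Finset
open Pool.Agent.Lib_helper83.EF (e)
open MUR (cop)

noncomputable section

namespace CNTM

theorem cont_e : Continuous e := by
  unfold Pool.Agent.Lib_helper83.EF.e
  fun_prop

theorem cont_F (S : Finset ℕ) : Continuous fun α : ℝ => ‖∑ u ∈ S, e ((u : ℝ) * α)‖ ^ 2 := by
  refine (continuous_norm.comp (continuous_finsetSum S fun u _ => ?_)).pow 2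
  exact cont_e.comp (continuous_const.mul continuous_id)

theorem cont_fej (U : ℕ) (θ : ℝ) : Continuous fun α : ℝ => fej U (α - θ) := by
  unfold fej
  refine (continuous_norm.comp (continuous_finsetSum _ fun u _ => ?_)).pow 2
  exact cont_e.comp (continuous_const.mul (continuous_id.sub continuous_const))

theorem cont_cos (c : ℝ) : Continuous fun α : ℝ => Real.cos (2 * Real.pi * (c * α)) := by
  fun_prop

theorem cont_ker (T : ℕ) : Continuous fun α : ℝ => ker T α := by
  unfold ker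
  exact continuous_finsetSum _ fun t _ => continuous_const.mul (cont_cos _)

theorem cont_model (T Q : ℕ) : Continuous fun α : ℝ => model T Q α := by
  unfold model
  refine Continuous.div_const ?_ _
  exact continuous_finsetSum _ fun m _ => continuous_finsetSum _ fun a _ =>
    continuous_const.mul (cont_fej _ _)

/-- the inequality for one residue class -/
theorem class_le (hP : S_PAR) (S : Finset ℕ) (T Q : ℕ) (B : ℝ)
    (hB : ∀ α : ℝ, |ker T α - model T Q α| ≤ B)
    (hS : ∀ u ∈ S, ∀ v ∈ S, ∀ t ∈ Icc 1 T, u ≠ v + t ^ 3) :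
    ∑ m ∈ Icc 1 Q, ∑ a ∈ cop m, gam a m * (∑ u ∈ S, ∑ v ∈ S,
      max 0 (((T ^ 3 : ℕ) : ℝ) - |(u : ℝ) - v|) *
        Real.cos (2 * Real.pi * (((u : ℝ) - v) * ((a : ℝ) / m)))) ≤ 2 * B * S.card := by
  obtain ⟨h1, h2, h3⟩ := hP S
  have hF := cont_F S
  have hker : (∫ α in (0 : ℝ)..1, ‖∑ u ∈ S, e ((u : ℝ) * α)‖ ^ 2 * ker T α) = 0 := by
    have e1 : (fun α : ℝ => ‖∑ u ∈ S, e ((u : ℝ) * α)‖ ^ 2 * ker T α) = fun α : ℝ =>
        ∑ t ∈ Icc 1 T, wt T t * (‖∑ u ∈ S, e ((u : ℝ) * α)‖ ^ 2 *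
          Real.cos (2 * Real.pi * (((t ^ 3 : ℕ) : ℝ) * α))) := by
      funext α
      unfold ker
      rw [Finset.mul_sum]
      refine Finset.sum_congr rfl fun t _ => ?_
      push_cast
      ring
    rw [e1, intervalIntegral.integral_finsetSum]
    · refine Finset.sum_eq_zero fun t ht => ?_
      rw [intervalIntegral.integral_const_mul, h2 (t ^ 3), Finset.filter_eq_empty_iff.2]
      · simp
      · rintro ⟨u, v⟩ huv
        rw [Finset.mem_product] at huv
        exact hS u huv.1 v huv.2 t ht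
    · intro t _
      exact (continuous_const.mul (hF.mul (cont_cos _))).intervalIntegrable _ _
  have hmod : (∫ α in (0 : ℝ)..1, ‖∑ u ∈ S, e ((u : ℝ) * α)‖ ^ 2 * model T Q α) =
      (∑ m ∈ Icc 1 Q, ∑ a ∈ cop m, gam a m * (∑ u ∈ S, ∑ v ∈ S,
        max 0 (((T ^ 3 : ℕ) : ℝ) - |(u : ℝ) - v|) *
          Real.cos (2 * Real.pi * (((u : ℝ) - v) * ((a : ℝ) / m))))) / 2 := by
    have e1 : (fun α : ℝ => ‖∑ u ∈ S, e ((u : ℝ) * α)‖ ^ 2 * model T Q α) = fun α : ℝ =>
        (∑ m ∈ Icc 1 Q, ∑ a ∈ cop m, gam a m * (‖∑ u ∈ S, e ((u : ℝ) * α)‖ ^ 2 *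
          fej (T ^ 3) (α - (a : ℝ) / m))) / 2 := by
      funext α
      unfold model
      rw [← mul_div_assoc, Finset.mul_sum]
      congr 1
      refine Finset.sum_congr rfl fun m _ => ?_
      rw [Finset.mul_sum]
      exact Finset.sum_congr rfl fun a _ => by ring
    rw [e1, intervalIntegral.integral_div, intervalIntegral.integral_finsetSum]
    · congr 1
      refine Finset.sum_congr rfl fun m _ => ?_
      rw [intervalIntegral.integral_finsetSum]
      · refine Finset.sum_congr rfl fun a _ => ?_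
        rw [intervalIntegral.integral_const_mul, h3]
      · intro a _
        exact (continuous_const.mul (hF.mul (cont_fej _ _))).intervalIntegrable _ _
    · intro m _
      exact (continuous_finsetSum _ fun a _ =>
        continuous_const.mul (hF.mul (cont_fej _ _))).intervalIntegrable _ _
  have hcmp : (∫ α in (0 : ℝ)..1, ‖∑ u ∈ S, e ((u : ℝ) * α)‖ ^ 2 * model T Q α) ≤
      ∫ α in (0 : ℝ)..1, (‖∑ u ∈ S, e ((u : ℝ) * α)‖ ^ 2 * ker T α +
        B * ‖∑ u ∈ S, e ((u : ℝ) * α)‖ ^ 2) := by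
    refine intervalIntegral.integral_mono_on zero_le_one
      ((hF.mul (cont_model T Q)).intervalIntegrable _ _)
      (((hF.mul (cont_ker T)).add (continuous_const.mul hF)).intervalIntegrable _ _) ?_
    intro α _
    have e1 := (abs_le.1 (hB α)).1
    have e2 : 0 ≤ ‖∑ u ∈ S, e ((u : ℝ) * α)‖ ^ 2 := sq_nonneg _
    nlinarith
  have i1 : IntervalIntegrable (fun α : ℝ => ‖∑ u ∈ S, e ((u : ℝ) * α)‖ ^ 2 * ker T α)
      MeasureTheory.volume 0 1 := (hF.mul (cont_ker T)).intervalIntegrable _ _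
  have i2 : IntervalIntegrable (fun α : ℝ => B * ‖∑ u ∈ S, e ((u : ℝ) * α)‖ ^ 2)
      MeasureTheory.volume 0 1 := (continuous_const.mul hF).intervalIntegrable _ _
  rw [intervalIntegral.integral_add i1 i2, intervalIntegral.integral_const_mul, hker, h1,
    hmod] at hcmp
  linarith

/-- the quotients of the elements of a residue class -/
def cl (P : Finset ℕ) (W b : ℕ) : Finset ℕ := (P.filter fun p => p % W = b).image (· / W)

theorem inj_cl (P : Finset ℕ) (W b : ℕ) :
    Set.InjOn (· / W) ((P.filter fun p => p % W = b : Finset ℕ) : Set ℕ) := by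
  intro p hp q hq h
  have h1 := (Finset.mem_filter.1 (Finset.mem_coe.1 hp)).2
  have h2 := (Finset.mem_filter.1 (Finset.mem_coe.1 hq)).2
  have h3 : p / W = q / W := h
  rw [← Nat.div_add_mod p W, ← Nat.div_add_mod q W, h1, h2, h3]

theorem card_cl (P : Finset ℕ) (W : ℕ) (hW : 1 ≤ W) :
    ∑ b ∈ range W, (cl P W b).card = P.card := by
  have h1 : ∀ b ∈ range W, (cl P W b).card = (P.filter fun p => p % W = b).card := fun b _ =>
    Finset.card_image_of_injOn (inj_cl P W b)
  rw [Finset.sum_congr rfl h1]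
  exact (Finset.card_eq_sum_card_fiberwise fun p _ =>
    Finset.mem_coe.2 (Finset.mem_range.2 (Nat.mod_lt p hW))).symm

theorem sub_div (W : ℕ) (hW : 1 ≤ W) {p q b : ℕ} (hp : p % W = b) (hq : q % W = b) :
    ((p : ℝ) - q) / W = ((p / W : ℕ) : ℝ) - ((q / W : ℕ) : ℝ) := by
  have h0 : (W : ℝ) ≠ 0 := by positivity
  have h1 : (p : ℝ) = W * ((p / W : ℕ) : ℝ) + b := by
    have := Nat.div_add_mod p W
    rw [hp] at this
    exact_mod_cast this.symm
  have h2 : (q : ℝ) = W * ((q / W : ℕ) : ℝ) + b := by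
    have := Nat.div_add_mod q W
    rw [hq] at this
    exact_mod_cast this.symm
  rw [div_eq_iff h0]
  linear_combination h1 - h2

theorem en_eq (P : Finset ℕ) (W U : ℕ) (θ : ℝ) (hW : 1 ≤ W) :
    en P W U θ = ∑ b ∈ range W, ∑ u ∈ cl P W b, ∑ v ∈ cl P W b,
      max 0 ((U : ℝ) - |(u : ℝ) - v|) * Real.cos (2 * Real.pi * (((u : ℝ) - v) * θ)) := by
  unfold en
  rw [← Finset.sum_fiberwise_of_maps_to (s := P) (t := range W) (g := fun p => p % W)
    (fun p _ => Finset.mem_range.2 (Nat.mod_lt p hW))]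
  refine Finset.sum_congr rfl fun b _ => ?_
  unfold cl
  rw [Finset.sum_image (inj_cl P W b)]
  refine Finset.sum_congr rfl fun p hp => ?_
  rw [Finset.sum_image (inj_cl P W b)]
  have hp' := (Finset.mem_filter.1 hp).2
  have h1 : (P.filter fun q => q ≡ p [MOD W]) = P.filter fun q => q % W = b := by
    refine Finset.filter_congr fun q _ => ?_
    unfold Nat.ModEq
    rw [hp']
  rw [h1]
  refine Finset.sum_congr rfl fun q hq => ?_
  have hq' := (Finset.mem_filter.1 hq).2
  have h2 := sub_div W hW hp' hq'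
  have h3 : |(p : ℝ) - q| / W = |((p / W : ℕ) : ℝ) - ((q / W : ℕ) : ℝ)| := by
    rw [← h2, abs_div, abs_of_nonneg (Nat.cast_nonneg W : (0 : ℝ) ≤ W)]
  rw [h2, h3]

end CNTM

theorem t_CNT : M_CNT := by
  intro hP P W T Q B hW hT hB hS
  have h1 : ∀ b ∈ range W, ∑ m ∈ Icc 1 Q, ∑ a ∈ cop m, gam a m *
      (∑ u ∈ CNTM.cl P W b, ∑ v ∈ CNTM.cl P W b,
        max 0 (((T ^ 3 : ℕ) : ℝ) - |(u : ℝ) - v|) *
          Real.cos (2 * Real.pi * (((u : ℝ) - v) * ((a : ℝ) / m)))) ≤
        2 * B * ((CNTM.cl P W b).card : ℝ) := by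
    intro b _
    refine CNTM.class_le hP _ T Q B hB fun u hu v hv t ht h => ?_
    obtain ⟨q, hq, rfl⟩ := Finset.mem_image.1 hu
    obtain ⟨p, hp, rfl⟩ := Finset.mem_image.1 hv
    rw [Finset.mem_filter] at hq hp
    refine hS p hp.1 q hq.1 t ht ?_
    have h' : q / W = p / W + t ^ 3 := h
    rw [← Nat.div_add_mod q W, hq.2, h']
    conv_rhs => rw [← Nat.div_add_mod p W, hp.2]
    ring
  have h2 := Finset.sum_le_sum h1
  rw [← Finset.mul_sum, ← Nat.cast_sum, CNTM.card_cl P W hW] at h2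
  refine le_trans (le_of_eq ?_) h2
  rw [Finset.sum_comm]
  refine Finset.sum_congr rfl fun m _ => ?_
  rw [Finset.sum_comm]
  refine Finset.sum_congr rfl fun a _ => ?_
  rw [CNTM.en_eq P W (T ^ 3) _ hW, Finset.mul_sum]

end

end Pool.Agent.CDP
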