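import Pool.Agent.CDP.Stmts

set_option autoImplicit false

namespace Pool.Agent.CDP

open Finset

namespace DENM

lemma r_facts (s : ℝ) (h1 : 1 < s) (h2 : s ≤ 2) :
    (1 / 2 : ℝ) ≤ (2 : ℝ) ^ (1 - s) ∧ (2 : ℝ) ^ (1 - s) ≤ 1 - (s - 1) / 2 := by
  have e1 : (2 : ℝ) ^ (1 - s) = (1 + (-(1 / 2)) : ℝ) ^ (s - 1) := by
    have h3 : (1 + (-(1 / 2)) : ℝ) = (2 : ℝ)⁻¹ := by norm_num
    rw [h3, Real.inv_rpow (by norm_num), ← Real.rpow_neg (by norm_num)]
    congr 1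
    ring
  constructor
  · rw [e1]
    have h3 : (1 + (-(1 / 2)) : ℝ) ^ (1 : ℝ) ≤ (1 + (-(1 / 2)) : ℝ) ^ (s - 1) :=
      Real.rpow_le_rpow_of_exponent_ge (by norm_num) (by norm_num) (by linarith)
    rw [Real.rpow_one] at h3
    linarith
  · rw [e1]
    have h3 := _root_.rpow_one_add_le_one_add_mul_self (s := -(1 / 2)) (by norm_num)
      (p := s - 1) (by linarith) (by linarith)
    linarith

lemma two_pow_id (s : ℝ) (k : ℕ) :
    (2 : ℝ) ^ k * ((2 : ℝ) ^ k) ^ (-s) = ((2 : ℝ) ^ (1 - s)) ^ k := by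
  have hp : (0 : ℝ) < (2 : ℝ) ^ k := by positivity
  calc (2 : ℝ) ^ k * ((2 : ℝ) ^ k) ^ (-s) = ((2 : ℝ) ^ k) ^ (1 : ℝ) * ((2 : ℝ) ^ k) ^ (-s) := by
        rw [Real.rpow_one]
    _ = ((2 : ℝ) ^ k) ^ (1 - s) := by rw [← Real.rpow_add hp]; congr 1
    _ = ((2 : ℝ) ^ (1 - s)) ^ k := by
        rw [← Real.rpow_natCast, ← Real.rpow_natCast, ← Real.rpow_mul (by norm_num),
          ← Real.rpow_mul (by norm_num), mul_comm]

lemma mem_PB (PP : Set ℕ) (B N q : ℕ) : q ∈ PB PP B N ↔ (B < q ∧ q ≤ N) ∧ q ∈ PP := by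
  unfold PB
  simp

lemma step (PP : Set ℕ) (s : ℝ) (hs : 1 < s) (c₁ : ℝ) (J : ℕ)
    (hJ : ∀ N : ℕ, 2 ^ J ≤ N → ((PB PP 0 N).card : ℝ) ≤ c₁ * ((N : ℝ) / Real.log N))
    (hc : 0 < c₁) (k : ℕ) (hk : J ≤ k) :
    ∑ q ∈ PB PP 0 (2 ^ k), (q : ℝ) ^ (-s) ≤ (2 : ℝ) ^ J +
      ∑ i ∈ range k, 2 * c₁ / Real.log 2 * (((2 : ℝ) ^ (1 - s)) ^ i / ((i : ℝ) + 1)) := by
  have hl : 0 < Real.log 2 := Real.log_pos (by norm_num)
  induction k, hk using Nat.le_induction with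
  | base =>
    have h1 : ∑ q ∈ PB PP 0 (2 ^ J), (q : ℝ) ^ (-s) ≤ (2 : ℝ) ^ J := by
      have h2 : ∑ q ∈ PB PP 0 (2 ^ J), (q : ℝ) ^ (-s) ≤ ∑ q ∈ PB PP 0 (2 ^ J), (1 : ℝ) := by
        refine Finset.sum_le_sum fun q hq => ?_
        have hq1 := ((mem_PB PP 0 _ q).1 hq).1.1
        exact Real.rpow_le_one_of_one_le_of_nonpos (by exact_mod_cast hq1) (by linarith)
      refine h2.trans ?_
      rw [Finset.sum_const, nsmul_eq_mul, mul_one]
      have h3 : (PB PP 0 (2 ^ J)).card ≤ 2 ^ J := by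
        have h4 : PB PP 0 (2 ^ J) ⊆ Ioc 0 (2 ^ J) := by
          intro q hq
          exact Finset.mem_Ioc.2 ((mem_PB PP 0 _ q).1 hq).1
        have h5 := Finset.card_le_card h4
        rwa [Nat.card_Ioc, Nat.sub_zero] at h5
      exact_mod_cast h3
    have h2 : 0 ≤ ∑ i ∈ range J, 2 * c₁ / Real.log 2 * (((2 : ℝ) ^ (1 - s)) ^ i / ((i : ℝ) + 1)) :=
      Finset.sum_nonneg fun i _ => by positivity
    linarith
  | succ k hk ih =>
    rw [Finset.sum_range_succ]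
    have hsub : PB PP 0 (2 ^ (k + 1)) ⊆ PB PP 0 (2 ^ k) ∪ PB PP (2 ^ k) (2 ^ (k + 1)) := by
      intro q hq
      obtain ⟨⟨a, b⟩, d⟩ := (mem_PB PP 0 _ q).1 hq
      rw [Finset.mem_union, mem_PB, mem_PB]
      rcases le_or_gt q (2 ^ k) with h | h
      · exact Or.inl ⟨⟨a, h⟩, d⟩
      · exact Or.inr ⟨⟨h, b⟩, d⟩
    have hdis : Disjoint (PB PP 0 (2 ^ k)) (PB PP (2 ^ k) (2 ^ (k + 1))) := by
      rw [Finset.disjoint_left]
      intro q h1 h2
      have a := ((mem_PB PP _ _ q).1 h1).1.2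
      have b := ((mem_PB PP _ _ q).1 h2).1.1
      omega
    have h1 : ∑ q ∈ PB PP 0 (2 ^ (k + 1)), (q : ℝ) ^ (-s) ≤
        ∑ q ∈ PB PP 0 (2 ^ k), (q : ℝ) ^ (-s) +
          ∑ q ∈ PB PP (2 ^ k) (2 ^ (k + 1)), (q : ℝ) ^ (-s) := by
      rw [← Finset.sum_union hdis]
      exact Finset.sum_le_sum_of_subset_of_nonneg hsub fun q _ _ =>
        Real.rpow_nonneg (Nat.cast_nonneg q) _
    have h2 : ∑ q ∈ PB PP (2 ^ k) (2 ^ (k + 1)), (q : ℝ) ^ (-s) ≤
        ((PB PP 0 (2 ^ (k + 1))).card : ℝ) * ((2 : ℝ) ^ k) ^ (-s) := by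
      have h3 : ∑ q ∈ PB PP (2 ^ k) (2 ^ (k + 1)), (q : ℝ) ^ (-s) ≤
          ∑ q ∈ PB PP (2 ^ k) (2 ^ (k + 1)), ((2 : ℝ) ^ k) ^ (-s) := by
        refine Finset.sum_le_sum fun q hq => ?_
        have hq1 := ((mem_PB PP _ _ q).1 hq).1.1
        have hq2 : (2 : ℝ) ^ k ≤ (q : ℝ) := by exact_mod_cast hq1.le
        exact Real.rpow_le_rpow_of_nonpos (by positivity) hq2 (by linarith)
      refine h3.trans ?_
      rw [Finset.sum_const, nsmul_eq_mul]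
      refine mul_le_mul_of_nonneg_right ?_ (by positivity)
      have h4 : PB PP (2 ^ k) (2 ^ (k + 1)) ⊆ PB PP 0 (2 ^ (k + 1)) := by
        intro q hq
        obtain ⟨⟨a, b⟩, d⟩ := (mem_PB PP _ _ q).1 hq
        exact (mem_PB PP _ _ q).2 ⟨⟨by omega, b⟩, d⟩
      exact_mod_cast Finset.card_le_card h4
    have h3 : ((PB PP 0 (2 ^ (k + 1))).card : ℝ) ≤
        c₁ * ((2 : ℝ) ^ (k + 1) / (((k : ℝ) + 1) * Real.log 2)) := by
      have h4 := hJ (2 ^ (k + 1)) (Nat.pow_le_pow_right (by norm_num) (by omega))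
      push_cast at h4
      rw [Real.log_pow] at h4
      push_cast at h4
      exact h4
    have h4 : ((PB PP 0 (2 ^ (k + 1))).card : ℝ) * ((2 : ℝ) ^ k) ^ (-s) ≤
        2 * c₁ / Real.log 2 * (((2 : ℝ) ^ (1 - s)) ^ k / ((k : ℝ) + 1)) := by
      refine (mul_le_mul_of_nonneg_right h3 (by positivity)).trans (le_of_eq ?_)
      rw [← two_pow_id s k, pow_succ]
      have hk0 : ((k : ℝ) + 1) ≠ 0 := by positivity
      field_simp
    linarith

end DENM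

open DENM in
theorem t_DEN : S_DEN := by
  intro S hS
  obtain ⟨c, hc, hK⟩ := hS
  refine ⟨c / 8, by positivity, ?_⟩
  by_contra hcon
  push Not at hcon
  obtain ⟨N₀, hN⟩ := hcon
  set PP : Set ℕ := {q | q.Prime ∧ q ∈ S} with hPP
  have hJ : ∀ N : ℕ, 2 ^ N₀ ≤ N → ((PB PP 0 N).card : ℝ) ≤ c / 8 * ((N : ℝ) / Real.log N) := by
    intro N hle
    exact (hN N ((Nat.lt_two_pow_self).le.trans hle)).le
  have hl : 0 < Real.log 2 := Real.log_pos (by norm_num)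
  have hl2 : (1 / 2 : ℝ) < Real.log 2 := by
    have := Real.log_two_gt_d9
    linarith
  obtain ⟨s, hs1, hs2, hsum⟩ := hK ((2 : ℝ) ^ N₀ + c * Real.log 2 + 1)
  obtain ⟨r1, r2⟩ := r_facts s hs1 hs2
  set r : ℝ := (2 : ℝ) ^ (1 - s) with hr
  have r0 : 0 < r := by linarith
  have rlt : r < 1 := by linarith
  set L : ℝ := Real.log (1 / (s - 1)) with hL
  have hs0 : 0 < s - 1 := by linarith
  have hL0 : 0 ≤ L := by
    refine Real.log_nonneg ?_
    rw [le_div_iff₀ hs0]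
    linarith
  -- the logarithmic series
  have hser : ∀ k : ℕ, ∑ i ∈ range k, (r ^ i / ((i : ℝ) + 1)) ≤ 2 * (Real.log 2 + L) := by
    intro k
    have h1 := Real.hasSum_pow_div_log_of_abs_lt_one (x := r) (by rw [abs_of_pos r0]; exact rlt)
    have h2 : ∑ i ∈ range k, (r ^ (i + 1) / ((i : ℝ) + 1)) ≤ -Real.log (1 - r) :=
      sum_le_hasSum _ (fun i _ => by positivity) h1
    have h3 : ∑ i ∈ range k, (r ^ i / ((i : ℝ) + 1)) ≤
        2 * ∑ i ∈ range k, (r ^ (i + 1) / ((i : ℝ) + 1)) := by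
      rw [Finset.mul_sum]
      refine Finset.sum_le_sum fun i _ => ?_
      rw [pow_succ]
      have h4 : 0 ≤ r ^ i / ((i : ℝ) + 1) := by positivity
      have h5 : 2 * (r ^ i * r / ((i : ℝ) + 1)) = (2 * r) * (r ^ i / ((i : ℝ) + 1)) := by ring
      rw [h5]
      nlinarith
    have h4 : -Real.log (1 - r) ≤ Real.log 2 + L := by
      have h5 : Real.log ((s - 1) / 2) ≤ Real.log (1 - r) :=
        Real.log_le_log (by linarith) (by linarith)
      have h6 : Real.log ((s - 1) / 2) = Real.log (s - 1) - Real.log 2 :=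
        Real.log_div (by linarith) (by norm_num)
      have h7 : L = - Real.log (s - 1) := by
        rw [hL, one_div, Real.log_inv]
      linarith
    linarith
  have hbound : ∀ k : ℕ, N₀ ≤ k → ∑ q ∈ PB PP 0 (2 ^ k), (q : ℝ) ^ (-s) ≤
      (2 : ℝ) ^ N₀ + c * Real.log 2 + c * L := by
    intro k hk
    have h1 := step PP s hs1 (c / 8) N₀ hJ (by positivity) k hk
    rw [← Finset.mul_sum] at h1
    have h2 := hser k
    have h3 : 2 * (c / 8) / Real.log 2 * ∑ i ∈ range k, (r ^ i / ((i : ℝ) + 1)) ≤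
        c * (Real.log 2 + L) := by
      have h4 : 2 * (c / 8) / Real.log 2 ≤ c / 2 := by
        rw [div_le_iff₀ hl]
        nlinarith
      have h5 : 0 ≤ ∑ i ∈ range k, (r ^ i / ((i : ℝ) + 1)) :=
        Finset.sum_nonneg fun i _ => by positivity
      calc 2 * (c / 8) / Real.log 2 * ∑ i ∈ range k, (r ^ i / ((i : ℝ) + 1))
          ≤ c / 2 * ∑ i ∈ range k, (r ^ i / ((i : ℝ) + 1)) := mul_le_mul_of_nonneg_right h4 h5
        _ ≤ c / 2 * (2 * (Real.log 2 + L)) := mul_le_mul_of_nonneg_left h2 (by positivity)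
        _ = c * (Real.log 2 + L) := by ring
    linarith
  have hts : ∑' q : {q : ℕ // q.Prime ∧ q ∈ S}, (q : ℝ) ^ (-s) ≤
      (2 : ℝ) ^ N₀ + c * Real.log 2 + c * L := by
    refine tsum_le_of_sum_le' (by positivity) ?_
    intro t
    classical
    set k : ℕ := N₀ + t.sup (fun q => (q : ℕ)) with hk
    refine le_trans ?_ (hbound k (by omega))
    have h1 : ∑ q ∈ t, ((q : ℕ) : ℝ) ^ (-s) =
        ∑ q ∈ t.map (Function.Embedding.subtype _), (q : ℝ) ^ (-s) := by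
      rw [Finset.sum_map]
      rfl
    rw [h1]
    refine Finset.sum_le_sum_of_subset_of_nonneg ?_ fun q _ _ =>
      Real.rpow_nonneg (Nat.cast_nonneg q) _
    intro q hq
    rw [Finset.mem_map] at hq
    obtain ⟨p, hp, rfl⟩ := hq
    have hple : (p : ℕ) ≤ t.sup (fun q => (q : ℕ)) := Finset.le_sup (f := fun q : {q : ℕ // q.Prime ∧ q ∈ S} => (q : ℕ)) hp
    have hlt : k < 2 ^ k := Nat.lt_two_pow_self
    refine (mem_PB PP _ _ _).2 ⟨⟨p.2.1.pos, ?_⟩, p.2⟩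
    change (p : ℕ) ≤ 2 ^ k
    omega
  linarith

end Pool.Agent.CDP
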