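import Mathlib
import Pool.Agent.MUR.St
import Pool.Agent.Lib_helper77.EF.LS
import Pool.Agent.Lib_helper91.Div

set_option autoImplicit false

/-!
# Project CDP: differences of primes which are `n` times a cube

Analytic part of Theorem A for MP_8e0b0b_nt. Definitions.
`e x = exp (2 π i x)` is `Pool.Agent.Lib_helper83.EF.e` (lemmas `e_add`, `norm_e`, `conj_e`, `e_nsmul`,
`norm_one_sub_e`, `sin_lower`, `farey_spacing` in `Pool.Agent.Lib_helper77.EF`), `MUR.cop m` is the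
set of the `a < m` prime to `m` (`{0}` for `m = 1`).
-/

namespace Pool.Agent.CDP

open Finset
open Pool.Agent.Lib_helper83.EF (e)
open MUR (cop)

noncomputable section

/-- The smooth version of `min (T, 1 / ‖θ‖)`. -/
def mn (T : ℕ) (θ : ℝ) : ℝ := (T : ℝ) / (1 + (T : ℝ) * |θ - round θ|)

/-- The weight of the cube `t ^ 3`; it is the number of integers in `((t-1)^3, t^3]` times the
Fejer weight `T^3 - t^3`. -/
def wt (T t : ℕ) : ℝ := ((t : ℝ) ^ 3 - ((t : ℝ) - 1) ^ 3) * ((T : ℝ) ^ 3 - (t : ℝ) ^ 3)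

/-- The (real) transform of the kernel on the cubes. -/
def ker (T : ℕ) (α : ℝ) : ℝ :=
  ∑ t ∈ Icc 1 T, wt T t * Real.cos (2 * Real.pi * ((t : ℝ) ^ 3 * α))

/-- The Fejer kernel `|∑_{u < U} e (u α)|^2`. -/
def fej (U : ℕ) (α : ℝ) : ℝ := ‖∑ u ∈ range U, e ((u : ℝ) * α)‖ ^ 2

/-- The mean value of `e (a r^3 / m)` over `r` modulo `m` (it is real). -/
def gam (a m : ℕ) : ℝ :=
  (∑ r ∈ range m, Real.cos (2 * Real.pi * ((r : ℝ) ^ 3 * ((a : ℝ) / m)))) / m

/-- The model of `ker`. -/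
def model (T Q : ℕ) (α : ℝ) : ℝ :=
  (∑ m ∈ Icc 1 Q, ∑ a ∈ cop m, gam a m * fej (T ^ 3) (α - (a : ℝ) / m)) / 2

/-- Correlations of the finite set `P` in the residue classes modulo `W`, with windows of length
`W * U`, twisted by `θ`. -/
def en (P : Finset ℕ) (W U : ℕ) (θ : ℝ) : ℝ :=
  ∑ p ∈ P, ∑ q ∈ P.filter (fun q => q ≡ p [MOD W]),
    max 0 ((U : ℝ) - |(p : ℝ) - q| / W) * Real.cos (2 * Real.pi * (((p : ℝ) - q) / W * θ))

/-- The part of `P` in the window `[x, x + W U)` and in the class of `x` modulo `W`, as a set of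
numbers `u` (`p = x + W u`). -/
def win (P : Finset ℕ) (W U x : ℕ) : Finset ℕ := (range U).filter (fun u => x + W * u ∈ P)

/-- Positive upper Dirichlet density. -/
def Thick (S : Set ℕ) : Prop := ∃ c : ℝ, 0 < c ∧ ∀ K : ℝ, ∃ s : ℝ, 1 < s ∧ s ≤ 2 ∧
  c * Real.log (1 / (s - 1)) + K ≤ ∑' q : {q : ℕ // q.Prime ∧ q ∈ S}, (q : ℝ) ^ (-s)

/-- The part of `PP` in `(B, N]`. -/
def PB (PP : Set ℕ) (B N : ℕ) : Finset ℕ := by
  classical exact (Ioc B N).filter (fun p => p ∈ PP)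

end

end Pool.Agent.CDP
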