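import Pool.Agent.CDP.Stmts

/-!
# ENE: orthogonality over all fractions with denominators dividing `k`
-/

set_option autoImplicit false

namespace Pool.Agent.CDP

open Finset
open MUR (cop)

namespace ENEM

lemma cos_sum (k : ℕ) (hk : 1 ≤ k) (d : ℤ) :
    ∑ j ∈ range k, Real.cos (2 * Real.pi * ((d : ℝ) * ((j : ℝ) / k))) =
      if (k : ℤ) ∣ d then (k : ℝ) else 0 := by
  have hk0 : (k : ℝ) ≠ 0 := by positivity
  have hkc : (k : ℂ) ≠ 0 := by exact_mod_cast (by omega : k ≠ 0)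
  split_ifs with h
  · obtain ⟨c, rfl⟩ := h
    rw [Finset.sum_congr rfl (g := fun _ => (1 : ℝ)), Finset.sum_const, card_range, nsmul_eq_mul,
      mul_one]
    intro j _
    have e1 : 2 * Real.pi * ((((k : ℤ) * c : ℤ) : ℝ) * ((j : ℝ) / k)) =
        ((c * j : ℤ) : ℝ) * (2 * Real.pi) := by
      push_cast; field_simp
    rw [e1, Real.cos_int_mul_two_pi]
  · obtain ⟨ω, hω⟩ : ∃ ω : ℂ, ω = Complex.exp (2 * Real.pi * Complex.I * ((d : ℂ) / k)) := ⟨_, rfl⟩
    have h1 : ∀ j : ℕ, Real.cos (2 * Real.pi * ((d : ℝ) * ((j : ℝ) / k))) = (ω ^ j).re := by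
      intro j
      rw [hω, ← Complex.exp_nat_mul]
      have e1 : (j : ℂ) * (2 * Real.pi * Complex.I * ((d : ℂ) / k)) =
          ((2 * Real.pi * ((d : ℝ) * ((j : ℝ) / k)) : ℝ) : ℂ) * Complex.I := by
        push_cast; ring
      rw [e1, Complex.exp_ofReal_mul_I_re]
    have h2 : ω ≠ 1 := by
      intro h3
      rw [hω, Complex.exp_eq_one_iff] at h3
      obtain ⟨n, hn⟩ := h3
      apply h
      refine ⟨n, ?_⟩
      have h4 : (2 * Real.pi * Complex.I : ℂ) ≠ 0 := Complex.two_pi_I_ne_zero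
      have h5 : (d : ℂ) / k = n := by
        apply mul_left_cancel₀ h4
        rw [hn]; ring
      have h6 : (d : ℂ) = k * n := by
        rw [div_eq_iff hkc] at h5
        rw [h5]; ring
      exact_mod_cast h6
    have h3 : ω ^ k = 1 := by
      rw [hω, ← Complex.exp_nat_mul]
      have e1 : (k : ℂ) * (2 * Real.pi * Complex.I * ((d : ℂ) / k)) =
          (d : ℂ) * (2 * Real.pi * Complex.I) := by
        field_simp
      rw [e1, Complex.exp_int_mul_two_pi_mul_I]
    rw [Finset.sum_congr rfl (fun j _ => h1 j), ← Complex.re_sum, geom_sum_eq h2, h3]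
    simp

lemma frac_sum (k : ℕ) (hk : 1 ≤ k) (F : ℝ → ℝ) :
    ∑ m ∈ k.divisors, ∑ a ∈ cop m, F ((a : ℝ) / m) = ∑ j ∈ range k, F ((j : ℝ) / k) := by
  rw [Finset.sum_sigma']
  refine Finset.sum_nbij' (fun x => x.2 * (k / x.1))
    (fun j => (⟨k / Nat.gcd j k, j / Nat.gcd j k⟩ : Σ _ : ℕ, ℕ)) ?_ ?_ ?_ ?_ ?_
  · rintro ⟨m, a⟩ hx
    simp only [mem_sigma, Nat.mem_divisors, cop, mem_filter, mem_range] at hx ⊢
    obtain ⟨⟨⟨c, rfl⟩, h0⟩, ha, hc⟩ := hx
    have hm : 0 < m := by omega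
    have hc0 : 0 < c := Nat.pos_of_ne_zero (by rintro rfl; simp at h0)
    rw [Nat.mul_div_cancel_left _ hm]
    exact Nat.mul_lt_mul_of_pos_right ha hc0
  · intro j hj
    simp only [mem_sigma, Nat.mem_divisors, cop, mem_filter, mem_range] at hj ⊢
    have hg : 0 < Nat.gcd j k := Nat.gcd_pos_of_pos_right _ (by omega)
    refine ⟨⟨Nat.div_dvd_of_dvd (Nat.gcd_dvd_right j k), by omega⟩, ?_, ?_⟩
    · exact Nat.div_lt_div_of_lt_of_dvd (Nat.gcd_dvd_right j k) hj
    · exact Nat.coprime_div_gcd_div_gcd hg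
  · rintro ⟨m, a⟩ hx
    simp only [mem_sigma, Nat.mem_divisors, cop, mem_filter, mem_range] at hx
    obtain ⟨⟨⟨c, rfl⟩, h0⟩, ha, hc⟩ := hx
    have hm : 0 < m := by omega
    have hc0 : 0 < c := Nat.pos_of_ne_zero (by rintro rfl; simp at h0)
    have e1 : m * c / m = c := Nat.mul_div_cancel_left _ hm
    have e2 : Nat.gcd (a * c) (m * c) = c := by
      rw [Nat.gcd_mul_right, hc, one_mul]
    simp only [e1, e2]
    rw [Nat.mul_div_cancel _ hc0, Nat.mul_div_cancel _ hc0]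
  · intro j hj
    simp only [mem_range] at hj
    have hg : 0 < Nat.gcd j k := Nat.gcd_pos_of_pos_right _ (by omega)
    simp only []
    rw [Nat.div_div_self (Nat.gcd_dvd_right j k) (by omega)]
    exact Nat.div_mul_cancel (Nat.gcd_dvd_left j k)
  · rintro ⟨m, a⟩ hx
    simp only [mem_sigma, Nat.mem_divisors, cop, mem_filter, mem_range] at hx
    obtain ⟨⟨⟨c, rfl⟩, h0⟩, ha, hc⟩ := hx
    have hm : 0 < m := by omega
    have hc0 : 0 < c := Nat.pos_of_ne_zero (by rintro rfl; simp at h0)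
    have e1 : m * c / m = c := Nat.mul_div_cancel_left _ hm
    simp only [e1]
    congr 1
    push_cast
    have h1 : (m : ℝ) ≠ 0 := by positivity
    have h2 : (c : ℝ) ≠ 0 := by positivity
    field_simp

end ENEM

open ENEM in
/-- ENE -/
theorem t_ENE : S_ENE := by
  intro P W U k hW hk
  have hW0 : (0 : ℝ) < W := by exact_mod_cast hW
  have hk0 : (0 : ℝ) < k := by exact_mod_cast hk
  rw [frac_sum k hk (fun θ => en P W (k * U) θ)]
  unfold en
  rw [Finset.sum_comm, Finset.mul_sum]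
  refine Finset.sum_congr rfl fun p _ => ?_
  rw [Finset.sum_comm, Finset.mul_sum, Finset.sum_filter, Finset.sum_filter]
  refine Finset.sum_congr rfl fun q _ => ?_
  by_cases h : q ≡ p [MOD W]
  · rw [if_pos h, ← Finset.mul_sum]
    obtain ⟨d, hd⟩ := Nat.modEq_iff_dvd.1 h
    have hd' : (p : ℝ) - q = W * d := by exact_mod_cast hd
    have e1 : ((p : ℝ) - q) / W = d := by rw [hd']; field_simp
    have e2 : (q ≡ p [MOD W * k]) ↔ (k : ℤ) ∣ d := by
      rw [Nat.modEq_iff_dvd, hd]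
      push_cast
      exact mul_dvd_mul_iff_left (by exact_mod_cast (by omega : W ≠ 0))
    rw [Finset.sum_congr rfl (fun j _ => by rw [e1]), cos_sum k hk d]
    by_cases h2 : (k : ℤ) ∣ d
    · rw [if_pos h2, if_pos (e2.2 h2), mul_zero, mul_zero, Real.cos_zero, mul_one]
      have e3 : ((k * U : ℕ) : ℝ) - |(p : ℝ) - q| / W =
          k * ((U : ℝ) - |(p : ℝ) - q| / ((W * k : ℕ) : ℝ)) := by
        push_cast; field_simp
      rw [e3]
      have e4 : max 0 ((k : ℝ) * ((U : ℝ) - |(p : ℝ) - q| / ((W * k : ℕ) : ℝ))) =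
          k * max 0 ((U : ℝ) - |(p : ℝ) - q| / ((W * k : ℕ) : ℝ)) := by
        rw [mul_max_of_nonneg _ _ hk0.le, mul_zero]
      rw [e4]; ring
    · rw [if_neg h2, if_neg (fun h3 => h2 (e2.1 h3)), mul_zero]
  · rw [if_neg h, if_neg]
    intro h3
    exact h (h3.of_mul_right k)

end Pool.Agent.CDP
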