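import Pool.Agent.CDP.Stmts

set_option autoImplicit false

namespace Pool.Agent.CDP

open Finset
open Pool.Agent.Lib_helper83.EF (e)
open MUR (cop)

noncomputable section

namespace FINM

lemma ratio_eq {a b : ℕ} (ha : a ≠ 0) (hb : b ≠ 0) (h : a.primeFactors = b.primeFactors) :
    (a : ℝ) / a.totient = (b : ℝ) / b.totient := by
  have key : ∀ n : ℕ, n ≠ 0 → (n : ℝ) / n.totient =
      (∏ p ∈ n.primeFactors, (1 - (p : ℝ)⁻¹))⁻¹ := by
    intro n hn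
    have h3 := Nat.totient_eq_mul_prod_factors n
    have h4 : (n.totient : ℝ) = n * ∏ p ∈ n.primeFactors, (1 - (p : ℝ)⁻¹) := by
      have h5 : ((n.totient : ℚ) : ℝ) =
          ((n * ∏ p ∈ n.primeFactors, (1 - (p : ℚ)⁻¹) : ℚ) : ℝ) := congrArg _ h3
      push_cast at h5
      exact h5
    have hn' : (n : ℝ) ≠ 0 := by exact_mod_cast hn
    rw [h4, div_mul_eq_div_div, div_self hn', one_div]
  rw [key a ha, key b hb, h]

lemma root (N : ℕ) : ∃ s : ℕ, s ^ 200 ≤ N ∧ N < (s + 1) ^ 200 := by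
  have hex : ∃ m : ℕ, N < (m + 1) ^ 200 := by
    refine ⟨N, ?_⟩
    calc N < N + 1 := Nat.lt_succ_self N
      _ ≤ (N + 1) ^ 200 := Nat.le_self_pow (by norm_num) _
  classical
  refine ⟨Nat.find hex, ?_, Nat.find_spec hex⟩
  rcases Nat.eq_zero_or_pos (Nat.find hex) with h | h
  · rw [h]
    simp
  · have h1 := Nat.find_min hex (Nat.sub_lt h Nat.one_pos)
    rw [not_lt, Nat.sub_add_cancel h] at h1
    exact h1

lemma mem_PB {PP : Set ℕ} {B N p : ℕ} : p ∈ PB PP B N ↔ (B < p ∧ p ≤ N) ∧ p ∈ PP := by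
  classical
  simp only [PB, mem_filter, mem_Ioc]

lemma card_PB (PP : Set ℕ) (B N : ℕ) : (PB PP 0 N).card ≤ (PB PP B N).card + B := by
  have h : PB PP 0 N ⊆ PB PP B N ∪ Ioc 0 B := by
    intro p hp
    rw [mem_PB] at hp
    rw [mem_union, mem_PB, mem_Ioc]
    by_cases hpB : p ≤ B
    · exact Or.inr ⟨hp.1.1, hpB⟩
    · exact Or.inl ⟨⟨by omega, hp.1.2⟩, hp.2⟩
  calc (PB PP 0 N).card ≤ (PB PP B N ∪ Ioc 0 B).card := card_le_card h
    _ ≤ (PB PP B N).card + (Ioc 0 B).card := card_union_le _ _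
    _ = (PB PP B N).card + B := by rw [Nat.card_Ioc, Nat.sub_zero]

lemma W_pf {n M₀ w i : ℕ} (hn : 1 ≤ n) (hM : 1 ≤ M₀) (hnw : n ≤ w) (hMw : M₀ ≤ w) :
    (n * (M₀ * w.factorial ^ (i + 1)) ^ 3).primeFactors = w.factorial.primeFactors := by
  have hk : w.factorial ≠ 0 := Nat.factorial_ne_zero w
  have hkp : w.factorial ^ (i + 1) ≠ 0 := pow_ne_zero _ hk
  have hMk : M₀ * w.factorial ^ (i + 1) ≠ 0 := Nat.mul_ne_zero (by omega) hkp
  rw [Nat.primeFactors_mul (by omega) (pow_ne_zero _ hMk), Nat.primeFactors_pow _ (by norm_num),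
    Nat.primeFactors_mul (by omega) hkp, Nat.primeFactors_pow _ (by omega)]
  have hsub : ∀ a : ℕ, 1 ≤ a → a ≤ w → a.primeFactors ⊆ w.factorial.primeFactors := by
    intro a ha haw
    exact Nat.primeFactors_mono (Nat.dvd_factorial ha haw) hk
  have h1 := hsub n hn hnw
  have h2 := hsub M₀ hM hMw
  rw [Finset.union_eq_right.2 h2, Finset.union_eq_right.2 h1]

lemma exists_w {C η : ℝ} (hη : 0 < η) (a b : ℕ) :
    ∃ w : ℕ, a ≤ w ∧ b ≤ w ∧ 2 ≤ w ∧ C * (w : ℝ) ^ (-(1 / 10) : ℝ) ≤ η / 8 := by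
  have h1 : Filter.Tendsto (fun w : ℕ => C * (w : ℝ) ^ (-(1 / 10) : ℝ)) Filter.atTop
      (nhds (C * 0)) :=
    ((tendsto_rpow_neg_atTop (by norm_num : (0 : ℝ) < 1 / 10)).comp
      tendsto_natCast_atTop_atTop).const_mul C
  rw [mul_zero] at h1
  have h2 := h1.eventually (ge_mem_nhds (by positivity : (0 : ℝ) < η / 8))
  obtain ⟨w, hw⟩ := (h2.and ((Filter.eventually_ge_atTop a).and
    ((Filter.eventually_ge_atTop b).and (Filter.eventually_ge_atTop 2)))).exists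
  exact ⟨w, hw.2.1, hw.2.2.1, hw.2.2.2, hw.1⟩

lemma exists_s {C η c : ℝ} (hη : 0 < η) (hc : 0 < c) (K a b : ℕ) :
    ∃ s₀ : ℕ, ∀ s : ℕ, s₀ ≤ s → K ≤ s ^ 40 ∧ a ≤ s ∧ b ≤ s ∧ 16 ≤ s ∧
      2 * C * (s : ℝ) ^ (-(1 / 5) : ℝ) ≤ η / (8 * Real.log s) ∧
      400 * Real.log s ≤ c / 2 * (s : ℝ) ^ 100 := by
  have h1 : ∀ᶠ s : ℕ in Filter.atTop,
      2 * C * (s : ℝ) ^ (-(1 / 5) : ℝ) ≤ η / (8 * Real.log s) := by
    have h2 : Filter.Tendsto (fun x : ℝ => Real.log x / x ^ (1 / 5 : ℝ)) Filter.atTop (nhds 0) :=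
      (isLittleO_log_rpow_atTop (by norm_num : (0 : ℝ) < 1 / 5)).tendsto_div_nhds_zero
    have h3 : Filter.Tendsto (fun x : ℝ => 16 * |C| * (Real.log x / x ^ (1 / 5 : ℝ)))
        Filter.atTop (nhds 0) := by
      have := h2.const_mul (16 * |C|)
      rwa [mul_zero] at this
    have h4 := (h3.comp tendsto_natCast_atTop_atTop).eventually (ge_mem_nhds hη)
    filter_upwards [h4, Filter.eventually_ge_atTop 2] with s hs hs2
    have hs1 : (1 : ℝ) < s := by exact_mod_cast (by omega : 1 < s)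
    have hlog : 0 < Real.log s := Real.log_pos hs1
    have hpow : 0 < (s : ℝ) ^ (1 / 5 : ℝ) := Real.rpow_pos_of_pos (by linarith) _
    rw [Real.rpow_neg (by linarith), le_div_iff₀ (by positivity)]
    have h5 : 16 * |C| * (Real.log s / (s : ℝ) ^ (1 / 5 : ℝ)) ≤ η := hs
    calc 2 * C * ((s : ℝ) ^ (1 / 5 : ℝ))⁻¹ * (8 * Real.log s)
        = 16 * C * (Real.log s / (s : ℝ) ^ (1 / 5 : ℝ)) := by
          rw [div_eq_mul_inv]
          ring
      _ ≤ 16 * |C| * (Real.log s / (s : ℝ) ^ (1 / 5 : ℝ)) := by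
          apply mul_le_mul_of_nonneg_right _ (by positivity)
          linarith [le_abs_self C]
      _ ≤ η := h5
  obtain ⟨m, hm⟩ := exists_nat_gt (800 / c)
  obtain ⟨s₁, hs₁⟩ := Filter.eventually_atTop.1 h1
  refine ⟨max (max s₁ m) (max (max K a) (max b 16)), ?_⟩
  intro s hs
  have e1 : s₁ ≤ s := le_trans (le_trans (le_max_left _ _) (le_max_left _ _)) hs
  have e2 : m ≤ s := le_trans (le_trans (le_max_right _ _) (le_max_left _ _)) hs
  have e3 : K ≤ s :=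
    le_trans (le_trans (le_trans (le_max_left _ _) (le_max_left _ _)) (le_max_right _ _)) hs
  have e4 : a ≤ s :=
    le_trans (le_trans (le_trans (le_max_right _ _) (le_max_left _ _)) (le_max_right _ _)) hs
  have e5 : b ≤ s :=
    le_trans (le_trans (le_trans (le_max_left _ _) (le_max_right _ _)) (le_max_right _ _)) hs
  have e6 : 16 ≤ s :=
    le_trans (le_trans (le_trans (le_max_right _ _) (le_max_right _ _)) (le_max_right _ _)) hs
  refine ⟨e3.trans (Nat.le_self_pow (by norm_num) s), e4, e5, e6, hs₁ s e1, ?_⟩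
  have hs1 : (1 : ℝ) ≤ s := by exact_mod_cast (by omega : 1 ≤ s)
  have h5 : Real.log s ≤ s := (Real.log_le_sub_one_of_pos (by linarith)).trans (by linarith)
  have h6 : 800 / c ≤ s := hm.le.trans (by exact_mod_cast e2)
  rw [div_le_iff₀ hc] at h6
  have h7 : (s : ℝ) ^ 2 ≤ (s : ℝ) ^ 100 := pow_le_pow_right₀ hs1 (by norm_num)
  nlinarith

lemma scale {PP : Set ℕ} {c C : ℝ} (hc : 0 < c)
    (hN : ∀ N₀ : ℕ, ∃ N : ℕ, N₀ ≤ N ∧ c * ((N : ℝ) / Real.log N) ≤ ((PB PP 0 N).card : ℝ))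
    (K a b : ℕ) : ∃ s N τ Y : ℕ, (a ≤ s ∧ b ≤ s ∧ 16 ≤ s) ∧
      2 * C * (s : ℝ) ^ (-(1 / 5) : ℝ) ≤ c / 1600 / (8 * Real.log s) ∧
      s ^ 20 ≤ τ ∧ 0 < τ ∧ 16 * s ^ 4 ≤ τ ^ 3 ∧ (s * s) ^ 2 ≤ τ ^ 3 ∧ K * τ ^ 3 ≤ Y ∧ s < Y ∧
      c / 1600 * (((N : ℝ) + 1) / Real.log s) ≤ ((PB PP Y N).card : ℝ) := by
  have hη : 0 < c / 1600 := by positivity
  obtain ⟨s₀, hs₀⟩ := exists_s (C := C) hη hc K a b
  obtain ⟨N, hN1, hN2⟩ := hN ((s₀ + 1) ^ 200)
  obtain ⟨s, hs1, hs2⟩ := root N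
  have hss : s₀ ≤ s := by
    rcases le_or_gt s₀ s with h | h
    · exact h
    · exact absurd (hs2.trans_le ((Nat.pow_le_pow_left (Nat.succ_le_succ h.le) 200).trans hN1))
        (lt_irrefl _)
  obtain ⟨hXs, hws, hN₀s, h16, hCs, hlogs⟩ := hs₀ s hss
  have hs1' : 1 < s := lt_of_lt_of_le (by norm_num) h16
  have hs0 : 0 < s := lt_trans Nat.one_pos hs1'
  have hs1R : (1 : ℝ) < s := by exact_mod_cast hs1'
  have hlog : 0 < Real.log s := Real.log_pos hs1R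
  have hN0 : 0 < N := lt_of_lt_of_le (pow_pos (Nat.succ_pos _) _) hN1
  have hNR : (0 : ℝ) < N := Nat.cast_pos.2 hN0
  have hs200 : (s : ℝ) ^ 200 ≤ N := by
    have := (Nat.cast_le (α := ℝ)).2 hs1
    rwa [Nat.cast_pow] at this
  have hN400 : N < s ^ 400 := by
    have h2 : s + 1 ≤ s ^ 2 := by
      rw [pow_two]
      exact (Nat.add_le_mul hs1' hs1').trans' (Nat.add_le_add_left hs1'.le s)
    calc N < (s + 1) ^ 200 := hs2
      _ ≤ (s ^ 2) ^ 200 := Nat.pow_le_pow_left h2 _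
      _ = s ^ (2 * 200) := (pow_mul s 2 200).symm
      _ = s ^ 400 := by norm_num
  have hlogN : Real.log N ≤ 400 * Real.log s := by
    have h1 : (N : ℝ) ≤ (s : ℝ) ^ 400 := by
      have := (Nat.cast_le (α := ℝ)).2 hN400.le
      rwa [Nat.cast_pow] at this
    calc Real.log N ≤ Real.log ((s : ℝ) ^ 400) := Real.log_le_log hNR h1
      _ = 400 * Real.log s := by rw [Real.log_pow]; norm_num
  have hN1' : 1 < N := lt_of_lt_of_le (Nat.one_lt_pow (by norm_num) hs1') hs1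
  have hlogN0 : 0 < Real.log N := Real.log_pos (Nat.one_lt_cast.2 hN1')
  refine ⟨s, N, s ^ 20, s ^ 100, ⟨hws, hN₀s, h16⟩, hCs, le_rfl, pow_pos hs0 _, ?_, ?_, ?_, ?_, ?_⟩
  · calc 16 * s ^ 4 ≤ s * s ^ 4 := Nat.mul_le_mul_right _ h16
      _ = s ^ (1 + 4) := by rw [pow_add, pow_one]
      _ ≤ s ^ (20 * 3) := Nat.pow_le_pow_right hs0 (by norm_num)
      _ = (s ^ 20) ^ 3 := pow_mul s 20 3
  · calc (s * s) ^ 2 = (s ^ 2) ^ 2 := by rw [pow_two s]
      _ = s ^ (2 * 2) := (pow_mul s 2 2).symm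
      _ ≤ s ^ (20 * 3) := Nat.pow_le_pow_right hs0 (by norm_num)
      _ = (s ^ 20) ^ 3 := pow_mul s 20 3
  · calc K * (s ^ 20) ^ 3 ≤ s ^ 40 * (s ^ 20) ^ 3 := Nat.mul_le_mul_right _ hXs
      _ = s ^ (40 + 20 * 3) := by rw [← pow_mul, ← pow_add]
  · calc s = s ^ 1 := (pow_one s).symm
      _ < s ^ 100 := Nat.pow_lt_pow_right hs1' (by norm_num)
  · have h1 : ((PB PP 0 N).card : ℝ) ≤ ((PB PP (s ^ 100) N).card : ℝ) + (s : ℝ) ^ 100 := by
      have := (Nat.cast_le (α := ℝ)).2 (card_PB PP (s ^ 100) N)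
      rwa [Nat.cast_add, Nat.cast_pow] at this
    have h2 : (s : ℝ) ^ 100 ≤ c / 2 * ((N : ℝ) / Real.log N) := by
      rw [mul_div_assoc', le_div_iff₀ hlogN0]
      calc (s : ℝ) ^ 100 * Real.log N ≤ (s : ℝ) ^ 100 * (c / 2 * (s : ℝ) ^ 100) :=
            mul_le_mul_of_nonneg_left (hlogN.trans hlogs) (pow_nonneg (by linarith) _)
        _ = c / 2 * ((s : ℝ) ^ 100 * (s : ℝ) ^ 100) := by rw [mul_left_comm]
        _ = c / 2 * (s : ℝ) ^ 200 := by rw [← pow_add]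
        _ ≤ c / 2 * N := mul_le_mul_of_nonneg_left hs200 (by positivity)
    have h3 : c / 1600 * (((N : ℝ) + 1) / Real.log s) ≤ c / 2 * ((N : ℝ) / Real.log N) := by
      rw [mul_div_assoc', mul_div_assoc', div_le_div_iff₀ hlog hlogN0]
      have h4 : (1 : ℝ) ≤ N := Nat.one_le_cast.2 hN0
      calc c / 1600 * ((N : ℝ) + 1) * Real.log N ≤
            c / 1600 * ((N : ℝ) + N) * (400 * Real.log s) := by
            apply mul_le_mul _ hlogN hlogN0.le (mul_nonneg hη.le (add_nonneg hNR.le hNR.le))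
            exact mul_le_mul_of_nonneg_left (add_le_add le_rfl h4) hη.le
        _ = c / 2 * N * Real.log s := by ring
    have h5 := hN2
    linarith

end FINM

open FINM in
theorem t_FIN : M_FIN := by
  intro hLOW hBRT hPIG hFIX hONE PP c hPP hc hN n M₀ hn hM N₀
  obtain ⟨CB, hCB, hBRT⟩ := hBRT
  obtain ⟨C, hC, hONE⟩ := hONE
  have hη : 0 < c / 1600 := by positivity
  obtain ⟨w, hnw, hMw, hw2, hCw⟩ := exists_w (C := C) hη n M₀
  set k : ℕ := w.factorial with hk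
  have hk0 : 0 < k := Nat.factorial_pos w
  set ρ : ℝ := (k : ℝ) / k.totient with hρ
  have hφk : 0 < (k.totient : ℝ) := by exact_mod_cast Nat.totient_pos.2 hk0
  have hkR : 0 < (k : ℝ) := by exact_mod_cast hk0
  have hρ0 : 0 < ρ := by positivity
  set W : ℕ → ℕ := fun i => n * (M₀ * k ^ (i + 1)) ^ 3 with hWdef
  have hW0 : ∀ i, 0 < W i := fun i => Nat.mul_pos hn (pow_pos (Nat.mul_pos hM (pow_pos hk0 _)) _)
  have hWpf : ∀ i, (W i).primeFactors = k.primeFactors := fun i => W_pf hn hM hnw hMw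
  have hWρ : ∀ i, (W i : ℝ) / (W i).totient = ρ := fun i =>
    ratio_eq (hW0 i).ne' hk0.ne' (hWpf i)
  have hWw : ∀ i, ∀ l ∈ (W i).primeFactors, l ≤ w := by
    intro i l hl
    rw [hWpf i] at hl
    exact (Nat.prime_of_mem_primeFactors hl).dvd_factorial.1 (Nat.dvd_of_mem_primeFactors hl)
  have hWs : ∀ i, W (i + 1) = W i * k ^ 3 := by
    intro i
    simp only [hWdef]
    ring
  obtain ⟨I, hI⟩ := pow_unbounded_of_one_lt (CB * ρ / (c / 1600)) (by norm_num : (1 : ℝ) < 9 / 8)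
  set X₀ : ℕ := n * (M₀ * k ^ (I + 1)) ^ 3 with hX₀
  obtain ⟨s, N, τ, Y, ⟨hws, hN₀s, h16⟩, hCs, h20, hτ0, h4, h22, hXY, hsY, hcard⟩ :=
    scale (C := C) hc hN X₀ w N₀
  have hs1' : 1 < s := lt_of_lt_of_le (by norm_num) h16
  have hs2 : 2 ≤ s := hs1'
  have hw1 : 1 ≤ w := le_trans (by norm_num) hw2
  have hs1R : (1 : ℝ) < s := by exact_mod_cast hs1'
  have hlog : 0 < Real.log s := Real.log_pos hs1R
  have hNR : (0 : ℝ) ≤ N := Nat.cast_nonneg N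
  have hN1R : (0 : ℝ) < (N : ℝ) + 1 := by linarith
  set η : ℝ := c / 1600 with hηdef
  set P : Finset ℕ := PB PP Y N with hPdef
  have hP : ∀ p ∈ P, p.Prime ∧ Y < p ∧ p ≤ N ∧ p ∈ PP := by
    intro p hp
    rw [hPdef, mem_PB] at hp
    exact ⟨hPP p hp.2, hp.1.1, hp.1.2, hp.2⟩
  have hPpos : 0 < (P.card : ℝ) := lt_of_lt_of_le (by positivity) hcard
  have hPne : P.Nonempty := by
    rw [← Finset.card_pos]
    exact_mod_cast hPpos
  -- the scales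
  set T : ℕ → ℕ := fun i => k ^ (I - i) * τ with hTdef
  set U : ℕ → ℕ := fun i => T i ^ 3 with hUdef
  have hT1 : ∀ i, τ ≤ T i := fun i => Nat.le_mul_of_pos_left _ (pow_pos hk0 _)
  have hTs : ∀ i < I, T i = k * T (i + 1) := by
    intro i hi
    simp only [hTdef]
    have h1 : I - i = (I - (i + 1)) + 1 := by
      rw [Nat.sub_add_eq, Nat.sub_add_cancel (Nat.sub_pos_of_lt hi)]
    rw [h1, pow_succ]
    ring
  have hUs : ∀ i < I, U i = k ^ 3 * U (i + 1) := by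
    intro i hi
    simp only [hUdef]
    rw [hTs i hi, mul_pow]
  have hWU : ∀ i ≤ I, W i * U i = X₀ * τ ^ 3 := by
    intro i hi
    simp only [hWdef, hUdef, hTdef, hX₀]
    have h1 : k ^ (i + 1) * k ^ (I - i) = k ^ (I + 1) := by
      rw [← pow_add]
      congr 1
      rw [add_right_comm, Nat.add_sub_cancel' hi]
    calc n * (M₀ * k ^ (i + 1)) ^ 3 * (k ^ (I - i) * τ) ^ 3
        = n * (M₀ * (k ^ (i + 1) * k ^ (I - i))) ^ 3 * τ ^ 3 := by ring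
      _ = n * (M₀ * k ^ (I + 1)) ^ 3 * τ ^ 3 := by rw [h1]
  have hPX : ∀ i ≤ I, ∀ p ∈ P, p.Prime ∧ s < p ∧ W i * U i ≤ p ∧ p ≤ N := by
    intro i hi p hp
    obtain ⟨h1, h2, h3, -⟩ := hP p hp
    refine ⟨h1, hsY.trans h2, ?_, h3⟩
    rw [hWU i hi]
    exact hXY.trans h2.le
  set f : ℕ → ℝ := fun i => (W i : ℝ) ^ 2 * en P (W i) (U i) 0 with hf
  set X : ℝ := ((X₀ * τ ^ 3 : ℕ) : ℝ) with hXdef
  have hWUR : ∀ i ≤ I, (W i : ℝ) * U i = X := by
    intro i hi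
    rw [hXdef, ← hWU i hi]
    exact (Nat.cast_mul _ _).symm
  have hX0 : 0 < X := by
    rw [hXdef, ← hWU 0 (Nat.zero_le I)]
    exact Nat.cast_pos.2 (Nat.mul_pos (hW0 0) (pow_pos (lt_of_lt_of_le hτ0 (hT1 0)) _))
  have hf0 : η * (X ^ 2 * P.card / Real.log s) ≤ f 0 := by
    have h1 := hLOW P (W 0) (U 0) N (hW0 0) (fun p hp =>
      ⟨(hPX 0 (Nat.zero_le I) p hp).2.2.1, (hPX 0 (Nat.zero_le I) p hp).2.2.2⟩)
    have h2 : X ^ 2 * (P.card : ℝ) ^ 2 ≤ ((N : ℝ) + 1) * f 0 := by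
      calc X ^ 2 * (P.card : ℝ) ^ 2 = (W 0 : ℝ) ^ 2 * ((U 0 : ℝ) * P.card) ^ 2 := by
            rw [← hWUR 0 (Nat.zero_le I)]
            ring
        _ ≤ (W 0 : ℝ) ^ 2 * (((N : ℝ) + 1) * en P (W 0) (U 0) 0) :=
            mul_le_mul_of_nonneg_left h1 (by positivity)
        _ = ((N : ℝ) + 1) * f 0 := by
            rw [hf]
            ring
    have h3 : η * (X ^ 2 * P.card / Real.log s) * ((N : ℝ) + 1) ≤ X ^ 2 * (P.card : ℝ) ^ 2 := by
      calc η * (X ^ 2 * P.card / Real.log s) * ((N : ℝ) + 1)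
          = X ^ 2 * P.card * (η * (((N : ℝ) + 1) / Real.log s)) := by ring
        _ ≤ X ^ 2 * P.card * (P.card : ℝ) := mul_le_mul_of_nonneg_left hcard (by positivity)
        _ = X ^ 2 * (P.card : ℝ) ^ 2 := by ring
    have h5 : η * (X ^ 2 * P.card / Real.log s) * ((N : ℝ) + 1) ≤ f 0 * ((N : ℝ) + 1) := by
      linarith
    exact le_of_mul_le_mul_right h5 hN1R
  have hf0pos : 0 < f 0 := lt_of_lt_of_le (by positivity) hf0
  have hfI : f I ≤ CB * ρ / η * f 0 := by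
    have h0 : 16 * s ^ 4 ≤ U I := h4.trans (Nat.pow_le_pow_left (hT1 I) 3)
    have h1 := hBRT P (W I) (U I) s N (hW0 I) hs2 h0 (hPX I le_rfl)
    rw [hWρ I] at h1
    have h2 : f I ≤ CB * ρ * (X ^ 2 * P.card / Real.log s) := by
      calc f I = (W I : ℝ) ^ 2 * en P (W I) (U I) 0 := rfl
        _ ≤ (W I : ℝ) ^ 2 * (CB * ρ * ((U I : ℝ) ^ 2 / Real.log s) * P.card) :=
            mul_le_mul_of_nonneg_left h1 (by positivity)
        _ = CB * ρ * (((W I : ℝ) * U I) ^ 2 * P.card / Real.log s) := by ring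
        _ = CB * ρ * (X ^ 2 * P.card / Real.log s) := by rw [hWUR I le_rfl]
    calc f I ≤ CB * ρ * (X ^ 2 * P.card / Real.log s) := h2
      _ = CB * ρ / η * (η * (X ^ 2 * P.card / Real.log s)) := by
          field_simp
      _ ≤ CB * ρ / η * f 0 := mul_le_mul_of_nonneg_left hf0 (by positivity)
  obtain ⟨i, hi, hfi⟩ := hPIG f I (CB * ρ / η) hf0pos hfI hI
  -- the good scale
  have hstep : (k : ℝ) ^ 6 * en P (W i * k ^ 3) (U (i + 1)) 0 ≤
      9 / 8 * en P (W i) (k ^ 3 * U (i + 1)) 0 := by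
    have h1 : f (i + 1) = (W i : ℝ) ^ 2 * ((k : ℝ) ^ 6 * en P (W i * k ^ 3) (U (i + 1)) 0) := by
      simp only [hf]
      rw [hWs i, Nat.cast_mul, Nat.cast_pow]
      ring
    have h2 : f i = (W i : ℝ) ^ 2 * en P (W i) (k ^ 3 * U (i + 1)) 0 := by
      simp only [hf]
      rw [hUs i hi]
    rw [h1, h2] at hfi
    have h3 : (0 : ℝ) < (W i : ℝ) ^ 2 := pow_pos (Nat.cast_pos.2 (hW0 i)) 2
    have h5 : (W i : ℝ) ^ 2 * ((k : ℝ) ^ 6 * en P (W i * k ^ 3) (U (i + 1)) 0) ≤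
        (W i : ℝ) ^ 2 * (9 / 8 * en P (W i) (k ^ 3 * U (i + 1)) 0) := by
      linarith
    exact le_of_mul_le_mul_left h5 h3
  have hfix := hFIX P (W i) (U (i + 1)) w k N (hW0 i) hw1 hk0
    (fun m hm => Nat.dvd_factorial (mem_Icc.1 hm).1 (mem_Icc.1 hm).2)
    (fun p hp => by
      rw [← hUs i hi]
      exact ⟨(hPX i hi.le p hp).2.2.1, (hPX i hi.le p hp).2.2.2⟩) hstep
  rw [← hUs i hi] at hfix
  have h1 : τ ≤ T i := hT1 i
  obtain ⟨p, hp, q, hq, t, ht, hpq⟩ := hONE P (W i) (T i) w s s N η (hW0 i)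
    (hτ0.trans_le h1) hw1 hws hs2 hη hPne (hWw i) (h20.trans h1)
    (h22.trans (Nat.pow_le_pow_left h1 3))
    (hPX i hi.le) hcard hCw hCs hfix
  obtain ⟨hp1, hp2, hp3, hp4⟩ := hP p hp
  obtain ⟨hq1, hq2, hq3, hq4⟩ := hP q hq
  refine ⟨p, hp4, q, hq4, M₀ * k ^ (i + 1) * t, ?_, ?_, ?_, ?_⟩
  · exact lt_of_le_of_lt (hN₀s.trans hsY.le) hp2
  · exact Nat.mul_pos (Nat.mul_pos hM (pow_pos hk0 _)) (mem_Icc.1 ht).1
  · exact ⟨k ^ (i + 1) * t, by ring⟩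
  · rw [hpq]
    simp only [hWdef]
    ring

end

end Pool.Agent.CDP
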