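import Pool.Agent.CDP.FINCS

set_option autoImplicit false

namespace Pool.Agent.CDP

open Finset
open Pool.Agent.Lib_helper83.EF (e)
open MUR (cop)

noncomputable section

namespace FINCM

lemma ratio_eq {a b : ℕ} (ha : a ≠ 0) (hb : b ≠ 0) (h : a.primeFactors = b.primeFactors) :
    (a : ℝ) / a.totient = (b : ℝ) / b.totient := by
  have key : ∀ n : ℕ, n ≠ 0 → (n : ℝ) / n.totient =
      (∏ p ∈ n.primeFactors, (1 - (p : ℝ)⁻¹))⁻¹ := by
    intro n hn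
    have h3 := Nat.totient_eq_mul_prod_factors n
    have h4 : (n.totient : ℝ) = n * ∏ p ∈ n.primeFactors, (1 - (p : ℝ)⁻¹) := by
      have h5 : ((n.totient : ℚ) : ℝ) =
          ((n * ∏ p ∈ n.primeFactors, (1 - (p : ℚ)⁻¹) : ℚ) : ℝ) := congrArg _ h3
      push_cast at h5
      exact h5
    have hn' : (n : ℝ) ≠ 0 := by exact_mod_cast hn
    rw [h4, div_mul_eq_div_div, div_self hn', one_div]
  rw [key a ha, key b hb, h]

lemma W_pf {n M₀ w i : ℕ} (hn : 1 ≤ n) (hM : 1 ≤ M₀) (hnw : n ≤ w) (hMw : M₀ ≤ w) :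
    (n * (M₀ * w.factorial ^ (i + 1)) ^ 3).primeFactors = w.factorial.primeFactors := by
  have hk : w.factorial ≠ 0 := Nat.factorial_ne_zero w
  have hkp : w.factorial ^ (i + 1) ≠ 0 := pow_ne_zero _ hk
  have hMk : M₀ * w.factorial ^ (i + 1) ≠ 0 := Nat.mul_ne_zero (by omega) hkp
  rw [Nat.primeFactors_mul (by omega) (pow_ne_zero _ hMk), Nat.primeFactors_pow _ (by norm_num),
    Nat.primeFactors_mul (by omega) hkp, Nat.primeFactors_pow _ (by omega)]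
  have hsub : ∀ a : ℕ, 1 ≤ a → a ≤ w → a.primeFactors ⊆ w.factorial.primeFactors := by
    intro a ha haw
    exact Nat.primeFactors_mono (Nat.dvd_factorial ha haw) hk
  have h1 := hsub n hn hnw
  have h2 := hsub M₀ hM hMw
  rw [Finset.union_eq_right.2 h2, Finset.union_eq_right.2 h1]

lemma exists_w {C η : ℝ} (hη : 0 < η) (a b : ℕ) :
    ∃ w : ℕ, a ≤ w ∧ b ≤ w ∧ 2 ≤ w ∧ C * (w : ℝ) ^ (-(1 / 10) : ℝ) ≤ η / 8 := by
  have h1 : Filter.Tendsto (fun w : ℕ => C * (w : ℝ) ^ (-(1 / 10) : ℝ)) Filter.atTop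
      (nhds (C * 0)) :=
    ((tendsto_rpow_neg_atTop (by norm_num : (0 : ℝ) < 1 / 10)).comp
      tendsto_natCast_atTop_atTop).const_mul C
  rw [mul_zero] at h1
  have h2 := h1.eventually (ge_mem_nhds (by positivity : (0 : ℝ) < η / 8))
  obtain ⟨w, hw⟩ := (h2.and ((Filter.eventually_ge_atTop a).and
    ((Filter.eventually_ge_atTop b).and (Filter.eventually_ge_atTop 2)))).exists
  exact ⟨w, hw.2.1, hw.2.2.1, hw.2.2.2, hw.1⟩

lemma count_real {c c₂ T P N S L : ℝ} (hc : 0 < c) (hc₂ : 0 < c₂) (hN : 1 ≤ N) (hL : 0 < L)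
    (h1 : c₂ * N ^ (1 / 3 : ℝ) ≤ T) (h2 : c / 2 * (N / L) ≤ P)
    (h3 : T * P ^ 2 ≤ 10 * (N + 1) * S) (hS : 0 ≤ S) :
    c₂ * c ^ 2 / 80 * (N ^ (4 / 3 : ℝ) / L ^ 2) ≤ S := by
  have hN0 : 0 < N := by linarith
  have h4 : N ^ (4 / 3 : ℝ) = N ^ (1 / 3 : ℝ) * N := by
    rw [← Real.rpow_add_one hN0.ne']
    norm_num
  have hr : 0 < N ^ (1 / 3 : ℝ) := Real.rpow_pos_of_pos hN0 _
  have h5 : c₂ * N ^ (1 / 3 : ℝ) * (c / 2 * (N / L)) ^ 2 ≤ T * P ^ 2 := by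
    apply mul_le_mul h1 _ (by positivity) (le_trans (by positivity) h1)
    exact pow_le_pow_left₀ (by positivity) h2 2
  have h6 : 10 * (N + 1) * S ≤ 20 * N * S := by
    apply mul_le_mul_of_nonneg_right _ hS
    linarith
  have h7 : 20 * N * (c₂ * c ^ 2 / 80 * (N ^ (4 / 3 : ℝ) / L ^ 2)) ≤ 20 * N * S := by
    calc 20 * N * (c₂ * c ^ 2 / 80 * (N ^ (4 / 3 : ℝ) / L ^ 2))
        = c₂ * N ^ (1 / 3 : ℝ) * (c / 2 * (N / L)) ^ 2 := by
          rw [h4]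
          field_simp
          ring
      _ ≤ 20 * N * S := h5.trans (h3.trans h6)
  exact le_of_mul_le_mul_left h7 (by linarith)

lemma sols_inj {P : Finset ℕ} {W T : ℕ} (hW : 0 < W) :
    Set.InjOn (fun x : (ℕ × ℕ) × ℕ => x.1) (sols P W T : Set ((ℕ × ℕ) × ℕ)) := by
  intro x hx y hy hxy
  simp only [sols, coe_filter, Set.mem_ofPred_eq] at hx hy
  have h1 : x.1 = y.1 := hxy
  have h2 : x.1.1 + W * x.2 ^ 3 = x.1.1 + W * y.2 ^ 3 := by
    calc x.1.1 + W * x.2 ^ 3 = x.1.2 := hx.2.symm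
      _ = y.1.2 := by rw [h1]
      _ = y.1.1 + W * y.2 ^ 3 := hy.2
      _ = x.1.1 + W * y.2 ^ 3 := by rw [h1]
  have h3 : x.2 ^ 3 = y.2 ^ 3 := Nat.eq_of_mul_eq_mul_left hW (Nat.add_left_cancel h2)
  exact Prod.ext h1 (Nat.pow_left_injective (by norm_num : (3 : ℕ) ≠ 0) h3)

end FINCM

open FINCM in
theorem t_FINC : M_FINC := by
  intro hLOW hBRT hPIG hFIX hCHE hONE PP c hPP hc hN n M₀ hn hM
  obtain ⟨CB, hCB, hBRT⟩ := hBRT
  obtain ⟨C, hC, hONE⟩ := hONE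
  have hη : 0 < c / 1600 := by positivity
  obtain ⟨w, hnw, hMw, hw2, hCw⟩ := exists_w (C := C) hη n M₀
  set k : ℕ := w.factorial with hk
  have hk0 : 0 < k := Nat.factorial_pos w
  set ρ : ℝ := (k : ℝ) / k.totient with hρ
  have hφk : 0 < (k.totient : ℝ) := by exact_mod_cast Nat.totient_pos.2 hk0
  have hkR : 0 < (k : ℝ) := by exact_mod_cast hk0
  have hρ0 : 0 < ρ := by positivity
  set W : ℕ → ℕ := fun i => n * (M₀ * k ^ (i + 1)) ^ 3 with hWdef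
  have hW0 : ∀ i, 0 < W i := fun i => Nat.mul_pos hn (pow_pos (Nat.mul_pos hM (pow_pos hk0 _)) _)
  have hWpf : ∀ i, (W i).primeFactors = k.primeFactors := fun i => W_pf hn hM hnw hMw
  have hWρ : ∀ i, (W i : ℝ) / (W i).totient = ρ := fun i =>
    ratio_eq (hW0 i).ne' hk0.ne' (hWpf i)
  have hWw : ∀ i, ∀ l ∈ (W i).primeFactors, l ≤ w := by
    intro i l hl
    rw [hWpf i] at hl
    exact (Nat.prime_of_mem_primeFactors hl).dvd_factorial.1 (Nat.dvd_of_mem_primeFactors hl)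
  have hWs : ∀ i, W (i + 1) = W i * k ^ 3 := by
    intro i
    simp only [hWdef]
    ring
  obtain ⟨I, hI⟩ := pow_unbounded_of_one_lt (CB * ρ / (c / 1600)) (by norm_num : (1 : ℝ) < 9 / 8)
  set X₀ : ℕ := n * (M₀ * k ^ (I + 1)) ^ 3 with hX₀
  have hX₀0 : 0 < X₀ := hW0 I
  obtain ⟨c₂, hc₂, hscale⟩ := scale (C := C) hPP hc hCHE hN X₀ w hX₀0
  refine ⟨c₂ * c ^ 2 / 80, by positivity, ?_⟩
  intro N₀
  obtain ⟨s, N, τ, Y, hws, h16, hN₀N, hN₀Y, hN1, hCs, h20, hτ0, h4, h22, hXY, hsY, hcard, hcard2,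
    hτ⟩ := hscale N₀
  have hs1' : 1 < s := lt_of_lt_of_le (by norm_num) h16
  have hs2 : 2 ≤ s := hs1'
  have hw1 : 1 ≤ w := le_trans (by norm_num) hw2
  have hs1R : (1 : ℝ) < s := by exact_mod_cast hs1'
  have hlog : 0 < Real.log s := Real.log_pos hs1R
  have hNR : (0 : ℝ) ≤ N := Nat.cast_nonneg N
  have hN1R : (0 : ℝ) < (N : ℝ) + 1 := by linarith
  set η : ℝ := c / 1600 with hηdef
  set P : Finset ℕ := PB PP Y N with hPdef
  have hP : ∀ p ∈ P, p.Prime ∧ Y < p ∧ p ≤ N ∧ p ∈ PP := by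
    intro p hp
    rw [hPdef, mem_PB] at hp
    exact ⟨hPP p hp.2, hp.1.1, hp.1.2, hp.2⟩
  have hPpos : 0 < (P.card : ℝ) := lt_of_lt_of_le (by positivity) hcard
  have hPne : P.Nonempty := by
    rw [← Finset.card_pos]
    exact_mod_cast hPpos
  -- the scales
  set T : ℕ → ℕ := fun i => k ^ (I - i) * τ with hTdef
  set U : ℕ → ℕ := fun i => T i ^ 3 with hUdef
  have hT1 : ∀ i, τ ≤ T i := fun i => Nat.le_mul_of_pos_left _ (pow_pos hk0 _)
  have hTs : ∀ i < I, T i = k * T (i + 1) := by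
    intro i hi
    simp only [hTdef]
    have h1 : I - i = (I - (i + 1)) + 1 := by
      rw [Nat.sub_add_eq, Nat.sub_add_cancel (Nat.sub_pos_of_lt hi)]
    rw [h1, pow_succ]
    ring
  have hUs : ∀ i < I, U i = k ^ 3 * U (i + 1) := by
    intro i hi
    simp only [hUdef]
    rw [hTs i hi, mul_pow]
  have hWU : ∀ i ≤ I, W i * U i = X₀ * τ ^ 3 := by
    intro i hi
    simp only [hWdef, hUdef, hTdef, hX₀]
    have h1 : k ^ (i + 1) * k ^ (I - i) = k ^ (I + 1) := by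
      rw [← pow_add]
      congr 1
      rw [add_right_comm, Nat.add_sub_cancel' hi]
    calc n * (M₀ * k ^ (i + 1)) ^ 3 * (k ^ (I - i) * τ) ^ 3
        = n * (M₀ * (k ^ (i + 1) * k ^ (I - i))) ^ 3 * τ ^ 3 := by ring
      _ = n * (M₀ * k ^ (I + 1)) ^ 3 * τ ^ 3 := by rw [h1]
  have hPX : ∀ i ≤ I, ∀ p ∈ P, p.Prime ∧ s < p ∧ W i * U i ≤ p ∧ p ≤ N := by
    intro i hi p hp
    obtain ⟨h1, h2, h3, -⟩ := hP p hp
    refine ⟨h1, hsY.trans h2, ?_, h3⟩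
    rw [hWU i hi]
    exact hXY.trans h2.le
  set f : ℕ → ℝ := fun i => (W i : ℝ) ^ 2 * en P (W i) (U i) 0 with hf
  set X : ℝ := ((X₀ * τ ^ 3 : ℕ) : ℝ) with hXdef
  have hWUR : ∀ i ≤ I, (W i : ℝ) * U i = X := by
    intro i hi
    rw [hXdef, ← hWU i hi]
    exact (Nat.cast_mul _ _).symm
  have hX0 : 0 < X := by
    rw [hXdef, ← hWU 0 (Nat.zero_le I)]
    exact Nat.cast_pos.2 (Nat.mul_pos (hW0 0) (pow_pos (lt_of_lt_of_le hτ0 (hT1 0)) _))
  have hf0 : η * (X ^ 2 * P.card / Real.log s) ≤ f 0 := by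
    have h1 := hLOW P (W 0) (U 0) N (hW0 0) (fun p hp =>
      ⟨(hPX 0 (Nat.zero_le I) p hp).2.2.1, (hPX 0 (Nat.zero_le I) p hp).2.2.2⟩)
    have h2 : X ^ 2 * (P.card : ℝ) ^ 2 ≤ ((N : ℝ) + 1) * f 0 := by
      calc X ^ 2 * (P.card : ℝ) ^ 2 = (W 0 : ℝ) ^ 2 * ((U 0 : ℝ) * P.card) ^ 2 := by
            rw [← hWUR 0 (Nat.zero_le I)]
            ring
        _ ≤ (W 0 : ℝ) ^ 2 * (((N : ℝ) + 1) * en P (W 0) (U 0) 0) :=
            mul_le_mul_of_nonneg_left h1 (by positivity)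
        _ = ((N : ℝ) + 1) * f 0 := by
            rw [hf]
            ring
    have h3 : η * (X ^ 2 * P.card / Real.log s) * ((N : ℝ) + 1) ≤ X ^ 2 * (P.card : ℝ) ^ 2 := by
      calc η * (X ^ 2 * P.card / Real.log s) * ((N : ℝ) + 1)
          = X ^ 2 * P.card * (η * (((N : ℝ) + 1) / Real.log s)) := by ring
        _ ≤ X ^ 2 * P.card * (P.card : ℝ) := mul_le_mul_of_nonneg_left hcard (by positivity)
        _ = X ^ 2 * (P.card : ℝ) ^ 2 := by ring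
    have h5 : η * (X ^ 2 * P.card / Real.log s) * ((N : ℝ) + 1) ≤ f 0 * ((N : ℝ) + 1) := by
      linarith
    exact le_of_mul_le_mul_right h5 hN1R
  have hf0pos : 0 < f 0 := lt_of_lt_of_le (by positivity) hf0
  have hfI : f I ≤ CB * ρ / η * f 0 := by
    have h0 : 16 * s ^ 4 ≤ U I := h4.trans (Nat.pow_le_pow_left (hT1 I) 3)
    have h1 := hBRT P (W I) (U I) s N (hW0 I) hs2 h0 (hPX I le_rfl)
    rw [hWρ I] at h1
    have h2 : f I ≤ CB * ρ * (X ^ 2 * P.card / Real.log s) := by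
      calc f I = (W I : ℝ) ^ 2 * en P (W I) (U I) 0 := rfl
        _ ≤ (W I : ℝ) ^ 2 * (CB * ρ * ((U I : ℝ) ^ 2 / Real.log s) * P.card) :=
            mul_le_mul_of_nonneg_left h1 (by positivity)
        _ = CB * ρ * (((W I : ℝ) * U I) ^ 2 * P.card / Real.log s) := by ring
        _ = CB * ρ * (X ^ 2 * P.card / Real.log s) := by rw [hWUR I le_rfl]
    calc f I ≤ CB * ρ * (X ^ 2 * P.card / Real.log s) := h2
      _ = CB * ρ / η * (η * (X ^ 2 * P.card / Real.log s)) := by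
          field_simp
      _ ≤ CB * ρ / η * f 0 := mul_le_mul_of_nonneg_left hf0 (by positivity)
  obtain ⟨i, hi, hfi⟩ := hPIG f I (CB * ρ / η) hf0pos hfI hI
  -- the good scale
  have hstep : (k : ℝ) ^ 6 * en P (W i * k ^ 3) (U (i + 1)) 0 ≤
      9 / 8 * en P (W i) (k ^ 3 * U (i + 1)) 0 := by
    have h1 : f (i + 1) = (W i : ℝ) ^ 2 * ((k : ℝ) ^ 6 * en P (W i * k ^ 3) (U (i + 1)) 0) := by
      simp only [hf]
      rw [hWs i, Nat.cast_mul, Nat.cast_pow]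
      ring
    have h2 : f i = (W i : ℝ) ^ 2 * en P (W i) (k ^ 3 * U (i + 1)) 0 := by
      simp only [hf]
      rw [hUs i hi]
    rw [h1, h2] at hfi
    have h3 : (0 : ℝ) < (W i : ℝ) ^ 2 := pow_pos (Nat.cast_pos.2 (hW0 i)) 2
    have h5 : (W i : ℝ) ^ 2 * ((k : ℝ) ^ 6 * en P (W i * k ^ 3) (U (i + 1)) 0) ≤
        (W i : ℝ) ^ 2 * (9 / 8 * en P (W i) (k ^ 3 * U (i + 1)) 0) := by
      linarith
    exact le_of_mul_le_mul_left h5 h3
  have hfix := hFIX P (W i) (U (i + 1)) w k N (hW0 i) hw1 hk0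
    (fun m hm => Nat.dvd_factorial (mem_Icc.1 hm).1 (mem_Icc.1 hm).2)
    (fun p hp => by
      rw [← hUs i hi]
      exact ⟨(hPX i hi.le p hp).2.2.1, (hPX i hi.le p hp).2.2.2⟩) hstep
  rw [← hUs i hi] at hfix
  have h1 : τ ≤ T i := hT1 i
  have hsol := hONE P (W i) (T i) w s s N η (hW0 i)
    (hτ0.trans_le h1) hw1 hws hs2 hη hPne (hWw i) (h20.trans h1)
    (h22.trans (Nat.pow_le_pow_left h1 3))
    (hPX i hi.le) hcard hCw hCs hfix
  refine ⟨N, hN₀N, (sols P (W i) (T i)).image (fun x => x.1), ?_, ?_⟩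
  · rw [Finset.card_image_of_injOn (sols_inj (hW0 i))]
    have hNR1 : (1 : ℝ) < N := by exact_mod_cast hN1
    refine count_real hc hc₂ hNR1.le (Real.log_pos hNR1) (hτ.trans ?_) hcard2 hsol
      (Nat.cast_nonneg _)
    exact_mod_cast h1
  · intro x hx
    rw [mem_image] at hx
    obtain ⟨⟨⟨p, q⟩, t⟩, h, rfl⟩ := hx
    simp only [sols, mem_filter, mem_product, mem_Icc] at h
    obtain ⟨⟨⟨hp, hq⟩, ht⟩, hpq⟩ := h
    obtain ⟨hp1, hp2, hp3, hp4⟩ := hP p hp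
    obtain ⟨hq1, hq2, hq3, hq4⟩ := hP q hq
    refine ⟨hp4, hq4, lt_of_le_of_lt hN₀Y hp2, hq3, M₀ * k ^ (i + 1) * t, ?_, ?_, ?_⟩
    · exact Nat.mul_pos (Nat.mul_pos hM (pow_pos hk0 _)) ht.1
    · exact ⟨k ^ (i + 1) * t, by ring⟩
    · change q = p + n * (M₀ * k ^ (i + 1) * t) ^ 3
      rw [hpq]
      simp only [hWdef]
      ring

end

end Pool.Agent.CDP
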