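import Pool.Agent.CDP.StmtsC

set_option autoImplicit false

/-!
# FINC: the numbers `s`, `N`, `τ`, `Y`
-/

namespace Pool.Agent.CDP

open Finset
open Pool.Agent.Lib_helper83.EF (e)
open MUR (cop)

noncomputable section

namespace FINCM

lemma root (N : ℕ) : ∃ s : ℕ, s ^ 200 ≤ N ∧ N < (s + 1) ^ 200 := by
  have hex : ∃ m : ℕ, N < (m + 1) ^ 200 := by
    refine ⟨N, ?_⟩
    calc N < N + 1 := Nat.lt_succ_self N
      _ ≤ (N + 1) ^ 200 := Nat.le_self_pow (by norm_num) _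
  classical
  refine ⟨Nat.find hex, ?_, Nat.find_spec hex⟩
  rcases Nat.eq_zero_or_pos (Nat.find hex) with h | h
  · rw [h]
    simp
  · have h1 := Nat.find_min hex (Nat.sub_lt h Nat.one_pos)
    rw [not_lt, Nat.sub_add_cancel h] at h1
    exact h1

lemma cube (K Y : ℕ) (hK : 0 < K) : ∃ τ : ℕ, K * τ ^ 3 ≤ Y ∧ Y < K * (τ + 1) ^ 3 := by
  have hex : ∃ m : ℕ, Y < K * (m + 1) ^ 3 := by
    refine ⟨Y, ?_⟩
    calc Y < Y + 1 := Nat.lt_succ_self Y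
      _ ≤ (Y + 1) ^ 3 := Nat.le_self_pow (by norm_num) _
      _ ≤ K * (Y + 1) ^ 3 := Nat.le_mul_of_pos_left _ hK
  classical
  refine ⟨Nat.find hex, ?_, Nat.find_spec hex⟩
  rcases Nat.eq_zero_or_pos (Nat.find hex) with h | h
  · rw [h]
    simp
  · have h1 := Nat.find_min hex (Nat.sub_lt h Nat.one_pos)
    rw [not_lt, Nat.sub_add_cancel h] at h1
    exact h1

lemma mem_PB {PP : Set ℕ} {B N p : ℕ} : p ∈ PB PP B N ↔ (B < p ∧ p ≤ N) ∧ p ∈ PP := by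
  classical
  simp only [PB, mem_filter, mem_Ioc]

lemma card_PB {PP : Set ℕ} (hPP : ∀ p ∈ PP, p.Prime) (B N : ℕ) :
    (PB PP 0 N).card ≤ (PB PP B N).card + ((Ioc 0 B).filter Nat.Prime).card := by
  have h : PB PP 0 N ⊆ PB PP B N ∪ (Ioc 0 B).filter Nat.Prime := by
    intro p hp
    rw [mem_PB] at hp
    rw [mem_union, mem_PB, mem_filter, mem_Ioc]
    by_cases hpB : p ≤ B
    · exact Or.inr ⟨⟨hp.1.1, hpB⟩, hPP p hp.2⟩
    · exact Or.inl ⟨⟨by omega, hp.1.2⟩, hp.2⟩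
  exact (card_le_card h).trans (card_union_le _ _)

lemma exists_s {C η : ℝ} (hη : 0 < η) :
    ∃ s₀ : ℕ, ∀ s : ℕ, s₀ ≤ s → 2 * C * (s : ℝ) ^ (-(1 / 5) : ℝ) ≤ η / (8 * Real.log s) := by
  have h1 : ∀ᶠ s : ℕ in Filter.atTop,
      2 * C * (s : ℝ) ^ (-(1 / 5) : ℝ) ≤ η / (8 * Real.log s) := by
    have h2 : Filter.Tendsto (fun x : ℝ => Real.log x / x ^ (1 / 5 : ℝ)) Filter.atTop (nhds 0) :=
      (isLittleO_log_rpow_atTop (by norm_num : (0 : ℝ) < 1 / 5)).tendsto_div_nhds_zero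
    have h3 : Filter.Tendsto (fun x : ℝ => 16 * |C| * (Real.log x / x ^ (1 / 5 : ℝ)))
        Filter.atTop (nhds 0) := by
      have := h2.const_mul (16 * |C|)
      rwa [mul_zero] at this
    have h4 := (h3.comp tendsto_natCast_atTop_atTop).eventually (ge_mem_nhds hη)
    filter_upwards [h4, Filter.eventually_ge_atTop 2] with s hs hs2
    have hs1 : (1 : ℝ) < s := by exact_mod_cast (by omega : 1 < s)
    have hlog : 0 < Real.log s := Real.log_pos hs1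
    have hpow : 0 < (s : ℝ) ^ (1 / 5 : ℝ) := Real.rpow_pos_of_pos (by linarith) _
    rw [Real.rpow_neg (by linarith), le_div_iff₀ (by positivity)]
    have h5 : 16 * |C| * (Real.log s / (s : ℝ) ^ (1 / 5 : ℝ)) ≤ η := hs
    calc 2 * C * ((s : ℝ) ^ (1 / 5 : ℝ))⁻¹ * (8 * Real.log s)
        = 16 * C * (Real.log s / (s : ℝ) ^ (1 / 5 : ℝ)) := by
          rw [div_eq_mul_inv]
          ring
      _ ≤ 16 * |C| * (Real.log s / (s : ℝ) ^ (1 / 5 : ℝ)) := by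
          apply mul_le_mul_of_nonneg_right _ (by positivity)
          linarith [le_abs_self C]
      _ ≤ η := h5
  obtain ⟨s₁, hs₁⟩ := Filter.eventually_atTop.1 h1
  exact ⟨s₁, hs₁⟩

/-- The cube root of the number of order `N`. -/
lemma tau_low {δ : ℝ} (hδ : 0 < δ) {K N τ : ℕ} (hK : 0 < K) (hτ : 1 ≤ τ)
    (hN : 2 ≤ δ * N) (h : δ * N - 1 ≤ K * ((τ : ℝ) + 1) ^ 3) :
    (δ / (16 * K)) ^ (1 / 3 : ℝ) * (N : ℝ) ^ (1 / 3 : ℝ) ≤ τ := by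
  have hKR : (0 : ℝ) < K := by exact_mod_cast hK
  have hτR : (1 : ℝ) ≤ τ := by exact_mod_cast hτ
  have h1 : ((τ : ℝ) + 1) ^ 3 ≤ 8 * (τ : ℝ) ^ 3 := by
    calc ((τ : ℝ) + 1) ^ 3 ≤ (2 * (τ : ℝ)) ^ 3 := pow_le_pow_left₀ (by linarith) (by linarith) 3
      _ = 8 * (τ : ℝ) ^ 3 := by ring
  have h2 : δ * N / 2 ≤ K * (8 * (τ : ℝ) ^ 3) := by
    have := mul_le_mul_of_nonneg_left h1 hKR.le
    linarith
  have h3 : δ / (16 * K) * N ≤ (τ : ℝ) ^ 3 := by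
    rw [div_mul_eq_mul_div, div_le_iff₀ (by positivity)]
    linarith
  rw [← Real.mul_rpow (by positivity) (by positivity)]
  calc (δ / (16 * K) * N) ^ (1 / 3 : ℝ) ≤ ((τ : ℝ) ^ 3) ^ (1 / 3 : ℝ) :=
        Real.rpow_le_rpow (by positivity) h3 (by norm_num)
    _ = τ := by
        rw [← Real.rpow_natCast, ← Real.rpow_mul (by linarith)]
        norm_num

/-- The numbers for FINC. -/
theorem scale {PP : Set ℕ} {c C : ℝ} (hPP : ∀ p ∈ PP, p.Prime) (hc : 0 < c) (hCHE : S_CHE)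
    (hN : ∀ N₀ : ℕ, ∃ N : ℕ, N₀ ≤ N ∧ c * ((N : ℝ) / Real.log N) ≤ ((PB PP 0 N).card : ℝ))
    (K a : ℕ) (hK : 0 < K) : ∃ c₂ : ℝ, 0 < c₂ ∧ ∀ N₀ : ℕ, ∃ s N τ Y : ℕ, a ≤ s ∧ 16 ≤ s ∧
      N₀ ≤ N ∧ N₀ ≤ Y ∧ 1 < N ∧
      2 * C * (s : ℝ) ^ (-(1 / 5) : ℝ) ≤ c / 1600 / (8 * Real.log s) ∧
      s ^ 20 ≤ τ ∧ 0 < τ ∧ 16 * s ^ 4 ≤ τ ^ 3 ∧ (s * s) ^ 2 ≤ τ ^ 3 ∧ K * τ ^ 3 ≤ Y ∧ s < Y ∧
      c / 1600 * (((N : ℝ) + 1) / Real.log s) ≤ ((PB PP Y N).card : ℝ) ∧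
      c / 2 * ((N : ℝ) / Real.log N) ≤ ((PB PP Y N).card : ℝ) ∧
      c₂ * (N : ℝ) ^ (1 / 3 : ℝ) ≤ τ := by
  have hη : 0 < c / 1600 := by positivity
  obtain ⟨δ, N₁, hδ, hδ1, hCHE⟩ := hCHE (c / 2) (by positivity)
  have hKR : (0 : ℝ) < K := by exact_mod_cast hK
  obtain ⟨s₁, hs₁⟩ := exists_s (C := C) hη
  obtain ⟨m, hm⟩ := exists_nat_gt (2 * (K + 1) / δ)
  refine ⟨(δ / (16 * K)) ^ (1 / 3 : ℝ), Real.rpow_pos_of_pos (by positivity) _, fun N₀ => ?_⟩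
  set s₀ : ℕ := s₁ + m + a + 16 + N₀ with hs₀
  obtain ⟨N, hN1, hN2⟩ := hN ((s₀ + 1) ^ 200 + N₁)
  obtain ⟨s, hs1, hs2⟩ := root N
  have hss : s₀ ≤ s := by
    rcases le_or_gt s₀ s with h | h
    · exact h
    · exact absurd (hs2.trans_le ((Nat.pow_le_pow_left (Nat.succ_le_succ h.le) 200).trans
        ((Nat.le_add_right _ N₁).trans hN1))) (lt_irrefl _)
  have e1 : s₁ ≤ s := by omega
  have e2 : m ≤ s := by omega
  have e3 : a ≤ s := by omega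
  have h16 : 16 ≤ s := by omega
  have e5 : N₀ ≤ s := by omega
  clear hs₀ hss
  have hs1' : 1 < s := lt_of_lt_of_le (by norm_num) h16
  have hs0 : 0 < s := lt_trans Nat.one_pos hs1'
  have hs1R : (1 : ℝ) < s := by exact_mod_cast hs1'
  have hsR0 : (0 : ℝ) < s := by linarith
  have hlog : 0 < Real.log s := Real.log_pos hs1R
  have hN1' : 1 < N := lt_of_lt_of_le (Nat.one_lt_pow (by norm_num) hs1') hs1
  have hN0 : 0 < N := lt_trans Nat.one_pos hN1'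
  have hNR : (0 : ℝ) < N := Nat.cast_pos.2 hN0
  have hlogN0 : 0 < Real.log N := Real.log_pos (Nat.one_lt_cast.2 hN1')
  have hNN1 : N₁ ≤ N := (Nat.le_add_left _ _).trans hN1
  have hs200 : (s : ℝ) ^ 200 ≤ N := by
    have := (Nat.cast_le (α := ℝ)).2 hs1
    rwa [Nat.cast_pow] at this
  have hN400 : N < s ^ 400 := by
    have h2 : s + 1 ≤ s ^ 2 := by
      rw [pow_two]
      exact (Nat.add_le_mul hs1' hs1').trans' (Nat.add_le_add_left hs1'.le s)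
    calc N < (s + 1) ^ 200 := hs2
      _ ≤ (s ^ 2) ^ 200 := Nat.pow_le_pow_left h2 _
      _ = s ^ (2 * 200) := (pow_mul s 2 200).symm
      _ = s ^ 400 := by norm_num
  have hlogN : Real.log N ≤ 400 * Real.log s := by
    have h1 : (N : ℝ) ≤ (s : ℝ) ^ 400 := by
      have := (Nat.cast_le (α := ℝ)).2 hN400.le
      rwa [Nat.cast_pow] at this
    calc Real.log N ≤ Real.log ((s : ℝ) ^ 400) := Real.log_le_log hNR h1
      _ = 400 * Real.log s := by rw [Real.log_pow]; norm_num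
  -- `δ N` is large
  have hδs : 2 * ((K : ℝ) + 1) ≤ δ * s := by
    have h1 : 2 * ((K : ℝ) + 1) / δ ≤ s := hm.le.trans (by exact_mod_cast e2)
    rw [div_le_iff₀ hδ] at h1
    linarith
  have hδN : 2 * ((K : ℝ) + 1) * (s : ℝ) ^ 60 ≤ δ * N := by
    have h2 : (s : ℝ) * (s : ℝ) ^ 60 ≤ (s : ℝ) ^ 200 := by
      rw [← pow_succ']
      exact pow_le_pow_right₀ hs1R.le (by norm_num)
    calc 2 * ((K : ℝ) + 1) * (s : ℝ) ^ 60 ≤ δ * s * (s : ℝ) ^ 60 :=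
          mul_le_mul_of_nonneg_right hδs (pow_nonneg hsR0.le _)
      _ = δ * (s * (s : ℝ) ^ 60) := by rw [mul_assoc]
      _ ≤ δ * N := mul_le_mul_of_nonneg_left (h2.trans hs200) hδ.le
  have hs60 : (1 : ℝ) ≤ (s : ℝ) ^ 60 := one_le_pow₀ hs1R.le
  set Y : ℕ := ⌊δ * (N : ℝ)⌋₊ with hY
  have hY1 : (Y : ℝ) ≤ δ * N := Nat.floor_le (mul_nonneg hδ.le hNR.le)
  have hY2 : δ * N < (Y : ℝ) + 1 := Nat.lt_floor_add_one _
  clear_value Y
  obtain ⟨τ, hτ1, hτ2⟩ := cube K Y hK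
  have hτ2R : (Y : ℝ) + 1 ≤ K * ((τ : ℝ) + 1) ^ 3 := by
    have h1 : Y + 1 ≤ K * (τ + 1) ^ 3 := hτ2
    have := (Nat.cast_le (α := ℝ)).2 h1
    push_cast at this
    exact this
  have h20 : s ^ 20 ≤ τ := by
    by_contra hlt
    have h1 : τ + 1 ≤ s ^ 20 := by
      have := not_le.1 hlt
      exact this
    have h2 : ((τ : ℝ) + 1) ≤ (s : ℝ) ^ 20 := by
      have := (Nat.cast_le (α := ℝ)).2 h1
      push_cast at this
      exact this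
    have h3 : ((τ : ℝ) + 1) ^ 3 ≤ (s : ℝ) ^ 60 := by
      calc ((τ : ℝ) + 1) ^ 3 ≤ ((s : ℝ) ^ 20) ^ 3 :=
            pow_le_pow_left₀ (add_nonneg (Nat.cast_nonneg _) zero_le_one) h2 3
        _ = (s : ℝ) ^ 60 := by rw [← pow_mul]
    have h4 : (K : ℝ) * ((τ : ℝ) + 1) ^ 3 ≤ K * (s : ℝ) ^ 60 :=
      mul_le_mul_of_nonneg_left h3 hKR.le
    have h5 : 2 * ((K : ℝ) + 1) * (s : ℝ) ^ 60 = 2 * (K * (s : ℝ) ^ 60) + 2 * (s : ℝ) ^ 60 := by
      ring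
    have h6 : 0 ≤ (K : ℝ) * (s : ℝ) ^ 60 := mul_nonneg hKR.le (pow_nonneg hsR0.le _)
    linarith
  have hτ0 : 0 < τ := (pow_pos hs0 20).trans_le h20
  have h60 : s ^ 60 ≤ τ ^ 3 := by
    calc s ^ 60 = (s ^ 20) ^ 3 := pow_mul s 20 3
      _ ≤ τ ^ 3 := Nat.pow_le_pow_left h20 3
  have hsY : s < Y := by
    calc s = s ^ 1 := (pow_one s).symm
      _ < s ^ 60 := Nat.pow_lt_pow_right hs1' (by norm_num)
      _ ≤ τ ^ 3 := h60
      _ ≤ K * τ ^ 3 := Nat.le_mul_of_pos_left _ hK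
      _ ≤ Y := hτ1
  have hYN : Y ≤ N := by
    have h1 : (Y : ℝ) ≤ N := by
      calc (Y : ℝ) ≤ δ * N := hY1
        _ ≤ 1 * N := mul_le_mul_of_nonneg_right hδ1 hNR.le
        _ = N := one_mul _
    exact_mod_cast h1
  have hcard : c / 2 * ((N : ℝ) / Real.log N) ≤ ((PB PP Y N).card : ℝ) := by
    have h1 : ((PB PP 0 N).card : ℝ) ≤
        ((PB PP Y N).card : ℝ) + (((Ioc 0 Y).filter Nat.Prime).card : ℝ) := by
      exact_mod_cast card_PB hPP Y N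
    have h2 := hCHE N Y hNN1 hY1
    have h3 := hN2
    have h4 : c * ((N : ℝ) / Real.log N) = c / 2 * ((N : ℝ) / Real.log N) +
        c / 2 * ((N : ℝ) / Real.log N) := by ring
    linarith
  refine ⟨s, N, τ, Y, e3, h16, e5.trans (hsY.le.trans hYN), e5.trans hsY.le, hN1', hs₁ s e1, h20,
    hτ0, ?_, ?_, hτ1, hsY, ?_, hcard, ?_⟩
  · calc 16 * s ^ 4 ≤ s * s ^ 4 := Nat.mul_le_mul_right _ h16
      _ = s ^ (1 + 4) := by rw [pow_add, pow_one]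
      _ ≤ s ^ 60 := Nat.pow_le_pow_right hs0 (by norm_num)
      _ ≤ τ ^ 3 := h60
  · calc (s * s) ^ 2 = (s ^ 2) ^ 2 := by rw [pow_two s]
      _ = s ^ (2 * 2) := (pow_mul s 2 2).symm
      _ ≤ s ^ 60 := Nat.pow_le_pow_right hs0 (by norm_num)
      _ ≤ τ ^ 3 := h60
  · have h3 : c / 1600 * (((N : ℝ) + 1) / Real.log s) ≤ c / 2 * ((N : ℝ) / Real.log N) := by
      rw [mul_div_assoc', mul_div_assoc', div_le_div_iff₀ hlog hlogN0]
      have h4 : (1 : ℝ) ≤ N := Nat.one_le_cast.2 hN0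
      calc c / 1600 * ((N : ℝ) + 1) * Real.log N ≤
            c / 1600 * ((N : ℝ) + N) * (400 * Real.log s) := by
            apply mul_le_mul _ hlogN hlogN0.le (mul_nonneg hη.le (add_nonneg hNR.le hNR.le))
            exact mul_le_mul_of_nonneg_left (add_le_add le_rfl h4) hη.le
        _ = c / 2 * N * Real.log s := by ring
    exact h3.trans hcard
  · refine tau_low hδ hK hτ0 ?_ ?_
    · have h1 : 2 * ((K : ℝ) + 1) * 1 ≤ 2 * ((K : ℝ) + 1) * (s : ℝ) ^ 60 :=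
        mul_le_mul_of_nonneg_left hs60 (by linarith)
      linarith
    · linarith

end FINCM

end

end Pool.Agent.CDP
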