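import Pool.Agent.CDP.Stmts

set_option autoImplicit false

/-!
# Project CDP: the module FIX, one energy step
-/

namespace Pool.Agent.CDP

open Finset
open Pool.Agent.Lib_helper83.EF (e)
open MUR (cop)

namespace FIXM

theorem en_nonneg (hW : S_WIN) (P : Finset ℕ) (W U N : ℕ) (θ : ℝ) (h1 : 1 ≤ W)
    (h2 : ∀ p ∈ P, W * U ≤ p ∧ p ≤ N) : 0 ≤ en P W U θ := by
  rw [(hW P W U N θ h1 h2).1]
  exact Finset.sum_nonneg fun _ _ => by positivity

theorem cop_one : cop 1 = {0} := by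
  ext a
  simp [MUR.cop]

end FIXM

theorem t_FIX : M_FIX := by
  intro hWIN hENE P W U w k N hW hw hk hdiv hP hE
  have hE1 := hENE P W U (k ^ 3) hW (Nat.one_le_pow _ _ hk)
  have hnn : ∀ m, 0 ≤ ∑ a ∈ cop m, en P W (k ^ 3 * U) ((a : ℝ) / m) := fun m =>
    Finset.sum_nonneg fun a _ => FIXM.en_nonneg hWIN P W (k ^ 3 * U) N _ hW hP
  have hsub : insert 1 (Ioc 1 w) ⊆ (k ^ 3).divisors := by
    intro m hm
    rw [Finset.mem_insert] at hm
    rw [Nat.mem_divisors]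
    refine ⟨?_, by positivity⟩
    rcases hm with rfl | hm
    · exact one_dvd _
    · rw [Finset.mem_Ioc] at hm
      exact (hdiv m (Finset.mem_Icc.mpr ⟨by omega, hm.2⟩)).trans (dvd_pow_self k (by norm_num))
  have h1 := Finset.sum_le_sum_of_subset_of_nonneg hsub
    (f := fun m => ∑ a ∈ cop m, en P W (k ^ 3 * U) ((a : ℝ) / m)) (fun m _ _ => hnn m)
  rw [hE1, Finset.sum_insert (by simp)] at h1
  rw [FIXM.cop_one, Finset.sum_singleton] at h1
  have h2 : (((k ^ 3 : ℕ) : ℝ)) ^ 2 = (k : ℝ) ^ 6 := by push_cast; ring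
  rw [h2] at h1
  have h3 : en P W (k ^ 3 * U) (((0 : ℕ) : ℝ) / ((1 : ℕ) : ℝ)) = en P W (k ^ 3 * U) 0 := by
    congr 1
    simp
  rw [h3] at h1
  linarith

end Pool.Agent.CDP
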