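import Pool.Agent.CDP.Stmts

set_option autoImplicit false

/-!
# CDP, module FJB: elementary bounds and periodicity
-/

namespace Pool.Agent.CDP

open Finset
open Pool.Agent.Lib_helper83.EF (e)
open MUR (cop)

namespace FJBM

open Pool.Agent.Lib_helper77.EF (e_add norm_e e_nsmul norm_one_sub_e)

theorem e_int (k : ℤ) : e (k : ℝ) = 1 := by
  unfold e
  rw [← Complex.exp_int_mul_two_pi_mul_I k]
  congr 1
  push_cast
  ring

theorem e_add_int (x : ℝ) (k : ℤ) : e (x + k) = e x := by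
  rw [e_add, e_int, mul_one]

theorem fej_nonneg (U : ℕ) (θ : ℝ) : 0 ≤ fej U θ := sq_nonneg _

theorem fej_le (U : ℕ) (θ : ℝ) : fej U θ ≤ (U : ℝ) ^ 2 := by
  refine pow_le_pow_left₀ (norm_nonneg _) ?_ 2
  refine (norm_sum_le _ _).trans ?_
  simp [norm_e]

theorem fej_add_int (U : ℕ) (θ : ℝ) (k : ℤ) : fej U (θ + k) = fej U θ := by
  rw [fej, fej]
  congr 2
  refine Finset.sum_congr rfl fun u _ => ?_
  have h : (u : ℝ) * (θ + k) = (u : ℝ) * θ + ((u * k : ℤ) : ℝ) := by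
    push_cast
    ring
  rw [h, e_add_int]

/-- the lower bound for `|e θ - 1|` -/
theorem lower (θ : ℝ) : 4 * |θ - round θ| ≤ ‖e θ - 1‖ := by
  set x : ℝ := θ - round θ with hx
  have h1 : e θ = e x := by
    rw [← e_add_int x (round θ)]
    congr 1
    rw [hx]
    ring
  have h2 : |x| ≤ 1 / 2 := abs_sub_round θ
  have hpi := Real.pi_pos
  have h3 : 2 * |x| ≤ |Real.sin (Real.pi * x)| := by
    have h4 : |Real.sin (Real.pi * x)| = Real.sin (Real.pi * |x|) := by
      rcases le_total 0 x with h | h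
      · rw [abs_of_nonneg h, abs_of_nonneg]
        apply Real.sin_nonneg_of_nonneg_of_le_pi
        · positivity
        · rw [abs_of_nonneg h] at h2
          nlinarith
      · rw [abs_of_nonpos h, mul_neg, Real.sin_neg, abs_of_nonpos]
        rw [← neg_nonneg, ← Real.sin_neg, ← mul_neg]
        rw [abs_of_nonpos h] at h2
        apply Real.sin_nonneg_of_nonneg_of_le_pi
        · exact mul_nonneg hpi.le (by linarith)
        · nlinarith
    rw [h4]
    have h5 := Real.mul_le_sin (x := Real.pi * |x|) (by positivity) (by nlinarith)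
    have h6 : 2 / Real.pi * (Real.pi * |x|) = 2 * |x| := by
      field_simp
    linarith
  rw [h1, norm_one_sub_e]
  linarith

theorem fej_mul_le (U : ℕ) (θ : ℝ) : fej U θ * (4 * |θ - round θ| ^ 2) ≤ 1 := by
  set S := ∑ u ∈ range U, e ((u : ℝ) * θ) with hS
  have h1 : S * (e θ - 1) = e ((U : ℝ) * θ) - 1 := by
    rw [hS, e_nsmul, ← geom_sum_mul]
    congr 1
    exact Finset.sum_congr rfl fun u _ => e_nsmul θ u
  have h2 : ‖S‖ * ‖e θ - 1‖ ≤ 2 := by
    rw [← norm_mul, h1]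
    refine (norm_sub_le _ _).trans ?_
    rw [norm_e, norm_one]
    norm_num
  have h3 : ‖S‖ * (4 * |θ - round θ|) ≤ 2 :=
    (mul_le_mul_of_nonneg_left (lower θ) (norm_nonneg _)).trans h2
  have h4 : 0 ≤ ‖S‖ * (4 * |θ - round θ|) := by positivity
  have h5 : (‖S‖ * (4 * |θ - round θ|)) ^ 2 ≤ 2 ^ 2 := pow_le_pow_left₀ h4 h3 2
  have h6 : fej U θ = ‖S‖ ^ 2 := rfl
  rw [h6]
  nlinarith

theorem gam_le (a m : ℕ) : |gam a m| ≤ 1 := by
  rcases Nat.eq_zero_or_pos m with rfl | hm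
  · simp [gam]
  · have hm' : (0 : ℝ) < m := by exact_mod_cast hm
    rw [gam, abs_div, abs_of_pos hm', div_le_one hm']
    refine (Finset.abs_sum_le_sum_abs _ _).trans ?_
    refine (Finset.sum_le_sum fun r _ => Real.abs_cos_le_one _).trans ?_
    simp

theorem ker_add_int (T : ℕ) (α : ℝ) (k : ℤ) : ker T (α + k) = ker T α := by
  rw [ker, ker]
  refine Finset.sum_congr rfl fun t _ => ?_
  congr 1
  have h : 2 * Real.pi * ((t : ℝ) ^ 3 * (α + k)) =
      2 * Real.pi * ((t : ℝ) ^ 3 * α) + (((t : ℤ) ^ 3 * k : ℤ) : ℝ) * (2 * Real.pi) := by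
    push_cast
    ring
  rw [h, Real.cos_add_int_mul_two_pi]

theorem model_add_int (T Q : ℕ) (α : ℝ) (k : ℤ) : model T Q (α + k) = model T Q α := by
  rw [model, model]
  congr 1
  refine Finset.sum_congr rfl fun m _ => Finset.sum_congr rfl fun a _ => ?_
  have h : α + k - (a : ℝ) / m = α - (a : ℝ) / m + k := by ring
  rw [h, fej_add_int]

theorem model_le (T Q : ℕ) (α D : ℝ) (hD : 0 < D)
    (h : ∀ m ∈ Icc 1 Q, ∀ a ∈ cop m, D ≤ |(α - (a : ℝ) / m) - round (α - (a : ℝ) / m)|) :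
    |model T Q α| ≤ (Q : ℝ) ^ 2 / (8 * D ^ 2) := by
  have hterm : ∀ m ∈ Icc 1 Q, ∀ a ∈ cop m,
      |gam a m * fej (T ^ 3) (α - (a : ℝ) / m)| ≤ 1 / (4 * D ^ 2) := by
    intro m hm a ha
    rw [abs_mul, abs_of_nonneg (fej_nonneg _ _)]
    have h1 := gam_le a m
    have h2 := fej_mul_le (T ^ 3) (α - (a : ℝ) / m)
    have h3 := h m hm a ha
    have h4 := fej_nonneg (T ^ 3) (α - (a : ℝ) / m)
    have h5 : fej (T ^ 3) (α - (a : ℝ) / m) ≤ 1 / (4 * D ^ 2) := by
      rw [le_div_iff₀ (by positivity)]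
      refine (mul_le_mul_of_nonneg_left ?_ h4).trans h2
      have h6 : D ^ 2 ≤ |(α - (a : ℝ) / m) - round (α - (a : ℝ) / m)| ^ 2 :=
        pow_le_pow_left₀ hD.le h3 2
      linarith
    calc |gam a m| * fej (T ^ 3) (α - (a : ℝ) / m) ≤ 1 * fej (T ^ 3) (α - (a : ℝ) / m) :=
          mul_le_mul_of_nonneg_right h1 h4
      _ ≤ 1 / (4 * D ^ 2) := by rw [one_mul]; exact h5
  have hcop : ∀ m : ℕ, ((cop m).card : ℝ) ≤ m := by
    intro m
    have h1 : (cop m).card ≤ (range m).card := Finset.card_le_card (Finset.filter_subset _ _)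
    rw [Finset.card_range] at h1
    exact_mod_cast h1
  have hpos : (0 : ℝ) ≤ 1 / (4 * D ^ 2) := by positivity
  have hsum : |∑ m ∈ Icc 1 Q, ∑ a ∈ cop m, gam a m * fej (T ^ 3) (α - (a : ℝ) / m)| ≤
      (Q : ℝ) ^ 2 * (1 / (4 * D ^ 2)) := by
    refine (Finset.abs_sum_le_sum_abs _ _).trans ?_
    have h1 : ∀ m ∈ Icc 1 Q, |∑ a ∈ cop m, gam a m * fej (T ^ 3) (α - (a : ℝ) / m)| ≤
        (Q : ℝ) * (1 / (4 * D ^ 2)) := by
      intro m hm
      refine (Finset.abs_sum_le_sum_abs _ _).trans ?_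
      refine (Finset.sum_le_sum (hterm m hm)).trans ?_
      rw [Finset.sum_const, nsmul_eq_mul]
      refine mul_le_mul_of_nonneg_right ((hcop m).trans ?_) hpos
      exact_mod_cast (Finset.mem_Icc.1 hm).2
    refine (Finset.sum_le_sum h1).trans ?_
    rw [Finset.sum_const, Nat.card_Icc, nsmul_eq_mul, Nat.add_sub_cancel]
    exact le_of_eq (by ring)
  rw [model, abs_div, abs_two]
  have h8 : (Q : ℝ) ^ 2 / (8 * D ^ 2) = (Q : ℝ) ^ 2 * (1 / (4 * D ^ 2)) / 2 := by
    field_simp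
    ring
  rw [h8]
  linarith

end FJBM

open FJBM in
/-- **FJB**. -/
theorem t_FJB : S_FJB :=
  ⟨fun U θ => ⟨fej_nonneg U θ, fej_le U θ⟩, fej_mul_le, gam_le,
    fun T Q α k => ⟨ker_add_int T α k, model_add_int T Q α k, fej_add_int T α k⟩, model_le⟩

end Pool.Agent.CDP
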