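import Pool.Agent.CDP.Stmts

set_option autoImplicit false

/-!
# GAM: complete cubic sums
-/

namespace Pool.Agent.CDP

open Finset
open Pool.Agent.Lib_helper83.EF (e)
open MUR (cop)

namespace GAMM

theorem re_e (x : ℝ) : (e x).re = Real.cos (2 * Real.pi * x) := by
  unfold Pool.Agent.Lib_helper83.EF.e
  have h : (2 * Real.pi * x * Complex.I : ℂ) = ((2 * Real.pi * x : ℝ) : ℂ) * Complex.I := by
    push_cast
    ring
  rw [h, Complex.exp_ofReal_mul_I_re]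

/-- the sum over a period, shifted -/
theorem shift (a m : ℕ) (hm : 1 ≤ m) :
    ∑ r ∈ range m, Real.cos (2 * Real.pi * ((r : ℝ) ^ 3 * ((a : ℝ) / m))) =
      ∑ t ∈ Icc 1 m, Real.cos (2 * Real.pi * ((t : ℝ) ^ 3 * ((a : ℝ) / m))) := by
  have h0 : (m : ℝ) ≠ 0 := by
    have : (1 : ℝ) ≤ m := by exact_mod_cast hm
    linarith
  obtain ⟨f, hf⟩ : ∃ f : ℕ → ℝ, f = fun r : ℕ =>
    Real.cos (2 * Real.pi * ((r : ℝ) ^ 3 * ((a : ℝ) / m))) := ⟨_, rfl⟩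
  have h1 : f 0 = 1 := by
    rw [hf]
    simp
  have h2 : f m = 1 := by
    rw [hf]
    show Real.cos (2 * Real.pi * ((m : ℝ) ^ 3 * ((a : ℝ) / m))) = 1
    have h3 : 2 * Real.pi * ((m : ℝ) ^ 3 * ((a : ℝ) / m)) =
        ((m ^ 2 * a : ℕ) : ℝ) * (2 * Real.pi) := by
      push_cast
      field_simp
    rw [h3]
    exact Real.cos_nat_mul_two_pi _
  have h4 : ∑ r ∈ range m, f r = ∑ t ∈ Icc 1 m, f t := by
    have h5 : ∑ r ∈ range (m + 1), f r = ∑ r ∈ range m, f r + f m := Finset.sum_range_succ f m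
    have h6 : ∑ r ∈ range (m + 1), f r = ∑ r ∈ range m, f (r + 1) + f 0 :=
      Finset.sum_range_succ' f m
    have h7 : ∑ t ∈ Icc 1 m, f t = ∑ r ∈ range m, f (r + 1) := by
      rw [Finset.range_eq_Ico, Finset.sum_Ico_add' f 0 m 1]
      refine Finset.sum_congr ?_ fun _ _ => rfl
      ext t
      simp only [Finset.mem_Icc, Finset.mem_Ico]
      omega
    rw [h7]
    linarith
  rw [hf] at h4
  exact h4

theorem le_norm (a m : ℕ) (hm : 1 ≤ m) :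
    |∑ r ∈ range m, Real.cos (2 * Real.pi * ((r : ℝ) ^ 3 * ((a : ℝ) / m)))| ≤
      ‖∑ t ∈ Icc 1 m, e ((t : ℝ) ^ 3 * ((a : ℝ) / m))‖ := by
  rw [shift a m hm]
  have h : ∑ t ∈ Icc 1 m, Real.cos (2 * Real.pi * ((t : ℝ) ^ 3 * ((a : ℝ) / m))) =
      (∑ t ∈ Icc 1 m, e ((t : ℝ) ^ 3 * ((a : ℝ) / m))).re := by
    rw [Complex.re_sum]
    exact Finset.sum_congr rfl fun t _ => (re_e _).symm
  rw [h]
  exact Complex.abs_re_le_norm _

end GAMM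

open GAMM in
theorem t_GAM : M_GAM := by
  rintro ⟨C, hC, hW⟩
  refine ⟨3 * C + 1, by linarith, fun a m hm hco => ?_⟩
  obtain ⟨M, hM⟩ : ∃ M : ℝ, M = (m : ℝ) := ⟨_, rfl⟩
  have hM1 : 1 ≤ M := by
    rw [hM]
    exact_mod_cast hm
  have hM0 : 0 < M := by linarith
  have h1 := hW ((a : ℝ) / m) (a : ℤ) m m hm hm (Nat.isCoprime_iff_coprime.2 hco) (by
    have : |(a : ℝ) / m - ((a : ℤ) : ℝ) / m| = 0 := by simp
    rw [this]
    positivity)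
  have h2 := pow_le_pow_left₀ (abs_nonneg _) (le_norm a m hm) 4
  obtain ⟨S, hS⟩ : ∃ S : ℝ, S = ∑ r ∈ range m, Real.cos (2 * Real.pi *
    ((r : ℝ) ^ 3 * ((a : ℝ) / m))) := ⟨_, rfl⟩
  have h3 : |S| ^ 4 ≤ C * M ^ (4 + 1 / 20 : ℝ) * (1 / M + 1 / M + M / M ^ 3) := by
    rw [hS, hM]
    exact h2.trans h1
  have h4 : 1 / M + 1 / M + M / M ^ 3 ≤ 3 / M := by
    have h5 : M / M ^ 3 ≤ 1 / M := by
      rw [div_le_div_iff₀ (by positivity) hM0]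
      nlinarith [pow_pos hM0 2]
    have h6 : 3 / M = 1 / M + 1 / M + 1 / M := by ring
    linarith
  have h5 : M ^ (4 + 1 / 20 : ℝ) = M ^ 4 * M ^ (1 / 20 : ℝ) := by
    rw [Real.rpow_add hM0]
    congr 1
    exact_mod_cast Real.rpow_natCast M 4
  have h6 : |S| ^ 4 ≤ M ^ 4 * (3 * C * (M ^ (1 / 20 : ℝ) / M)) := by
    calc |S| ^ 4 ≤ C * M ^ (4 + 1 / 20 : ℝ) * (1 / M + 1 / M + M / M ^ 3) := h3
      _ ≤ C * M ^ (4 + 1 / 20 : ℝ) * (3 / M) := mul_le_mul_of_nonneg_left h4 (by positivity)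
      _ = M ^ 4 * (3 * C * (M ^ (1 / 20 : ℝ) / M)) := by
        rw [h5]
        field_simp
  have h7 : M ^ (1 / 20 : ℝ) / M ≤ (M ^ (-(1 / 5) : ℝ)) ^ 4 := by
    have e1 : M ^ (1 / 20 : ℝ) / M = M ^ (1 / 20 - 1 : ℝ) := by
      rw [Real.rpow_sub hM0, Real.rpow_one]
    have e2 : (M ^ (-(1 / 5) : ℝ)) ^ 4 = M ^ (-(4 / 5) : ℝ) := by
      rw [← Real.rpow_natCast, ← Real.rpow_mul hM0.le]
      norm_num
    rw [e1, e2]
    exact Real.rpow_le_rpow_of_exponent_le hM1 (by norm_num)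
  have hg : gam a m = S / M := by
    rw [hS, hM, gam]
  have h8 : |gam a m| ^ 4 ≤ ((3 * C + 1) * M ^ (-(1 / 5) : ℝ)) ^ 4 := by
    have h9 : |gam a m| ^ 4 = |S| ^ 4 / M ^ 4 := by
      rw [hg, abs_div, abs_of_pos hM0, div_pow]
    have h10 : 3 * C ≤ (3 * C + 1) ^ 4 := by
      have h11 : 1 ≤ 3 * C + 1 := by linarith
      calc 3 * C ≤ 3 * C + 1 := by linarith
        _ = (3 * C + 1) ^ 1 := (pow_one _).symm
        _ ≤ (3 * C + 1) ^ 4 := pow_le_pow_right₀ h11 (by norm_num)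
    rw [h9, div_le_iff₀ (by positivity), mul_pow]
    calc |S| ^ 4 ≤ M ^ 4 * (3 * C * (M ^ (1 / 20 : ℝ) / M)) := h6
      _ ≤ M ^ 4 * ((3 * C + 1) ^ 4 * (M ^ (-(1 / 5) : ℝ)) ^ 4) := by
        apply mul_le_mul_of_nonneg_left _ (by positivity)
        exact mul_le_mul h10 h7 (by positivity) (by positivity)
      _ = (3 * C + 1) ^ 4 * (M ^ (-(1 / 5) : ℝ)) ^ 4 * M ^ 4 := by ring
  have h9 := le_of_pow_le_pow_left₀ (by norm_num : 4 ≠ 0) (by positivity) h8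
  rw [← hM]
  exact h9

end Pool.Agent.CDP
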