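import Pool.Agent.CDP.Stmts

set_option autoImplicit false

/-!
# Geometric sums over intervals
-/

namespace Pool.Agent.CDP

open Finset
open Pool.Agent.Lib_helper83.EF (e)
open Pool.Agent.Lib_helper77.EF (e_add norm_e norm_one_sub_e sin_lower)

noncomputable section

namespace GEOM

theorem e_int (z : ℤ) : e (z : ℝ) = 1 := by
  unfold e
  rw [← Complex.exp_int_mul_two_pi_mul_I z]
  congr 1
  push_cast
  ring

theorem tele (A n : ℕ) (θ : ℝ) :
    (e θ - 1) * ∑ t ∈ Ioc A (A + n), e ((t : ℝ) * θ) =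
      e (((A + n + 1 : ℕ) : ℝ) * θ) - e (((A + 1 : ℕ) : ℝ) * θ) := by
  induction n with
  | zero => simp
  | succ n ih =>
    have h1 : Ioc A (A + (n + 1)) = insert (A + n + 1) (Ioc A (A + n)) := by
      ext x
      simp only [mem_Ioc, mem_insert]
      omega
    rw [h1, sum_insert (by simp), mul_add, ih]
    have h2 : ((A + (n + 1) + 1 : ℕ) : ℝ) * θ = θ + ((A + n + 1 : ℕ) : ℝ) * θ := by
      push_cast
      ring
    rw [h2, e_add]
    ring

theorem lower (θ : ℝ) : 4 * |θ - round θ| ≤ ‖e θ - 1‖ := by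
  have hx : |θ - round θ| ≤ 1 / 2 := abs_sub_round θ
  have h1 : e θ = e (θ - round θ) := by
    have h2 : θ = (θ - round θ) + ((round θ : ℤ) : ℝ) := by ring
    conv_lhs => rw [h2, e_add, e_int, mul_one]
  rw [h1, norm_one_sub_e]
  have h3 := sin_lower (x := |θ - round θ|) (abs_nonneg _) (by linarith)
  have h4 : |Real.sin (Real.pi * |θ - round θ|)| = |Real.sin (Real.pi * (θ - round θ))| := by
    rcases abs_choice (θ - round θ) with h | h
    · rw [h]
    · rw [h, mul_neg, Real.sin_neg, abs_neg]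
  rw [h4] at h3
  have h5 : min |θ - round θ| (1 - |θ - round θ|) = |θ - round θ| :=
    min_eq_left (by linarith)
  rw [h5] at h3
  linarith

end GEOM

open GEOM in
theorem t_GEO : S_GEO := by
  intro T A n θ hn
  have hT0 : (0 : ℝ) ≤ T := Nat.cast_nonneg T
  set x : ℝ := |θ - round θ| with hx
  have hx0 : 0 ≤ x := abs_nonneg _
  set S : ℂ := ∑ t ∈ Ioc A (A + n), e ((t : ℝ) * θ) with hS
  have hS1 : ‖S‖ ≤ T := by
    calc ‖S‖ ≤ ∑ t ∈ Ioc A (A + n), ‖e ((t : ℝ) * θ)‖ := norm_sum_le _ _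
      _ = n := by simp [norm_e]
      _ ≤ T := by exact_mod_cast hn
  have hS2 : 4 * x * ‖S‖ ≤ 2 := by
    have h1 : ‖e θ - 1‖ * ‖S‖ ≤ 2 := by
      rw [← norm_mul, hS, tele]
      calc _ ≤ ‖e (((A + n + 1 : ℕ) : ℝ) * θ)‖ + ‖e (((A + 1 : ℕ) : ℝ) * θ)‖ := norm_sub_le _ _
        _ = 2 := by rw [norm_e, norm_e]; norm_num
    exact le_trans (mul_le_mul_of_nonneg_right (lower θ) (norm_nonneg _)) h1
  have hpos : 0 < 1 + (T : ℝ) * x := by positivity
  unfold mn
  rw [← hx, mul_div_assoc', le_div_iff₀ hpos]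
  rcases le_total ((T : ℝ) * x) 1 with h | h
  · nlinarith [norm_nonneg S]
  · nlinarith [norm_nonneg S]

end

end Pool.Agent.CDP
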