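import Pool.Agent.CDP.Stmts

/-!
# The main term (project CDP, module LOW)
-/

set_option autoImplicit false

namespace Pool.Agent.CDP

open Finset
open Pool.Agent.Lib_helper83.EF (e)

theorem t_LOW : M_LOW := by
  intro hW P W U N h1 hP
  obtain ⟨h2, h3⟩ := hW P W U N 0 h1 hP
  have he : e 0 = 1 := by simp [e]
  have h4 : en P W U 0 = ∑ x ∈ range (N + 1), ((win P W U x).card : ℝ) ^ 2 := by
    rw [h2]
    refine Finset.sum_congr rfl fun x _ => ?_
    simp [he]
  have h5 : ((U : ℝ) * P.card) = ∑ x ∈ range (N + 1), ((win P W U x).card : ℝ) := by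
    exact_mod_cast h3.symm
  have h6 := sq_sum_le_card_mul_sum_sq (s := range (N + 1))
    (f := fun x => ((win P W U x).card : ℝ))
  rw [h4, h5]
  rw [Finset.card_range] at h6
  push_cast at h6
  exact h6

end Pool.Agent.CDP
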