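import Pool.Agent.CDP.Stmts
import Pool.Agent.MUR.LSS
import Pool.Agent.MUR.GS
import Pool.Agent.MUR.MER
import Pool.Agent.MUR.MON

set_option autoImplicit false

/-!
# LSP: the large sieve for primes
-/

namespace Pool.Agent.CDP

open Finset
open Pool.Agent.Lib_helper83.EF (e)
open MUR (cop smo)

namespace LSPM

/-- A class in which `x + W u` is divisible by `l`. -/
theorem exists_class (x W l : ℕ) (hl : l.Prime) (hW : ¬ l ∣ W) :
    ∃ r : ℕ, ∀ u : ℕ, u ≡ r [MOD l] → l ∣ x + W * u := by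
  haveI : Fact l.Prime := ⟨hl⟩
  have hW0 : (W : ZMod l) ≠ 0 := by
    intro h
    exact hW ((ZMod.natCast_eq_zero_iff W l).1 h)
  refine ⟨(-(x : ZMod l) * (W : ZMod l)⁻¹).val, fun u hu => ?_⟩
  have h1 : (u : ZMod l) = -(x : ZMod l) * (W : ZMod l)⁻¹ := by
    have h2 := (ZMod.natCast_eq_natCast_iff u _ l).2 hu
    rw [h2, ZMod.natCast_val, ZMod.cast_id]
  rw [← ZMod.natCast_eq_zero_iff]
  push_cast
  rw [h1]
  field_simp
  ring

/-- The sum over one window. -/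
theorem window {c : ℝ} (P : Finset ℕ) (W U Q z x : ℕ) (hQ : 1 ≤ Q) (hz : 2 ≤ z)
    (hMER : c / Real.log (Q + 1) ≤ ∏ p ∈ (Icc 1 Q).filter Nat.Prime, (1 - 1 / (p : ℝ)))
    (hW : ∀ l ∈ W.primeFactors, l ≤ Q) (hW1 : 1 ≤ W) (hU : (Q * z) ^ 2 ≤ U)
    (hP : ∀ p ∈ P, p.Prime ∧ z < p) :
    (c / Real.log (Q + 1) * Real.log z) *
      ∑ m ∈ Icc 1 Q, ∑ a ∈ cop m, ‖∑ u ∈ win P W U x, e ((u : ℝ) * ((a : ℝ) / m))‖ ^ 2 ≤
      6 * (U : ℝ) * (win P W U x).card := by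
  classical
  set S := (win P W U x).image (fun u => u + 1) with hS
  have hSsub : S ⊆ Ioc 0 (0 + U) := by
    intro w hw
    obtain ⟨u, hu, rfl⟩ := mem_image.1 hw
    have h1 := (mem_filter.1 hu).1
    rw [mem_range] at h1
    rw [mem_Ioc]
    omega
  set a : ℕ → ℂ := fun _ => 1 with ha
  have hinj : Set.InjOn (fun u : ℕ => u + 1) (win P W U x : Set ℕ) := by
    intro u _ v _ h
    exact Nat.succ_injective h
  have hT : ∀ θ : ℝ, ‖MUR.LSS.T a S θ‖ = ‖∑ u ∈ win P W U x, e ((u : ℝ) * θ)‖ := by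
    intro θ
    unfold MUR.LSS.T
    rw [hS, sum_image hinj]
    have h1 : ∑ u ∈ win P W U x, a (u + 1) * e (((u + 1 : ℕ) : ℝ) * θ) =
        e θ * ∑ u ∈ win P W U x, e ((u : ℝ) * θ) := by
      rw [mul_sum]
      refine sum_congr rfl fun u _ => ?_
      rw [ha]
      dsimp only
      rw [one_mul, ← Pool.Agent.Lib_helper77.EF.e_add]
      congr 1
      push_cast
      ring
    rw [h1, norm_mul, Pool.Agent.Lib_helper77.EF.norm_e, one_mul]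
  -- the missing classes
  have hcl : ∀ l : ℕ, ∃ r : ℕ, l.Prime → Q < l → l ≤ z → ∀ w ∈ S, ¬ w ≡ r [MOD l] := by
    intro l
    by_cases hl : l.Prime ∧ Q < l ∧ l ≤ z
    · obtain ⟨h1, h2, h3⟩ := hl
      have h4 : ¬ l ∣ W := by
        intro h5
        have := hW l (Nat.mem_primeFactors.2 ⟨h1, h5, by omega⟩)
        omega
      obtain ⟨r, hr⟩ := exists_class x W l h1 h4
      refine ⟨r + 1, fun _ _ _ w hw hwr => ?_⟩
      obtain ⟨u, hu, rfl⟩ := mem_image.1 hw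
      have h5 : u ≡ r [MOD l] := Nat.ModEq.add_right_cancel' 1 hwr
      have h6 := hr u h5
      have h7 : x + W * u ∈ P := (mem_filter.1 hu).2
      obtain ⟨h8, h9⟩ := hP _ h7
      rcases (Nat.dvd_prime h8).1 h6 with h10 | h10
      · exact h1.one_lt.ne' h10
      · omega
    · exact ⟨0, fun h1 h2 h3 => absurd ⟨h1, h2, h3⟩ hl⟩
  choose ρ hρ using hcl
  set PP := ∏ p ∈ (Icc 1 Q).filter Nat.Prime, p with hPP
  set 𝒟 := (Icc 1 z).filter (fun d => Squarefree d ∧ d.Coprime (1 * PP)) with h𝒟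
  set Gz : ℝ := ∑ d ∈ 𝒟, 1 / (d.totient : ℝ) with hGz
  have hdens := MUR.LSS.density (z := z) (k := 1) le_rfl hQ hz MUR.t_GS hMER
  rw [← hPP, ← h𝒟, ← hGz, Nat.totient_one, Nat.cast_one, div_one, one_mul] at hdens
  have hD1 : ∀ d ∈ 𝒟, 1 ≤ d ∧ d ≤ z ∧ ∀ p ∈ d.primeFactors, Q < p := by
    intro d hd
    obtain ⟨h1, h2, h3⟩ := mem_filter.1 hd
    refine ⟨(mem_Icc.1 h1).1, (mem_Icc.1 h1).2, ?_⟩
    intro p hp
    by_contra hcon
    have hpp := Nat.prime_of_mem_primeFactors hp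
    have h4 : p ∣ PP := by
      rw [hPP]
      exact Finset.dvd_prod_of_mem (fun p => p)
        (mem_filter.2 ⟨mem_Icc.2 ⟨hpp.one_lt.le, by omega⟩, hpp⟩)
    have h5 : p ∣ d := Nat.dvd_of_mem_primeFactors hp
    have h6 := Nat.dvd_gcd h5 (h4.mul_left 1)
    rw [h3] at h6
    exact hpp.one_lt.ne' (Nat.dvd_one.1 h6)
  have hD2 : ∀ d ∈ 𝒟, ∀ l ∈ d.primeFactors, ∀ w ∈ S, ¬ w ≡ ρ l [MOD l] := by
    intro d hd l hl
    have hlp := Nat.prime_of_mem_primeFactors hl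
    have hld : l ∣ d := Nat.dvd_of_mem_primeFactors hl
    exact hρ l hlp ((hD1 d hd).2.2 l hl)
      ((Nat.le_of_dvd (hD1 d hd).1 hld).trans (hD1 d hd).2.1)
  have hm : ∀ θ : ℝ, Gz * ‖MUR.LSS.T a S θ‖ ^ 2 ≤
      ∑ d ∈ 𝒟, ∑ b ∈ cop d, ‖MUR.LSS.T a S (θ + (b : ℝ) / d)‖ ^ 2 := by
    intro θ
    rw [hGz, sum_mul]
    apply sum_le_sum
    intro d hd
    have h1 := MUR.t_MON S a θ d ρ (mem_filter.1 hd).2.1 (hD2 d hd)
    rw [one_div, mul_comm, ← div_eq_mul_inv]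
    exact h1
  have hsmo : smo Q Q = Icc 1 Q := by
    unfold MUR.smo
    rw [filter_true_of_mem]
    intro q hq p hp
    have h1 := mem_Icc.1 hq
    exact (Nat.le_of_dvd (by omega) (Nat.dvd_of_mem_primeFactors hp)).trans h1.2
  have hX : ∑ w ∈ S, ‖a w‖ ^ 2 = ((win P W U x).card : ℝ) := by
    rw [ha]
    simp only [norm_one, one_pow, sum_const, nsmul_eq_mul, mul_one]
    rw [hS, card_image_of_injOn hinj]
  have hls : Gz * ∑ m ∈ Icc 1 Q, ∑ b ∈ cop m, ‖MUR.LSS.T a S ((b : ℝ) / m)‖ ^ 2 ≤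
      6 * (U : ℝ) * (win P W U x).card := by
    calc Gz * ∑ m ∈ Icc 1 Q, ∑ b ∈ cop m, ‖MUR.LSS.T a S ((b : ℝ) / m)‖ ^ 2
        = ∑ q ∈ smo Q Q, ∑ b ∈ cop q, Gz * ‖MUR.LSS.T a S ((b : ℝ) / q)‖ ^ 2 := by
          rw [hsmo]
          simp only [mul_sum]
      _ ≤ ∑ q ∈ smo Q Q, ∑ y ∈ cop q, ∑ d ∈ 𝒟, ∑ b ∈ cop d,
            ‖MUR.LSS.T a S ((y : ℝ) / q + (b : ℝ) / d)‖ ^ 2 :=
          sum_le_sum fun q _ => sum_le_sum fun y _ => hm _
      _ ≤ ∑ n ∈ Icc 1 (Q * z), ∑ h ∈ cop n, ‖MUR.LSS.T a S ((h : ℝ) / n)‖ ^ 2 :=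
          MUR.LSS.combine 𝒟 hD1 a S
      _ ≤ 6 * (U : ℝ) * ∑ w ∈ S, ‖a w‖ ^ 2 := MUR.LSS.ls_T hU hSsub a
      _ = 6 * (U : ℝ) * (win P W U x).card := by rw [hX]
  simp only [hT] at hls
  refine (mul_le_mul_of_nonneg_right hdens ?_).trans hls
  exact sum_nonneg fun m _ => sum_nonneg fun b _ => by positivity

end LSPM

open LSPM in
theorem t_LSP : M_LSP := by
  classical
  intro hWIN
  obtain ⟨c, hc, hMER⟩ := MUR.t_MER
  refine ⟨6 / c, by positivity, ?_⟩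
  intro P W U Q z N hW1 hQ hz hW hU hP
  have hP1 : ∀ p ∈ P, W * U ≤ p ∧ p ≤ N := fun p hp => (hP p hp).2.2
  have hlogQ : 0 < Real.log (Q + 1) := by
    apply Real.log_pos
    have : (1 : ℝ) ≤ Q := by exact_mod_cast hQ
    linarith
  have hlogz : 0 < Real.log z := Real.log_pos (by exact_mod_cast (by omega : 1 < z))
  have h1 : ∀ θ : ℝ, en P W U θ = ∑ x ∈ range (N + 1), ‖∑ u ∈ win P W U x, e ((u : ℝ) * θ)‖ ^ 2 :=
    fun θ => (hWIN P W U N θ hW1 hP1).1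
  have h2 := (hWIN P W U N 0 hW1 hP1).2
  have h3 : ∑ m ∈ Icc 1 Q, ∑ a ∈ cop m, en P W U ((a : ℝ) / m) =
      ∑ x ∈ range (N + 1), ∑ m ∈ Icc 1 Q, ∑ a ∈ cop m,
        ‖∑ u ∈ win P W U x, e ((u : ℝ) * ((a : ℝ) / m))‖ ^ 2 := by
    simp only [h1]
    rw [sum_comm (s := range (N + 1))]
    refine sum_congr rfl fun m _ => ?_
    rw [sum_comm]
  set E : ℝ := ∑ m ∈ Icc 1 Q, ∑ a ∈ cop m, en P W U ((a : ℝ) / m) with hE
  have h4 : (c / Real.log (Q + 1) * Real.log z) * E ≤ 6 * (U : ℝ) * ((U : ℝ) * P.card) := by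
    rw [h3, mul_sum]
    refine (sum_le_sum fun x _ => window P W U Q z x hQ hz (hMER Q hQ) hW hW1 hU
      (fun p hp => ⟨(hP p hp).1, (hP p hp).2.1⟩)).trans ?_
    rw [← mul_sum]
    refine mul_le_mul_of_nonneg_left (le_of_eq ?_) (by positivity)
    exact_mod_cast h2
  have h5 : 0 < c / Real.log (Q + 1) * Real.log z := by positivity
  have h6 : E ≤ 6 * (U : ℝ) * ((U : ℝ) * P.card) / (c / Real.log (Q + 1) * Real.log z) := by
    rw [le_div_iff₀ h5, mul_comm]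
    exact h4
  refine h6.trans (le_of_eq ?_)
  field_simp

end Pool.Agent.CDP
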