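import Pool.Agent.CDP.Stmts

set_option autoImplicit false

/-!
# Project CDP, module MIN: minor arcs by summation by parts
-/

namespace Pool.Agent.CDP

open Finset
open Pool.Agent.Lib_helper83.EF (e)
open MUR (cop)

namespace MINM

theorem re_e (x : ℝ) : (e x).re = Real.cos (2 * Real.pi * x) := by
  have h : e x = Complex.exp (((2 * Real.pi * x : ℝ) : ℂ) * Complex.I) := by
    unfold Pool.Agent.Lib_helper83.EF.e
    push_cast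
    ring_nf
  rw [h, Complex.exp_ofReal_mul_I_re]

theorem cos_sum_le (α : ℝ) (T : ℕ) :
    |∑ t ∈ Icc 1 T, Real.cos (2 * Real.pi * ((t : ℝ) ^ 3 * α))| ≤
      ‖∑ t ∈ Icc 1 T, e ((t : ℝ) ^ 3 * α)‖ := by
  have h : ∑ t ∈ Icc 1 T, Real.cos (2 * Real.pi * ((t : ℝ) ^ 3 * α)) =
      (∑ t ∈ Icc 1 T, e ((t : ℝ) ^ 3 * α)).re := by
    rw [Complex.re_sum]
    exact Finset.sum_congr rfl fun t _ => (re_e _).symm
  rw [h]
  exact Complex.abs_re_le_norm _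

/-- the three terms of the inequality of Weyl -/
theorem three (x y M : ℝ) (hy : 1 ≤ y) (hyx : y ≤ x) (hM : 1 ≤ M) (h1 : x ≤ M ^ 2)
    (h2 : M ^ 2 ≤ x ^ 5) :
    y ^ (4 + 1 / 20 : ℝ) * (1 / M + 1 / y + M / y ^ 3) ≤ 3 * x ^ (18 / 5 : ℝ) := by
  have hx : 1 ≤ x := hy.trans hyx
  have hx0 : 0 < x := by linarith
  have hy0 : 0 < y := by linarith
  have hM0 : 0 < M := by linarith
  have a1 : x ^ (1 / 2 : ℝ) ≤ M := by
    refine le_of_sq_le_sq ?_ hM0.le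
    rw [← Real.rpow_natCast (x ^ (1 / 2 : ℝ)) 2, ← Real.rpow_mul hx0.le]
    norm_num
    exact h1
  have a2 : M ≤ x ^ (5 / 2 : ℝ) := by
    refine le_of_sq_le_sq ?_ (by positivity)
    rw [← Real.rpow_natCast (x ^ (5 / 2 : ℝ)) 2, ← Real.rpow_mul hx0.le]
    have : x ^ ((5 / 2 : ℝ) * ((2 : ℕ) : ℝ)) = x ^ (5 : ℕ) := by
      rw [← Real.rpow_natCast]
      norm_num
    rw [this]
    exact h2
  have b1 : y ^ (4 + 1 / 20 : ℝ) * (1 / M) ≤ x ^ (18 / 5 : ℝ) := by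
    rw [mul_one_div, div_le_iff₀ hM0]
    calc y ^ (4 + 1 / 20 : ℝ) ≤ x ^ (4 + 1 / 20 : ℝ) :=
          Real.rpow_le_rpow hy0.le hyx (by norm_num)
      _ ≤ x ^ (18 / 5 + 1 / 2 : ℝ) := Real.rpow_le_rpow_of_exponent_le hx (by norm_num)
      _ = x ^ (18 / 5 : ℝ) * x ^ (1 / 2 : ℝ) := Real.rpow_add hx0 _ _
      _ ≤ x ^ (18 / 5 : ℝ) * M := mul_le_mul_of_nonneg_left a1 (by positivity)
  have b2 : y ^ (4 + 1 / 20 : ℝ) * (1 / y) ≤ x ^ (18 / 5 : ℝ) := by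
    rw [mul_one_div, div_le_iff₀ hy0]
    calc y ^ (4 + 1 / 20 : ℝ) = y ^ (3 + 1 / 20 : ℝ) * y := by
          rw [← Real.rpow_add_one hy0.ne']
          norm_num
      _ ≤ x ^ (3 + 1 / 20 : ℝ) * y := by
          refine mul_le_mul_of_nonneg_right ?_ hy0.le
          exact Real.rpow_le_rpow hy0.le hyx (by norm_num)
      _ ≤ x ^ (18 / 5 : ℝ) * y := by
          refine mul_le_mul_of_nonneg_right ?_ hy0.le
          exact Real.rpow_le_rpow_of_exponent_le hx (by norm_num)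
  have b3 : y ^ (4 + 1 / 20 : ℝ) * (M / y ^ 3) ≤ x ^ (18 / 5 : ℝ) := by
    rw [mul_div_assoc', div_le_iff₀ (by positivity)]
    calc y ^ (4 + 1 / 20 : ℝ) * M = y ^ (1 + 1 / 20 : ℝ) * M * y ^ 3 := by
          have : y ^ (4 + 1 / 20 : ℝ) = y ^ (1 + 1 / 20 : ℝ) * y ^ 3 := by
            rw [← Real.rpow_natCast y 3, ← Real.rpow_add hy0]
            norm_num
          rw [this]
          ring
      _ ≤ x ^ (18 / 5 : ℝ) * y ^ 3 := by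
          refine mul_le_mul_of_nonneg_right ?_ (by positivity)
          calc y ^ (1 + 1 / 20 : ℝ) * M ≤ x ^ (1 + 1 / 20 : ℝ) * x ^ (5 / 2 : ℝ) := by
                refine mul_le_mul ?_ a2 hM0.le (by positivity)
                exact Real.rpow_le_rpow hy0.le hyx (by norm_num)
            _ = x ^ (1 + 1 / 20 + 5 / 2 : ℝ) := (Real.rpow_add hx0 _ _).symm
            _ ≤ x ^ (18 / 5 : ℝ) := Real.rpow_le_rpow_of_exponent_le hx (by norm_num)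
  calc y ^ (4 + 1 / 20 : ℝ) * (1 / M + 1 / y + M / y ^ 3)
      = y ^ (4 + 1 / 20 : ℝ) * (1 / M) + y ^ (4 + 1 / 20 : ℝ) * (1 / y) +
        y ^ (4 + 1 / 20 : ℝ) * (M / y ^ 3) := by ring
    _ ≤ 3 * x ^ (18 / 5 : ℝ) := by linarith

/-- a step of the weight -/
theorem step (T t : ℕ) (ht : 1 ≤ t) (htT : t + 1 ≤ T) :
    |wt T (t + 1) - wt T t| ≤ 15 * (T : ℝ) ^ 4 := by
  have h1 : (1 : ℝ) ≤ t := by exact_mod_cast ht
  have h2 : (t : ℝ) + 1 ≤ T := by exact_mod_cast htT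
  have e1 : wt T (t + 1) - wt T t = 6 * (t : ℝ) * ((T : ℝ) ^ 3 - ((t : ℝ) + 1) ^ 3) -
      (3 * (t : ℝ) ^ 2 - 3 * t + 1) * (3 * (t : ℝ) ^ 2 + 3 * t + 1) := by
    unfold wt
    push_cast
    ring
  have hT : (0 : ℝ) ≤ T := by linarith
  have h3 : ((t : ℝ) + 1) ^ 3 ≤ (T : ℝ) ^ 3 := pow_le_pow_left₀ (by linarith) h2 3
  have h4 : 0 ≤ ((t : ℝ) + 1) ^ 3 := by positivity
  have h5 : 6 * (t : ℝ) * ((T : ℝ) ^ 3 - ((t : ℝ) + 1) ^ 3) ≤ 6 * (T : ℝ) ^ 4 := by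
    calc 6 * (t : ℝ) * ((T : ℝ) ^ 3 - ((t : ℝ) + 1) ^ 3) ≤ 6 * (T : ℝ) * (T : ℝ) ^ 3 := by
          refine mul_le_mul (by linarith) (by linarith) (by linarith) (by positivity)
      _ = 6 * (T : ℝ) ^ 4 := by ring
  have h6 : 0 ≤ 6 * (t : ℝ) * ((T : ℝ) ^ 3 - ((t : ℝ) + 1) ^ 3) :=
    mul_nonneg (by linarith) (by linarith)
  have h7 : 3 * (t : ℝ) ^ 2 + 3 * t + 1 ≤ 3 * (T : ℝ) ^ 2 := by
    have : ((t : ℝ) + 1) ^ 2 ≤ (T : ℝ) ^ 2 := pow_le_pow_left₀ (by linarith) h2 2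
    nlinarith
  have h8 : 3 * (t : ℝ) ^ 2 - 3 * t + 1 ≤ 3 * (T : ℝ) ^ 2 := by linarith
  have h9 : 0 ≤ 3 * (t : ℝ) ^ 2 - 3 * t + 1 := by nlinarith
  have h10 : (3 * (t : ℝ) ^ 2 - 3 * t + 1) * (3 * (t : ℝ) ^ 2 + 3 * t + 1) ≤ 9 * (T : ℝ) ^ 4 := by
    calc (3 * (t : ℝ) ^ 2 - 3 * t + 1) * (3 * (t : ℝ) ^ 2 + 3 * t + 1)
        ≤ (3 * (T : ℝ) ^ 2) * (3 * (T : ℝ) ^ 2) :=
          mul_le_mul h8 h7 (by positivity) (by positivity)
      _ = 9 * (T : ℝ) ^ 4 := by ring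
  have h11 : 0 ≤ (3 * (t : ℝ) ^ 2 - 3 * t + 1) * (3 * (t : ℝ) ^ 2 + 3 * t + 1) :=
    mul_nonneg h9 (by positivity)
  rw [e1, abs_le]
  have h12 : 0 ≤ (T : ℝ) ^ 4 := by positivity
  constructor <;> linarith

/-- summation by parts -/
theorem parts (T : ℕ) (c : ℕ → ℝ) (B : ℝ) (hT : 1 ≤ T)
    (hB : ∀ T' ≤ T, |∑ t ∈ Icc 1 T', c t| ≤ B) :
    |∑ t ∈ Icc 1 T, wt T t * c t| ≤ 15 * (T : ℝ) ^ 5 * B := by
  obtain ⟨n, rfl⟩ : ∃ n, T = n + 1 := ⟨T - 1, by omega⟩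
  have hB0 : 0 ≤ B := (abs_nonneg _).trans (hB 0 (Nat.zero_le _))
  have conv : ∀ (k : ℕ) (f : ℕ → ℝ), ∑ t ∈ Icc 1 k, f t = ∑ t ∈ range k, f (t + 1) := by
    intro k f
    rw [Finset.range_eq_Ico, Finset.sum_Ico_add' f 0 k 1]
    rfl
  rw [conv]
  have h1 := Finset.sum_range_by_parts (fun i => wt (n + 1) (i + 1)) (fun i => c (i + 1)) (n + 1)
  simp only [smul_eq_mul, Nat.add_sub_cancel] at h1
  rw [h1]
  have h2 : wt (n + 1) (n + 1) = 0 := by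
    unfold wt
    rw [sub_self, mul_zero]
  rw [h2, zero_mul, zero_sub, abs_neg]
  calc |∑ i ∈ range n, (wt (n + 1) (i + 1 + 1) - wt (n + 1) (i + 1)) *
          ∑ j ∈ range (i + 1), c (j + 1)|
      ≤ ∑ i ∈ range n, |(wt (n + 1) (i + 1 + 1) - wt (n + 1) (i + 1)) *
          ∑ j ∈ range (i + 1), c (j + 1)| := Finset.abs_sum_le_sum_abs _ _
    _ ≤ ∑ i ∈ range n, 15 * ((n + 1 : ℕ) : ℝ) ^ 4 * B := by
        refine Finset.sum_le_sum fun i hi => ?_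
        rw [Finset.mem_range] at hi
        rw [abs_mul, ← conv]
        exact mul_le_mul (step (n + 1) (i + 1) (by omega) (by omega)) (hB (i + 1) (by omega))
          (abs_nonneg _) (by positivity)
    _ = (n : ℝ) * (15 * ((n + 1 : ℕ) : ℝ) ^ 4 * B) := by
        rw [Finset.sum_const, Finset.card_range, nsmul_eq_mul]
    _ ≤ ((n + 1 : ℕ) : ℝ) * (15 * ((n + 1 : ℕ) : ℝ) ^ 4 * B) := by
        refine mul_le_mul_of_nonneg_right ?_ (by positivity)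
        push_cast
        linarith
    _ = 15 * ((n + 1 : ℕ) : ℝ) ^ 5 * B := by ring

end MINM

theorem t_MIN : M_MIN := by
  rintro ⟨C, hC, hW⟩
  set D : ℝ := max 1 (3 * C) with hD
  have hD1 : 1 ≤ D := le_max_left _ _
  have hD3 : 3 * C ≤ D ^ 4 := by
    calc 3 * C ≤ D := le_max_right _ _
      _ = D ^ 1 := (pow_one D).symm
      _ ≤ D ^ 4 := pow_le_pow_right₀ hD1 (by norm_num)
  refine ⟨15 * D, by positivity, fun α a m T hm hT hco hα h1 h2 => ?_⟩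
  have hTr : (1 : ℝ) ≤ T := by exact_mod_cast hT
  have hT0 : (0 : ℝ) < T := by linarith
  have hmr : (1 : ℝ) ≤ m := by exact_mod_cast hm
  have h1r : (T : ℝ) ≤ (m : ℝ) ^ 2 := by exact_mod_cast h1
  have h2r : (m : ℝ) ^ 2 ≤ (T : ℝ) ^ 5 := by exact_mod_cast h2
  have hB : ∀ T' ≤ T, |∑ t ∈ Icc 1 T', Real.cos (2 * Real.pi * ((t : ℝ) ^ 3 * α))| ≤
      D * (T : ℝ) ^ (9 / 10 : ℝ) := by
    intro T' hT'
    refine (MINM.cos_sum_le α T').trans ?_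
    rcases Nat.eq_zero_or_pos T' with h0 | h0
    · subst h0
      simp only [Finset.Icc_eq_empty_of_lt one_pos, Finset.sum_empty, norm_zero]
      positivity
    · have hw := hW α a m T' hm h0 hco hα
      have h3 := MINM.three (T : ℝ) T' m (by exact_mod_cast h0) (by exact_mod_cast hT') hmr h1r h2r
      have h4 : ‖∑ t ∈ Icc 1 T', e ((t : ℝ) ^ 3 * α)‖ ^ 4 ≤
          (D * (T : ℝ) ^ (9 / 10 : ℝ)) ^ 4 := by
        calc ‖∑ t ∈ Icc 1 T', e ((t : ℝ) ^ 3 * α)‖ ^ 4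
            ≤ C * (T' : ℝ) ^ (4 + 1 / 20 : ℝ) *
              (1 / (m : ℝ) + 1 / (T' : ℝ) + (m : ℝ) / (T' : ℝ) ^ 3) := hw
          _ = C * ((T' : ℝ) ^ (4 + 1 / 20 : ℝ) *
              (1 / (m : ℝ) + 1 / (T' : ℝ) + (m : ℝ) / (T' : ℝ) ^ 3)) := by ring
          _ ≤ C * (3 * (T : ℝ) ^ (18 / 5 : ℝ)) := mul_le_mul_of_nonneg_left h3 hC.le
          _ = (3 * C) * (T : ℝ) ^ (18 / 5 : ℝ) := by ring
          _ ≤ D ^ 4 * (T : ℝ) ^ (18 / 5 : ℝ) := mul_le_mul_of_nonneg_right hD3 (by positivity)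
          _ = (D * (T : ℝ) ^ (9 / 10 : ℝ)) ^ 4 := by
            rw [mul_pow, ← Real.rpow_natCast ((T : ℝ) ^ (9 / 10 : ℝ)) 4, ← Real.rpow_mul hT0.le]
            norm_num
      exact le_of_pow_le_pow_left₀ (by norm_num) (by positivity) h4
  have h5 := MINM.parts T (fun t => Real.cos (2 * Real.pi * ((t : ℝ) ^ 3 * α))) _ hT hB
  unfold ker
  refine h5.trans (le_of_eq ?_)
  have h6 : (T : ℝ) ^ (6 - 1 / 10 : ℝ) = (T : ℝ) ^ 5 * (T : ℝ) ^ (9 / 10 : ℝ) := by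
    rw [← Real.rpow_natCast (T : ℝ) 5, ← Real.rpow_add hT0]
    norm_num
  rw [h6]
  ring

end Pool.Agent.CDP
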