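import Pool.Agent.CDP.Stmts

set_option autoImplicit false

/-!
# MOD: the model is close to the kernel everywhere
-/

namespace Pool.Agent.CDP

open Finset
open MUR (cop)

namespace MODM

/-- Different fractions are far apart modulo one. -/
theorem far {a m a' m' N : ℕ} (hm : 1 ≤ m) (hm' : 1 ≤ m') (ha : a < m) (ha' : a' < m')
    (hc : a.Coprime m) (hc' : a'.Coprime m') (hne : ¬ (m' = m ∧ a' = a)) (α : ℝ)
    (h : |α - (a : ℝ) / m| ≤ 1 / (((N : ℝ) + 1) * m)) (hN : 2 * m' ≤ N + 1) :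
    1 / (2 * (m : ℝ) * m') ≤ |(α - (a' : ℝ) / m') - round (α - (a' : ℝ) / m')| := by
  set k : ℤ := round (α - (a' : ℝ) / m') with hk
  have hmr : (0 : ℝ) < m := by exact_mod_cast hm
  have hmr' : (0 : ℝ) < m' := by exact_mod_cast hm'
  set z : ℤ := (a : ℤ) * m' - a' * m - k * m * m' with hz
  have hz0 : z ≠ 0 := by
    intro h0
    rw [hz] at h0
    have h1 : (a : ℤ) * m' = m * (a' + k * m') := by linarith
    have h2 : (a' : ℤ) * m = m' * (a - k * m) := by linarith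
    have h3 : m ∣ a * m' := by
      have : (m : ℤ) ∣ ((a * m' : ℕ) : ℤ) := ⟨a' + k * m', by push_cast; exact h1⟩
      exact_mod_cast this
    have h4 : m' ∣ a' * m := by
      have : (m' : ℤ) ∣ ((a' * m : ℕ) : ℤ) := ⟨a - k * m, by push_cast; exact h2⟩
      exact_mod_cast this
    have h5 : m ∣ m' := hc.symm.dvd_of_dvd_mul_left h3
    have h6 : m' ∣ m := hc'.symm.dvd_of_dvd_mul_left h4
    have h7 : m' = m := Nat.dvd_antisymm h6 h5
    subst h7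
    apply hne
    refine ⟨rfl, ?_⟩
    have hmz : (0 : ℤ) < m' := by exact_mod_cast hm'
    have h8 : (a : ℤ) = a' + k * m' := by
      have h9 : (m' : ℤ) * a = m' * (a' + k * m') := by linarith
      exact mul_left_cancel₀ hmz.ne' h9
    have haz : (a : ℤ) < m' := by exact_mod_cast ha
    have haz' : (a' : ℤ) < m' := by exact_mod_cast ha'
    have h10 : (0 : ℤ) ≤ a := Int.natCast_nonneg _
    have h11 : (0 : ℤ) ≤ a' := Int.natCast_nonneg _
    have hk0 : k = 0 := by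
      rcases lt_trichotomy k 0 with hk1 | hk1 | hk1
      · have : k * (m' : ℤ) ≤ -1 * m' := mul_le_mul_of_nonneg_right (by omega) hmz.le
        linarith
      · exact hk1
      · have : 1 * (m' : ℤ) ≤ k * m' := mul_le_mul_of_nonneg_right (by omega) hmz.le
        linarith
    rw [hk0, zero_mul, add_zero] at h8
    exact_mod_cast h8.symm
  have hz1 : (1 : ℝ) ≤ |(z : ℝ)| := by
    have := Int.one_le_abs hz0
    exact_mod_cast this
  have e : (a : ℝ) / m - (a' : ℝ) / m' - k = (z : ℝ) / (m * m') := by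
    rw [hz]
    push_cast
    field_simp
  have h1 : 1 / ((m : ℝ) * m') ≤ |(a : ℝ) / m - (a' : ℝ) / m' - k| := by
    rw [e, abs_div, abs_of_pos (by positivity : (0 : ℝ) < m * m')]
    exact div_le_div_of_nonneg_right hz1 (by positivity)
  have h2 : |(a : ℝ) / m - (a' : ℝ) / m' - k| ≤
      |α - (a' : ℝ) / m' - k| + |α - (a : ℝ) / m| := by
    have : (a : ℝ) / m - (a' : ℝ) / m' - k = (α - (a' : ℝ) / m' - k) - (α - (a : ℝ) / m) := by ring
    rw [this]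
    exact abs_sub _ _
  have h3 : 1 / (((N : ℝ) + 1) * m) ≤ 1 / (2 * (m' : ℝ) * m) := by
    have h4 : (2 * (m' : ℝ)) ≤ (N : ℝ) + 1 := by exact_mod_cast hN
    exact one_div_le_one_div_of_le (by positivity) (mul_le_mul_of_nonneg_right h4 hmr.le)
  have h5 : 1 / ((m : ℝ) * m') = 1 / (2 * (m : ℝ) * m') + 1 / (2 * (m' : ℝ) * m) := by
    field_simp
    norm_num
  linarith

/-- The terms of the model with different fractions. -/
theorem rest (U Q m a : ℕ) (α : ℝ)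
    (hf0 : ∀ θ : ℝ, 0 ≤ fej U θ) (hf2 : ∀ θ : ℝ, fej U θ * (4 * |θ - round θ| ^ 2) ≤ 1)
    (hg : ∀ a m : ℕ, |gam a m| ≤ 1) (hm : 1 ≤ m) (ha : a ∈ cop m)
    (hd : ∀ m' ∈ Icc 1 Q, ∀ a' ∈ cop m', ¬ (m' = m ∧ a' = a) →
      1 / (2 * (m : ℝ) * m') ≤ |(α - (a' : ℝ) / m') - round (α - (a' : ℝ) / m')|) :
    |(∑ m' ∈ Icc 1 Q, ∑ a' ∈ cop m', gam a' m' * fej U (α - (a' : ℝ) / m')) -
      (if m ≤ Q then gam a m * fej U (α - (a : ℝ) / m) else 0)| ≤ (Q : ℝ) ^ 4 * (m : ℝ) ^ 2 := by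
  classical
  have hmr : (0 : ℝ) < m := by exact_mod_cast hm
  have e1 : (∑ m' ∈ Icc 1 Q, ∑ a' ∈ cop m', if m' = m ∧ a' = a then
      gam a' m' * fej U (α - (a' : ℝ) / m') else 0) =
      (if m ≤ Q then gam a m * fej U (α - (a : ℝ) / m) else 0) := by
    by_cases h : m ≤ Q
    · rw [if_pos h, Finset.sum_eq_single m, Finset.sum_eq_single a]
      · rw [if_pos ⟨rfl, rfl⟩]
      · intro b _ hb
        rw [if_neg (fun h => hb h.2)]
      · intro h1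
        exact absurd ha h1
      · intro b _ hb
        refine Finset.sum_eq_zero fun a' _ => ?_
        rw [if_neg (fun h => hb h.1)]
      · intro h1
        exact absurd (mem_Icc.2 ⟨hm, h⟩) h1
    · rw [if_neg h]
      refine Finset.sum_eq_zero fun m' hm' => Finset.sum_eq_zero fun a' _ => ?_
      rw [if_neg]
      rintro ⟨rfl, -⟩
      exact h (mem_Icc.1 hm').2
  rw [← e1, ← Finset.sum_sub_distrib]
  have h1 : ∀ m' ∈ Icc 1 Q, |(∑ a' ∈ cop m', gam a' m' * fej U (α - (a' : ℝ) / m')) -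
      ∑ a' ∈ cop m', (if m' = m ∧ a' = a then gam a' m' * fej U (α - (a' : ℝ) / m') else 0)| ≤
      (Q : ℝ) * ((Q : ℝ) ^ 2 * (m : ℝ) ^ 2) := by
    intro m' hm'
    have hm1 := (mem_Icc.1 hm').1
    have hm2 := (mem_Icc.1 hm').2
    have hmr' : (0 : ℝ) < m' := by exact_mod_cast hm1
    have hmQ : (m' : ℝ) ≤ Q := by exact_mod_cast hm2
    rw [← Finset.sum_sub_distrib]
    refine (Finset.abs_sum_le_sum_abs _ _).trans ?_
    have h2 : ∀ a' ∈ cop m', |gam a' m' * fej U (α - (a' : ℝ) / m') -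
        (if m' = m ∧ a' = a then gam a' m' * fej U (α - (a' : ℝ) / m') else 0)| ≤
        (Q : ℝ) ^ 2 * (m : ℝ) ^ 2 := by
      intro a' ha'
      by_cases hs : m' = m ∧ a' = a
      · rw [if_pos hs, sub_self, abs_zero]
        positivity
      · rw [if_neg hs, sub_zero, abs_mul, abs_of_nonneg (hf0 _)]
        have h3 := hd m' hm' a' ha' hs
        set θ : ℝ := α - (a' : ℝ) / m' with hθ
        have h4 : 0 < 1 / (2 * (m : ℝ) * m') := by positivity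
        have h5 : (1 / (2 * (m : ℝ) * m')) ^ 2 ≤ |θ - round θ| ^ 2 := pow_le_pow_left₀ h4.le h3 2
        have h6 : fej U θ * (4 * (1 / (2 * (m : ℝ) * m')) ^ 2) ≤ 1 :=
          (mul_le_mul_of_nonneg_left (mul_le_mul_of_nonneg_left h5 (by norm_num)) (hf0 θ)).trans
            (hf2 θ)
        have h7 : 4 * (1 / (2 * (m : ℝ) * m')) ^ 2 = 1 / ((m : ℝ) * m') ^ 2 := by
          field_simp
          norm_num
        rw [h7, mul_one_div, div_le_iff₀ (by positivity), one_mul] at h6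
        calc |gam a' m'| * fej U θ ≤ 1 * fej U θ :=
              mul_le_mul_of_nonneg_right (hg _ _) (hf0 θ)
          _ = fej U θ := one_mul _
          _ ≤ ((m : ℝ) * m') ^ 2 := h6
          _ = (m' : ℝ) ^ 2 * (m : ℝ) ^ 2 := by ring
          _ ≤ (Q : ℝ) ^ 2 * (m : ℝ) ^ 2 :=
              mul_le_mul_of_nonneg_right (pow_le_pow_left₀ hmr'.le hmQ 2) (by positivity)
    refine (Finset.sum_le_sum h2).trans ?_
    rw [Finset.sum_const, nsmul_eq_mul]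
    refine mul_le_mul_of_nonneg_right ?_ (by positivity)
    have h8 : (cop m').card ≤ m' := by
      unfold MUR.cop
      exact (Finset.card_filter_le _ _).trans (by rw [card_range])
    exact_mod_cast h8.trans hm2
  refine (Finset.abs_sum_le_sum_abs _ _).trans ((Finset.sum_le_sum h1).trans ?_)
  rw [Finset.sum_const, nsmul_eq_mul, Nat.card_Icc, Nat.add_sub_cancel]
  exact le_of_eq (by ring)

/-- Powers. -/
theorem pw {T Q : ℕ} (hT : 1 ≤ T) (hQ : 1 ≤ Q) (h : Q ^ 20 ≤ T) :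
    (Q : ℝ) ^ 4 ≤ (T : ℝ) ^ ((1 : ℝ) / 5) ∧
    (T : ℝ) ^ ((59 : ℝ) / 10) ≤ (T : ℝ) ^ 6 * (Q : ℝ) ^ (-(1 / 5) : ℝ) ∧
    (T : ℝ) ^ 5 * √(T : ℝ) ≤ (T : ℝ) ^ ((59 : ℝ) / 10) ∧
    (Q : ℝ) ^ 4 * (T : ℝ) ^ 5 ≤ (T : ℝ) ^ ((59 : ℝ) / 10) := by
  have ht1 : (1 : ℝ) ≤ T := by exact_mod_cast hT
  have ht0 : (0 : ℝ) < T := by linarith
  have hq1 : (1 : ℝ) ≤ Q := by exact_mod_cast hQ
  have hq0 : (0 : ℝ) < Q := by linarith
  have hQT : (Q : ℝ) ^ 20 ≤ T := by exact_mod_cast h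
  have h1 : (Q : ℝ) ^ 4 ≤ (T : ℝ) ^ ((1 : ℝ) / 5) := by
    have e := Real.pow_rpow_inv_natCast (x := (Q : ℝ) ^ 4) (by positivity) (n := 5) (by norm_num)
    rw [← e]
    have e2 : ((5 : ℕ) : ℝ)⁻¹ = (1 : ℝ) / 5 := by norm_num
    rw [e2, ← pow_mul]
    exact Real.rpow_le_rpow (by positivity) hQT (by norm_num)
  have h2 : (T : ℝ) ^ 5 = (T : ℝ) ^ (5 : ℝ) := by
    rw [← Real.rpow_natCast]
    norm_num
  refine ⟨h1, ?_, ?_, ?_⟩
  · have h3 : (Q : ℝ) ^ ((1 : ℝ) / 5) ≤ (T : ℝ) ^ ((1 : ℝ) / 10) := by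
      have h4 : (Q : ℝ) ^ 2 ≤ T := (pow_le_pow_right₀ hq1 (by norm_num)).trans hQT
      have e : (Q : ℝ) ^ ((1 : ℝ) / 5) = ((Q : ℝ) ^ 2) ^ ((1 : ℝ) / 10) := by
        rw [← Real.rpow_natCast, ← Real.rpow_mul hq0.le]
        congr 1
        norm_num
      rw [e]
      exact Real.rpow_le_rpow (by positivity) h4 (by norm_num)
    have e : (T : ℝ) ^ ((59 : ℝ) / 10) = (T : ℝ) ^ 6 * ((T : ℝ) ^ ((1 : ℝ) / 10))⁻¹ := by
      have e6 : (T : ℝ) ^ 6 = (T : ℝ) ^ (6 : ℝ) := by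
        rw [← Real.rpow_natCast]
        norm_num
      rw [e6, ← Real.rpow_neg ht0.le, ← Real.rpow_add ht0]
      congr 1
      norm_num
    rw [e, Real.rpow_neg hq0.le]
    refine mul_le_mul_of_nonneg_left ?_ (by positivity)
    exact inv_anti₀ (by positivity) h3
  · rw [h2, Real.sqrt_eq_rpow, ← Real.rpow_add ht0]
    exact Real.rpow_le_rpow_of_exponent_le ht1 (by norm_num)
  · refine (mul_le_mul_of_nonneg_right h1 (by positivity)).trans ?_
    rw [h2, ← Real.rpow_add ht0]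
    exact Real.rpow_le_rpow_of_exponent_le ht1 (by norm_num)

/-- The near term. -/
theorem near {C3 C4 : ℝ} (hC3 : 0 < C3) (hC4 : 0 < C4)
    (h1 : ∀ (β : ℝ) (a m T : ℕ), 1 ≤ m → 1 ≤ T →
      |ker T ((a : ℝ) / m + β) - gam a m * ker T β| ≤ C3 * m * (T : ℝ) ^ 5 * (1 + (T : ℝ) ^ 3 * |β|))
    (h2 : ∀ (β : ℝ) (T : ℕ), 1 ≤ T →
      |ker T β - fej (T ^ 3) β / 2| ≤ C4 * (T : ℝ) ^ 5 * (1 + (T : ℝ) ^ 3 * |β|))
    (hg : ∀ a m : ℕ, |gam a m| ≤ 1) {T m a : ℕ} (hT : 1 ≤ T) (hm : 1 ≤ m) (hmT : m ^ 2 ≤ T) (α : ℝ)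
    (h : |α - (a : ℝ) / m| ≤ 1 / (((Nat.sqrt (T ^ 5) : ℝ) + 1) * m)) :
    |ker T α - gam a m * (fej (T ^ 3) (α - (a : ℝ) / m) / 2)| ≤
      2 * (C3 + C4) * ((T : ℝ) ^ 5 * √(T : ℝ)) := by
  set β : ℝ := α - (a : ℝ) / m with hβ
  have ht1 : (1 : ℝ) ≤ T := by exact_mod_cast hT
  have ht0 : (0 : ℝ) < T := by linarith
  have hm1 : (1 : ℝ) ≤ m := by exact_mod_cast hm
  set s : ℝ := √(T : ℝ) with hs
  have hs2 : s ^ 2 = T := Real.sq_sqrt ht0.le
  have hs0 : 0 < s := Real.sqrt_pos.2 ht0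
  have hms : (m : ℝ) ≤ s := by
    rw [hs]
    exact Real.le_sqrt_of_sq_le (by exact_mod_cast hmT)
  have e1 : α = (a : ℝ) / m + β := by rw [hβ]; ring
  have h3 := h1 β a m T hm hT
  rw [← e1] at h3
  have h4 := h2 β T hT
  have h5 : |ker T α - gam a m * (fej (T ^ 3) β / 2)| ≤
      |ker T α - gam a m * ker T β| + |gam a m| * |ker T β - fej (T ^ 3) β / 2| := by
    rw [← abs_mul]
    have : ker T α - gam a m * (fej (T ^ 3) β / 2) =
        (ker T α - gam a m * ker T β) + gam a m * (ker T β - fej (T ^ 3) β / 2) := by ring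
    rw [this]
    exact abs_add_le _ _
  have h6 : |gam a m| * |ker T β - fej (T ^ 3) β / 2| ≤
      1 * (C4 * (T : ℝ) ^ 5 * (1 + (T : ℝ) ^ 3 * |β|)) :=
    mul_le_mul (hg a m) h4 (abs_nonneg _) (by norm_num)
  -- the size of `β`
  have hN : s ^ 5 ≤ (Nat.sqrt (T ^ 5) : ℝ) + 1 := by
    have h7 : T ^ 5 < (Nat.sqrt (T ^ 5) + 1) * (Nat.sqrt (T ^ 5) + 1) := Nat.lt_succ_sqrt _
    have h8 : (T : ℝ) ^ 5 < ((Nat.sqrt (T ^ 5) : ℝ) + 1) * ((Nat.sqrt (T ^ 5) : ℝ) + 1) := by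
      exact_mod_cast h7
    have h9 : (s ^ 5) ^ 2 ≤ ((Nat.sqrt (T ^ 5) : ℝ) + 1) ^ 2 := by
      calc (s ^ 5) ^ 2 = (s ^ 2) ^ 5 := by ring
        _ = (T : ℝ) ^ 5 := by rw [hs2]
        _ ≤ _ := by rw [sq]; exact h8.le
    exact abs_le_of_sq_le_sq' h9 (by positivity) |>.2
  have hmβ : (m : ℝ) * ((T : ℝ) ^ 3 * |β|) ≤ s := by
    have h10 : |β| ≤ 1 / (s ^ 5 * m) :=
      h.trans (one_div_le_one_div_of_le (by positivity) (mul_le_mul_of_nonneg_right hN (by linarith)))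
    calc (m : ℝ) * ((T : ℝ) ^ 3 * |β|) ≤ m * ((T : ℝ) ^ 3 * (1 / (s ^ 5 * m))) :=
          mul_le_mul_of_nonneg_left (mul_le_mul_of_nonneg_left h10 (by positivity)) (by linarith)
      _ = (T : ℝ) ^ 3 / s ^ 5 := by field_simp
      _ = s ^ 6 / s ^ 5 := by rw [← hs2]; ring
      _ = s := by field_simp
  have h11 : (m : ℝ) * (1 + (T : ℝ) ^ 3 * |β|) ≤ 2 * s := by linarith
  have h12 : 1 + (T : ℝ) ^ 3 * |β| ≤ 2 * s := by
    refine le_trans ?_ h11
    have : 0 ≤ 1 + (T : ℝ) ^ 3 * |β| := by positivity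
    nlinarith
  calc |ker T α - gam a m * (fej (T ^ 3) β / 2)| ≤
        C3 * m * (T : ℝ) ^ 5 * (1 + (T : ℝ) ^ 3 * |β|) +
          1 * (C4 * (T : ℝ) ^ 5 * (1 + (T : ℝ) ^ 3 * |β|)) := by linarith
    _ = (C3 * (T : ℝ) ^ 5) * (m * (1 + (T : ℝ) ^ 3 * |β|)) +
          (C4 * (T : ℝ) ^ 5) * (1 + (T : ℝ) ^ 3 * |β|) := by ring
    _ ≤ (C3 * (T : ℝ) ^ 5) * (2 * s) + (C4 * (T : ℝ) ^ 5) * (2 * s) :=
        add_le_add (mul_le_mul_of_nonneg_left h11 (by positivity))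
          (mul_le_mul_of_nonneg_left h12 (by positivity))
    _ = _ := by ring

/-- The main case. -/
theorem core {C1 C2 C3 C4 : ℝ} (hC1 : 0 < C1) (hC2 : 0 < C2) (hC3 : 0 < C3) (hC4 : 0 < C4)
    (hG : ∀ a m : ℕ, 1 ≤ m → a.Coprime m → |gam a m| ≤ C1 * (m : ℝ) ^ (-(1 / 5) : ℝ))
    (hM : ∀ (α : ℝ) (a : ℤ) (m T : ℕ), 1 ≤ m → 1 ≤ T →
      IsCoprime a (m : ℤ) → |α - (a : ℝ) / m| ≤ 1 / (m : ℝ) ^ 2 → T ≤ m ^ 2 → m ^ 2 ≤ T ^ 5 →
      |ker T α| ≤ C2 * (T : ℝ) ^ (6 - 1 / 10 : ℝ))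
    (h1 : ∀ (β : ℝ) (a m T : ℕ), 1 ≤ m → 1 ≤ T →
      |ker T ((a : ℝ) / m + β) - gam a m * ker T β| ≤ C3 * m * (T : ℝ) ^ 5 * (1 + (T : ℝ) ^ 3 * |β|))
    (h2 : ∀ (β : ℝ) (T : ℕ), 1 ≤ T →
      |ker T β - fej (T ^ 3) β / 2| ≤ C4 * (T : ℝ) ^ 5 * (1 + (T : ℝ) ^ 3 * |β|))
    (hF : S_FJB) {T Q m a : ℕ} (hT : 2 ≤ T) (hQ : 1 ≤ Q) (hQT : Q ^ 20 ≤ T) (ha : a ∈ cop m)
    (hmN : m ≤ Nat.sqrt (T ^ 5)) (α : ℝ)
    (h : |α - (a : ℝ) / m| ≤ 1 / (((Nat.sqrt (T ^ 5) : ℝ) + 1) * m)) :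
    |ker T α - model T Q α| ≤
      (C1 + C2 + 2 * (C3 + C4) + 1) * ((T : ℝ) ^ 6 * (Q : ℝ) ^ (-(1 / 5) : ℝ)) := by
  have ham : a < m ∧ a.Coprime m := by
    unfold MUR.cop at ha
    rw [mem_filter, mem_range] at ha
    exact ha
  have hm : 1 ≤ m := by omega
  have hm0 : (0 : ℝ) < m := by exact_mod_cast hm
  have hT1 : 1 ≤ T := by omega
  have ht0 : (0 : ℝ) < T := by exact_mod_cast hT1
  have hq0 : (0 : ℝ) < Q := by exact_mod_cast hQ
  obtain ⟨p1, p2, p3, p4⟩ := pw hT1 hQ hQT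
  set X : ℝ := (T : ℝ) ^ 6 * (Q : ℝ) ^ (-(1 / 5) : ℝ) with hX
  have hX0 : 0 ≤ X := by positivity
  have hf0 : ∀ θ : ℝ, 0 ≤ fej (T ^ 3) θ := fun θ => (hF.1 _ θ).1
  have hf1 : ∀ θ : ℝ, fej (T ^ 3) θ ≤ (T : ℝ) ^ 6 := by
    intro θ
    have := (hF.1 (T ^ 3) θ).2
    push_cast at this
    calc fej (T ^ 3) θ ≤ ((T : ℝ) ^ 3) ^ 2 := this
      _ = (T : ℝ) ^ 6 := by ring
  have hf2 : ∀ θ : ℝ, fej (T ^ 3) θ * (4 * |θ - round θ| ^ 2) ≤ 1 := fun θ => hF.2.1 _ θ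
  have hg := hF.2.2.1
  have hm5 : m ^ 2 ≤ T ^ 5 := by
    have := Nat.sqrt_le' (T ^ 5)
    calc m ^ 2 ≤ (Nat.sqrt (T ^ 5)) ^ 2 := Nat.pow_le_pow_left hmN 2
      _ ≤ T ^ 5 := this
  have hQN : 2 * Q ≤ Nat.sqrt (T ^ 5) := by
    rw [Nat.le_sqrt]
    calc 2 * Q * (2 * Q) = 4 * Q ^ 2 := by ring
      _ ≤ 4 * Q ^ 20 := Nat.mul_le_mul_left _ (Nat.pow_le_pow_right hQ (by norm_num))
      _ ≤ T ^ 4 * T := by
          refine Nat.mul_le_mul ?_ hQT
          calc 4 ≤ 2 ^ 4 := by norm_num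
            _ ≤ T ^ 4 := Nat.pow_le_pow_left hT 4
      _ = T ^ 5 := by ring
  have hrest := rest (T ^ 3) Q m a α hf0 hf2 hg hm ha (fun m' hm' a' ha' hne => by
    have ham' : a' < m' ∧ a'.Coprime m' := by
      unfold MUR.cop at ha'
      rw [mem_filter, mem_range] at ha'
      exact ha'
    exact far hm (mem_Icc.1 hm').1 ham.1 ham'.1 ham.2 ham'.2 hne α h
      (by have := (mem_Icc.1 hm').2; omega))
  have hR : (Q : ℝ) ^ 4 * (m : ℝ) ^ 2 ≤ X := by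
    refine le_trans (mul_le_mul_of_nonneg_left ?_ (by positivity)) (p4.trans p2)
    exact_mod_cast hm5
  have key : ∀ s : ℝ, s = (if m ≤ Q then gam a m * fej (T ^ 3) (α - (a : ℝ) / m) else 0) →
      |ker T α - s / 2| ≤ (C1 + C2 + 2 * (C3 + C4)) * X →
      |ker T α - model T Q α| ≤ (C1 + C2 + 2 * (C3 + C4) + 1) * X := by
    intro s hs hk
    rw [← hs] at hrest
    unfold model
    set S : ℝ := ∑ m' ∈ Icc 1 Q, ∑ a' ∈ cop m', gam a' m' * fej (T ^ 3) (α - (a' : ℝ) / m')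
    have e : ker T α - S / 2 = (ker T α - s / 2) - (S - s) / 2 := by ring
    rw [e]
    have h3 : |(S - s) / 2| ≤ X := by
      rw [abs_div, abs_of_pos (by norm_num : (0 : ℝ) < 2)]
      linarith [abs_nonneg (S - s)]
    calc |(ker T α - s / 2) - (S - s) / 2| ≤ |ker T α - s / 2| + |(S - s) / 2| := abs_sub _ _
      _ ≤ (C1 + C2 + 2 * (C3 + C4)) * X + X := add_le_add hk h3
      _ = _ := by ring
  have hTX : (T : ℝ) ^ 5 * √(T : ℝ) ≤ X := p3.trans p2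
  by_cases hmT : m ^ 2 ≤ T
  · have hn := near hC3 hC4 h1 h2 hg hT1 hm hmT α h
    have hn' : |ker T α - gam a m * (fej (T ^ 3) (α - (a : ℝ) / m) / 2)| ≤
        2 * (C3 + C4) * X :=
      hn.trans (mul_le_mul_of_nonneg_left hTX (by positivity))
    by_cases hmQ : m ≤ Q
    · refine key _ (by rw [if_pos hmQ]) ?_
      rw [mul_div_assoc]
      refine hn'.trans (mul_le_mul_of_nonneg_right (by linarith) hX0)
    · refine key 0 (by rw [if_neg hmQ]) ?_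
      rw [zero_div, sub_zero]
      have h3 : |gam a m * (fej (T ^ 3) (α - (a : ℝ) / m) / 2)| ≤ C1 * X := by
        rw [abs_mul, abs_of_nonneg (by linarith [hf0 (α - (a : ℝ) / m)] :
          (0 : ℝ) ≤ fej (T ^ 3) (α - (a : ℝ) / m) / 2)]
        have h4 : |gam a m| ≤ C1 * (Q : ℝ) ^ (-(1 / 5) : ℝ) := by
          refine (hG a m hm ham.2).trans (mul_le_mul_of_nonneg_left ?_ hC1.le)
          exact Real.rpow_le_rpow_of_nonpos hq0 (by exact_mod_cast (by omega : Q ≤ m))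
            (by norm_num)
        have h5 : fej (T ^ 3) (α - (a : ℝ) / m) / 2 ≤ (T : ℝ) ^ 6 := by
          linarith [hf0 (α - (a : ℝ) / m), hf1 (α - (a : ℝ) / m)]
        calc |gam a m| * (fej (T ^ 3) (α - (a : ℝ) / m) / 2) ≤
              (C1 * (Q : ℝ) ^ (-(1 / 5) : ℝ)) * (T : ℝ) ^ 6 :=
              mul_le_mul h4 h5 (by linarith [hf0 (α - (a : ℝ) / m)]) (by positivity)
          _ = C1 * X := by rw [hX]; ring
      have e : ker T α = (ker T α - gam a m * (fej (T ^ 3) (α - (a : ℝ) / m) / 2)) +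
          gam a m * (fej (T ^ 3) (α - (a : ℝ) / m) / 2) := by ring
      rw [e]
      refine (abs_add_le _ _).trans ?_
      have h6 := add_le_add hn' h3
      refine h6.trans ?_
      have h7 : 0 ≤ C2 * X := by positivity
      linarith [h7]
  · have hTm : T ≤ m ^ 2 := by omega
    have hmQ : ¬ m ≤ Q := by
      intro hmQ
      have h3 : m ^ 2 ≤ Q ^ 2 := Nat.pow_le_pow_left hmQ 2
      rcases Nat.lt_or_ge 1 Q with h4 | h4
      · have h5 : Q ^ 2 < Q ^ 20 := Nat.pow_lt_pow_right h4 (by norm_num)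
        omega
      · have h6 : Q = 1 := by omega
        rw [h6, one_pow] at h3
        omega
    refine key 0 (by rw [if_neg hmQ]) ?_
    rw [zero_div, sub_zero]
    have h3 : |α - (((a : ℕ) : ℤ) : ℝ) / m| ≤ 1 / (m : ℝ) ^ 2 := by
      rw [Int.cast_natCast]
      refine h.trans (one_div_le_one_div_of_le (by positivity) ?_)
      rw [sq]
      refine mul_le_mul_of_nonneg_right ?_ hm0.le
      have : (m : ℝ) ≤ (Nat.sqrt (T ^ 5) : ℝ) := by exact_mod_cast hmN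
      linarith
    have h4 := hM α (a : ℤ) m T hm hT1 (Nat.isCoprime_iff_coprime.2 ham.2) h3 hTm hm5
    rw [show (6 - 1 / 10 : ℝ) = 59 / 10 from by norm_num] at h4
    refine h4.trans ((mul_le_mul_of_nonneg_left p2 hC2.le).trans ?_)
    refine mul_le_mul_of_nonneg_right ?_ hX0
    linarith

/-- The case `T = 1`. -/
theorem one (hF : S_FJB) (α : ℝ) : |ker 1 α - model 1 1 α| ≤ 1 := by
  have h1 : ker 1 α = 0 := by
    unfold ker wt
    simp
  rw [h1, zero_sub, abs_neg]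
  unfold model
  rw [Icc_self, sum_singleton]
  have h2 : cop 1 = {0} := by
    unfold MUR.cop
    decide
  rw [h2, sum_singleton, abs_div, abs_of_pos (by norm_num : (0 : ℝ) < 2), abs_mul]
  have h3 := hF.2.2.1 0 1
  have h4 := hF.1 (1 ^ 3) (α - ((0 : ℕ) : ℝ) / ((1 : ℕ) : ℝ))
  rw [abs_of_nonneg h4.1]
  have h5 : fej (1 ^ 3) (α - ((0 : ℕ) : ℝ) / ((1 : ℕ) : ℝ)) ≤ 1 := by
    have := h4.2
    norm_num at this ⊢
    exact this
  have h6 := mul_le_mul h3 h5 h4.1 (by norm_num)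
  linarith

end MODM

open MODM in
theorem t_MOD : M_MOD := by
  intro hG hM hA1 hA2 hF
  obtain ⟨C1, hC1, hG⟩ := hG
  obtain ⟨C2, hC2, hM⟩ := hM
  obtain ⟨C3, hC3, h1⟩ := hA1
  obtain ⟨C4, hC4, h2⟩ := hA2
  refine ⟨C1 + C2 + 2 * (C3 + C4) + 1, by positivity, ?_⟩
  intro T Q α hT hQ hQT
  rw [mul_assoc]
  rcases Nat.lt_or_ge T 2 with hT2 | hT2
  · have hT1 : T = 1 := by omega
    subst hT1
    have hQ1 : Q = 1 := by
      by_contra hne
      have h3 : 1 < Q := by omega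
      have h4 : Q ≤ Q ^ 20 := Nat.le_self_pow (by norm_num) Q
      omega
    subst hQ1
    have h5 := one hF α
    rw [Nat.cast_one, one_pow, Real.one_rpow, mul_one, mul_one]
    linarith
  · set N := Nat.sqrt (T ^ 5) with hN
    have hN0 : 0 < N := by
      rw [hN]
      exact Nat.sqrt_pos.2 (by positivity)
    obtain ⟨r, hr1, hr2⟩ := Real.exists_rat_abs_sub_le_and_den_le α hN0
    have hd : 0 < r.den := r.den_pos
    set c : ℤ := r.num / (r.den : ℤ) with hc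
    have hdz : (0 : ℤ) < r.den := by exact_mod_cast hd
    have h0 : 0 ≤ r.num % (r.den : ℤ) := Int.emod_nonneg _ hdz.ne'
    obtain ⟨a, ha⟩ := Int.eq_ofNat_of_zero_le h0
    have hlt : a < r.den := by
      have := Int.emod_lt_of_pos r.num hdz
      rw [ha] at this
      exact_mod_cast this
    have hnum : r.num = a + c * r.den := by
      have h7 := Int.emod_add_mul_ediv r.num (r.den : ℤ)
      rw [ha] at h7
      have h8 : (a : ℤ) + (r.den : ℤ) * (r.num / (r.den : ℤ)) = r.num := h7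
      rw [hc, mul_comm]
      exact h8.symm
    have hcop : a.Coprime r.den := by
      have h3 : IsCoprime r.num (r.den : ℤ) := by
        rw [Int.isCoprime_iff_gcd_eq_one]
        exact r.reduced
      rw [hnum] at h3
      have h4 : IsCoprime (a : ℤ) (r.den : ℤ) := by
        have := IsCoprime.add_mul_right_left_iff (x := (a : ℤ)) (y := (r.den : ℤ)) (z := c)
        exact this.1 h3
      exact Nat.isCoprime_iff_coprime.1 h4
    have hmem : a ∈ cop r.den := by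
      unfold MUR.cop
      rw [mem_filter, mem_range]
      exact ⟨hlt, hcop⟩
    have hden : (0 : ℝ) < r.den := by exact_mod_cast hd
    have e1 : (α - c) - (a : ℝ) / r.den = α - (r : ℝ) := by
      have e2 : (r : ℝ) = (r.num : ℝ) / r.den := by
        exact_mod_cast (Rat.num_div_den r).symm
      rw [e2, hnum]
      push_cast
      field_simp
      ring
    have h3 : |(α - c) - (a : ℝ) / r.den| ≤ 1 / (((Nat.sqrt (T ^ 5) : ℝ) + 1) * r.den) := by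
      rw [e1]
      exact hr1
    have h4 := core hC1 hC2 hC3 hC4 hG hM h1 h2 hF hT2 hQ hQT hmem hr2 (α - c) h3
    have h5 := hF.2.2.2.1 T Q (α - c) c
    rw [sub_add_cancel] at h5
    rw [h5.1, h5.2.1]
    exact h4

end Pool.Agent.CDP
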