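import Pool.Agent.CDP.Stmts

/-!
# Three Parseval integrals
-/

set_option autoImplicit false

namespace Pool.Agent.CDP

open Finset
open Pool.Agent.Lib_helper83.EF (e)
open MUR (cop)

namespace PARM

theorem int_cos (k : ℤ) (c : ℝ) :
    (∫ α in (0 : ℝ)..1, Real.cos (2 * Real.pi * ((k : ℝ) * α + c))) =
      if k = 0 then Real.cos (2 * Real.pi * c) else 0 := by
  split_ifs with hk
  · subst hk
    simp
  · have hk' : (2 * Real.pi * (k : ℝ)) ≠ 0 := by
      have : (k : ℝ) ≠ 0 := by exact_mod_cast hk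
      have := Real.pi_ne_zero
      positivity
    have h1 : ∀ α : ℝ, Real.cos (2 * Real.pi * ((k : ℝ) * α + c)) =
        Real.cos (2 * Real.pi * (k : ℝ) * α + 2 * Real.pi * c) := fun α => by ring_nf
    simp only [h1]
    rw [intervalIntegral.integral_comp_mul_add _ hk', integral_cos]
    have h2 : Real.sin (2 * Real.pi * (k : ℝ) * 1 + 2 * Real.pi * c) =
        Real.sin (2 * Real.pi * (k : ℝ) * 0 + 2 * Real.pi * c) := by
      rw [mul_zero, zero_add, mul_one, add_comm, show 2 * Real.pi * (k : ℝ) = k * (2 * Real.pi) by ring,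
        Real.sin_add_int_mul_two_pi]
    rw [h2, sub_self, smul_zero]

theorem norm_sq_sum (S : Finset ℕ) (f : ℕ → ℝ) :
    ‖∑ u ∈ S, e (f u)‖ ^ 2 = ∑ u ∈ S, ∑ v ∈ S, Real.cos (2 * Real.pi * (f u - f v)) := by
  have hre : ∀ x : ℝ, (e x).re = Real.cos (2 * Real.pi * x) := by
    intro x
    unfold e
    rw [show (2 * Real.pi * x * Complex.I : ℂ) = ((2 * Real.pi * x : ℝ) : ℂ) * Complex.I by
      push_cast; ring]
    exact Complex.exp_ofReal_mul_I_re _
  have him : ∀ x : ℝ, (e x).im = Real.sin (2 * Real.pi * x) := by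
    intro x
    unfold e
    rw [show (2 * Real.pi * x * Complex.I : ℂ) = ((2 * Real.pi * x : ℝ) : ℂ) * Complex.I by
      push_cast; ring]
    exact Complex.exp_ofReal_mul_I_im _
  rw [← Complex.normSq_eq_norm_sq, Complex.normSq_apply, Complex.re_sum, Complex.im_sum,
    Finset.sum_mul_sum, Finset.sum_mul_sum, ← Finset.sum_add_distrib]
  refine Finset.sum_congr rfl fun u _ => ?_
  rw [← Finset.sum_add_distrib]
  refine Finset.sum_congr rfl fun v _ => ?_
  rw [hre, hre, him, him, mul_sub, Real.cos_sub]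

theorem prod_cos (a b : ℤ) (θ : ℝ) :
    (∫ α in (0 : ℝ)..1, Real.cos (2 * Real.pi * ((a : ℝ) * α)) *
      Real.cos (2 * Real.pi * ((b : ℝ) * (α - θ)))) =
      ((if a = b then 1 else 0) + (if a = -b then 1 else 0)) / 2 *
        Real.cos (2 * Real.pi * ((a : ℝ) * θ)) := by
  have h1 : ∀ α : ℝ, Real.cos (2 * Real.pi * ((a : ℝ) * α)) *
      Real.cos (2 * Real.pi * ((b : ℝ) * (α - θ))) =
      (Real.cos (2 * Real.pi * (((a - b : ℤ) : ℝ) * α + b * θ)) +
        Real.cos (2 * Real.pi * (((a + b : ℤ) : ℝ) * α + -(b * θ)))) * (1 / 2) := by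
    intro α
    have e1 : 2 * Real.pi * (((a - b : ℤ) : ℝ) * α + b * θ) =
        2 * Real.pi * ((a : ℝ) * α) - 2 * Real.pi * ((b : ℝ) * (α - θ)) := by push_cast; ring
    have e2 : 2 * Real.pi * (((a + b : ℤ) : ℝ) * α + -(b * θ)) =
        2 * Real.pi * ((a : ℝ) * α) + 2 * Real.pi * ((b : ℝ) * (α - θ)) := by push_cast; ring
    rw [e1, e2, Real.cos_sub, Real.cos_add]
    ring
  have hi : ∀ (k : ℤ) (c : ℝ), IntervalIntegrable
      (fun α : ℝ => Real.cos (2 * Real.pi * ((k : ℝ) * α + c))) MeasureTheory.volume 0 1 :=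
    fun k c => Continuous.intervalIntegrable (by fun_prop) _ _
  simp only [h1]
  rw [intervalIntegral.integral_mul_const, intervalIntegral.integral_add (hi _ _) (hi _ _), int_cos,
    int_cos]
  have c1 : (if a - b = 0 then Real.cos (2 * Real.pi * (b * θ)) else 0) =
      (if a = b then 1 else 0) * Real.cos (2 * Real.pi * ((a : ℝ) * θ)) := by
    by_cases h : a = b
    · subst h; simp
    · rw [if_neg (by omega), if_neg h, zero_mul]
  have c2 : (if a + b = 0 then Real.cos (2 * Real.pi * (-(b * θ))) else 0) =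
      (if a = -b then 1 else 0) * Real.cos (2 * Real.pi * ((a : ℝ) * θ)) := by
    by_cases h : a = -b
    · subst h
      simp
    · rw [if_neg (by omega), if_neg h, zero_mul]
  rw [c1, c2]
  ring

theorem cnt_nat (U n : ℕ) :
    ∑ j ∈ range U, ∑ i ∈ range U, (if i = j + n then (1 : ℝ) else 0) = ((U - n : ℕ) : ℝ) := by
  have h1 : ∀ j ∈ range U, ∑ i ∈ range U, (if i = j + n then (1 : ℝ) else 0) =
      if j < U - n then 1 else 0 := by
    intro j _
    rw [Finset.sum_ite_eq']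
    by_cases h : j + n < U
    · rw [if_pos (Finset.mem_range.2 h), if_pos (by omega)]
    · rw [if_neg (by simpa using h), if_neg (by omega)]
  rw [Finset.sum_congr rfl h1, Finset.sum_boole]
  have h2 : (range U).filter (fun j => j < U - n) = range (U - n) := by
    ext j
    simp only [Finset.mem_filter, Finset.mem_range]
    omega
  rw [h2, Finset.card_range]

theorem cast_max (U n : ℕ) : ((U - n : ℕ) : ℝ) = max 0 ((U : ℝ) - n) := by
  rcases le_total n U with h | h
  · rw [Nat.cast_sub h, max_eq_right]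
    have : (n : ℝ) ≤ U := by exact_mod_cast h
    linarith
  · rw [Nat.sub_eq_zero_of_le h, Nat.cast_zero, max_eq_left]
    have : (U : ℝ) ≤ n := by exact_mod_cast h
    linarith

theorem cnt (U : ℕ) (a : ℤ) :
    ∑ i ∈ range U, ∑ j ∈ range U, (if a = (i : ℤ) - j then (1 : ℝ) else 0) =
      max 0 ((U : ℝ) - |(a : ℝ)|) := by
  rcases Int.le_total 0 a with h | h
  · obtain ⟨n, rfl⟩ := Int.eq_ofNat_of_zero_le h
    rw [Finset.sum_comm]
    have h1 : ∀ j ∈ range U, ∀ i ∈ range U, (if (n : ℤ) = (i : ℤ) - j then (1 : ℝ) else 0) =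
        if i = j + n then 1 else 0 := by
      intro j _ i _
      by_cases hh : i = j + n
      · rw [if_pos hh, if_pos (by omega)]
      · rw [if_neg hh, if_neg (by omega)]
    rw [Finset.sum_congr rfl fun j hj => Finset.sum_congr rfl (h1 j hj), cnt_nat, cast_max,
      Int.cast_natCast, Nat.abs_cast]
  · obtain ⟨n, hn⟩ := Int.eq_ofNat_of_zero_le (show 0 ≤ -a by omega)
    obtain rfl : a = -(n : ℤ) := by omega
    have h1 : ∀ i ∈ range U, ∀ j ∈ range U, (if -(n : ℤ) = (i : ℤ) - j then (1 : ℝ) else 0) =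
        if j = i + n then 1 else 0 := by
      intro j _ i _
      by_cases hh : i = j + n
      · rw [if_pos hh, if_pos (by omega)]
      · rw [if_neg hh, if_neg (by omega)]
    rw [Finset.sum_congr rfl fun i hi => Finset.sum_congr rfl (h1 i hi), cnt_nat, cast_max,
      Int.cast_neg, Int.cast_natCast, abs_neg, Nat.abs_cast]

/-- the integral of the square with a cosine -/
theorem int_sq (S : Finset ℕ) (b : ℤ) (θ : ℝ) :
    (∫ α in (0 : ℝ)..1, ‖∑ u ∈ S, e ((u : ℝ) * α)‖ ^ 2 *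
      Real.cos (2 * Real.pi * ((b : ℝ) * (α - θ)))) =
    ∑ u ∈ S, ∑ v ∈ S, ((if (u : ℤ) - v = b then 1 else 0) + (if (u : ℤ) - v = -b then 1 else 0)) / 2 *
      Real.cos (2 * Real.pi * (((u : ℝ) - v) * θ)) := by
  have h1 : ∀ α : ℝ, ‖∑ u ∈ S, e ((u : ℝ) * α)‖ ^ 2 *
      Real.cos (2 * Real.pi * ((b : ℝ) * (α - θ))) =
      ∑ u ∈ S, ∑ v ∈ S, Real.cos (2 * Real.pi * ((((u : ℤ) - v : ℤ) : ℝ) * α)) *
        Real.cos (2 * Real.pi * ((b : ℝ) * (α - θ))) := by
    intro α
    rw [norm_sq_sum, Finset.sum_mul]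
    refine Finset.sum_congr rfl fun u _ => ?_
    rw [Finset.sum_mul]
    refine Finset.sum_congr rfl fun v _ => ?_
    push_cast
    rw [sub_mul]
  have hi : ∀ u v : ℕ, IntervalIntegrable (fun α : ℝ =>
      Real.cos (2 * Real.pi * ((((u : ℤ) - v : ℤ) : ℝ) * α)) *
        Real.cos (2 * Real.pi * ((b : ℝ) * (α - θ)))) MeasureTheory.volume 0 1 :=
    fun u v => Continuous.intervalIntegrable (by fun_prop) _ _
  simp only [h1]
  rw [intervalIntegral.integral_finsetSum fun u _ =>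
    Continuous.intervalIntegrable (by fun_prop) _ _]
  refine Finset.sum_congr rfl fun u _ => ?_
  rw [intervalIntegral.integral_finsetSum fun v _ => hi u v]
  refine Finset.sum_congr rfl fun v _ => ?_
  rw [prod_cos]
  push_cast
  rfl

end PARM

open PARM in
theorem t_PAR : S_PAR := by
  classical
  intro S
  have hpairs : ∀ k : ℕ, ∑ u ∈ S, ∑ v ∈ S,
      ((if (u : ℤ) - v = (k : ℤ) then (1 : ℝ) else 0) + (if (u : ℤ) - v = -(k : ℤ) then 1 else 0)) / 2 =
      (((S ×ˢ S).filter (fun x => x.1 = x.2 + k)).card : ℝ) := by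
    intro k
    have e1 : ∑ u ∈ S, ∑ v ∈ S, (if (u : ℤ) - v = (k : ℤ) then (1 : ℝ) else 0) =
        (((S ×ˢ S).filter (fun x => x.1 = x.2 + k)).card : ℝ) := by
      rw [← Finset.sum_product', ← Finset.sum_boole]
      refine Finset.sum_congr rfl fun x _ => ?_
      by_cases hh : x.1 = x.2 + k
      · rw [if_pos hh, if_pos (by omega)]
      · rw [if_neg hh, if_neg (by omega)]
    have e2 : ∑ u ∈ S, ∑ v ∈ S, (if (u : ℤ) - v = -(k : ℤ) then (1 : ℝ) else 0) =
        (((S ×ˢ S).filter (fun x => x.1 = x.2 + k)).card : ℝ) := by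
      rw [Finset.sum_comm, ← e1]
      refine Finset.sum_congr rfl fun u _ => Finset.sum_congr rfl fun v _ => ?_
      by_cases hh : (u : ℤ) - v = (k : ℤ)
      · rw [if_pos hh, if_pos (by omega)]
      · rw [if_neg hh, if_neg (by omega)]
    simp only [← Finset.sum_div, Finset.sum_add_distrib]
    rw [e1, e2]
    ring
  have h2 : ∀ k : ℕ, (∫ α in (0 : ℝ)..1, ‖∑ u ∈ S, e ((u : ℝ) * α)‖ ^ 2 *
      Real.cos (2 * Real.pi * ((k : ℝ) * α))) =
      (((S ×ˢ S).filter (fun x => x.1 = x.2 + k)).card : ℝ) := by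
    intro k
    have h3 := int_sq S k 0
    simp only [Int.cast_natCast, sub_zero, mul_zero, Real.cos_zero, mul_one] at h3
    rw [h3, hpairs]
  refine ⟨?_, h2, fun U θ => ?_⟩
  · have h3 := h2 0
    simp only [Nat.cast_zero, zero_mul, mul_zero, Real.cos_zero, mul_one, add_zero] at h3
    rw [h3]
    congr 1
    refine Finset.card_bij' (fun x _ => x.1) (fun u _ => (u, u)) ?_ ?_ ?_ ?_
    · intro x hx
      exact (Finset.mem_product.1 (Finset.mem_filter.1 hx).1).1
    · intro u hu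
      exact Finset.mem_filter.2 ⟨Finset.mem_product.2 ⟨hu, hu⟩, rfl⟩
    · intro x hx
      exact Prod.ext rfl (Finset.mem_filter.1 hx).2
    · intro u _
      rfl
  · have h3 : ∀ α : ℝ, ‖∑ u ∈ S, e ((u : ℝ) * α)‖ ^ 2 * fej U (α - θ) =
        ∑ i ∈ range U, ∑ j ∈ range U, ‖∑ u ∈ S, e ((u : ℝ) * α)‖ ^ 2 *
          Real.cos (2 * Real.pi * ((((i : ℤ) - j : ℤ) : ℝ) * (α - θ))) := by
      intro α
      unfold fej
      rw [norm_sq_sum (range U), Finset.mul_sum]
      refine Finset.sum_congr rfl fun i _ => ?_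
      rw [Finset.mul_sum]
      refine Finset.sum_congr rfl fun j _ => ?_
      push_cast
      rw [sub_mul]
    have hF : Continuous fun α : ℝ => ‖∑ u ∈ S, e ((u : ℝ) * α)‖ ^ 2 := by
      unfold e
      fun_prop
    have hI2 : ∀ i j : ℕ, Continuous fun α : ℝ => ‖∑ u ∈ S, e ((u : ℝ) * α)‖ ^ 2 *
        Real.cos (2 * Real.pi * ((((i : ℤ) - j : ℤ) : ℝ) * (α - θ))) :=
      fun i j => hF.mul (by fun_prop)
    have hI1 : ∀ i : ℕ, Continuous fun α : ℝ => ∑ j ∈ range U, ‖∑ u ∈ S, e ((u : ℝ) * α)‖ ^ 2 *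
        Real.cos (2 * Real.pi * ((((i : ℤ) - j : ℤ) : ℝ) * (α - θ))) :=
      fun i => continuous_finsetSum _ fun j _ => hI2 i j
    simp only [h3]
    rw [intervalIntegral.integral_finsetSum fun i _ => (hI1 i).intervalIntegrable _ _]
    have h4 : ∀ i ∈ range U, (∫ α in (0 : ℝ)..1, ∑ j ∈ range U, ‖∑ u ∈ S, e ((u : ℝ) * α)‖ ^ 2 *
        Real.cos (2 * Real.pi * ((((i : ℤ) - j : ℤ) : ℝ) * (α - θ)))) =
        ∑ j ∈ range U, ∑ u ∈ S, ∑ v ∈ S,
          ((if (u : ℤ) - v = (i : ℤ) - j then 1 else 0) +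
            (if (u : ℤ) - v = -((i : ℤ) - j) then 1 else 0)) / 2 *
          Real.cos (2 * Real.pi * (((u : ℝ) - v) * θ)) := by
      intro i _
      rw [intervalIntegral.integral_finsetSum fun j _ => (hI2 i j).intervalIntegrable _ _]
      exact Finset.sum_congr rfl fun j _ => int_sq S _ θ
    rw [Finset.sum_congr rfl h4]
    have h5 : ∑ i ∈ range U, ∑ j ∈ range U, ∑ u ∈ S, ∑ v ∈ S,
          ((if (u : ℤ) - v = (i : ℤ) - j then (1 : ℝ) else 0) +
            (if (u : ℤ) - v = -((i : ℤ) - j) then 1 else 0)) / 2 *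
          Real.cos (2 * Real.pi * (((u : ℝ) - v) * θ)) =
        ∑ u ∈ S, ∑ v ∈ S, (∑ i ∈ range U, ∑ j ∈ range U,
          ((if (u : ℤ) - v = (i : ℤ) - j then (1 : ℝ) else 0) +
            (if (u : ℤ) - v = -((i : ℤ) - j) then 1 else 0)) / 2) *
          Real.cos (2 * Real.pi * (((u : ℝ) - v) * θ)) := by
      simp only [Finset.sum_mul]
      rw [Finset.sum_congr rfl fun i _ => Finset.sum_comm]
      rw [Finset.sum_comm]
      refine Finset.sum_congr rfl fun u _ => ?_
      rw [Finset.sum_congr rfl fun i _ => Finset.sum_comm]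
      rw [Finset.sum_comm]
    rw [h5]
    refine Finset.sum_congr rfl fun u _ => Finset.sum_congr rfl fun v _ => ?_
    congr 1
    have c1 := cnt U ((u : ℤ) - v)
    have c2 := cnt U (-((u : ℤ) - v))
    have c3 : ∑ i ∈ range U, ∑ j ∈ range U,
        (if (u : ℤ) - v = -((i : ℤ) - j) then (1 : ℝ) else 0) =
        ∑ i ∈ range U, ∑ j ∈ range U, (if -((u : ℤ) - v) = (i : ℤ) - j then (1 : ℝ) else 0) := by
      refine Finset.sum_congr rfl fun i _ => Finset.sum_congr rfl fun j _ => ?_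
      by_cases hh : (u : ℤ) - v = -((i : ℤ) - j)
      · rw [if_pos hh, if_pos (by omega)]
      · rw [if_neg hh, if_neg (by omega)]
    simp only [← Finset.sum_div, Finset.sum_add_distrib]
    rw [c3, c1, c2, Int.cast_neg, abs_neg]
    push_cast
    ring

end Pool.Agent.CDP
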