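import Pool.Agent.CDP.Stmts

/-!
# Module PIG: pigeonhole for a bounded sequence
-/

set_option autoImplicit false

namespace Pool.Agent.CDP

theorem t_PIG : S_PIG := by
  intro f I B h0 hI hB
  by_contra hcon
  push Not at hcon
  have key : ∀ i, i ≤ I → (9 / 8 : ℝ) ^ i * f 0 ≤ f i := by
    intro i
    induction i with
    | zero =>
      intro _
      rw [pow_zero, one_mul]
    | succ i ih =>
      intro hi
      have h1 := ih (by omega)
      have h2 := hcon i (by omega)
      rw [pow_succ]
      linarith
  have h1 := key I le_rfl
  have h2 : B * f 0 < (9 / 8 : ℝ) ^ I * f 0 := mul_lt_mul_of_pos_right hB h0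
  linarith

end Pool.Agent.CDP
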