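import Pool.Agent.CDP.Stmts

/-!
# WE1: two Weyl steps for the cubes
-/

set_option autoImplicit false

namespace Pool.Agent.CDP

open Finset
open Pool.Agent.Lib_helper83.EF (e)
open Pool.Agent.Lib_helper77.EF (e_add norm_e conj_e)

namespace WE1M

/-- The square of a sum as a double sum. -/
theorem sq_sum (g : ℕ → ℂ) (T : ℕ) :
    ‖∑ t ∈ range T, g t‖ ^ 2 = ∑ t ∈ range T, ‖g t‖ ^ 2 +
      2 * (∑ s ∈ range T, ∑ t ∈ range s, g s * (starRingEnd ℂ) (g t)).re := by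
  induction T with
  | zero => simp
  | succ T ih =>
    rw [sum_range_succ, sum_range_succ, sum_range_succ, ← Complex.normSq_eq_norm_sq,
      Complex.normSq_add, Complex.normSq_eq_norm_sq, Complex.normSq_eq_norm_sq, ih,
      ← mul_sum, ← map_sum, Complex.add_re]
    have h1 : ((∑ x ∈ range T, g x) * (starRingEnd ℂ) (g T)).re =
        (g T * (starRingEnd ℂ) (∑ x ∈ range T, g x)).re := by
      simp only [Complex.mul_re, Complex.conj_re, Complex.conj_im]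
      ring
    rw [h1]
    ring

/-- Sorting the pairs by the difference. -/
theorem sort (F : ℕ → ℕ → ℂ) (T : ℕ) :
    ∑ s ∈ range T, ∑ t ∈ range s, F s t =
      ∑ h ∈ range T, ∑ t ∈ range (T - 1 - h), F (t + h + 1) t := by
  induction T with
  | zero => simp
  | succ T ih =>
    rw [sum_range_succ, ih, sum_range_succ]
    have h0 : T + 1 - 1 - T = 0 := by omega
    rw [h0, sum_range_zero, add_zero]
    have h1 : ∀ h ∈ range T, ∑ t ∈ range (T + 1 - 1 - h), F (t + h + 1) t =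
        ∑ t ∈ range (T - 1 - h), F (t + h + 1) t + F T (T - 1 - h) := by
      intro h hh
      have hh' : h < T := mem_range.1 hh
      have h2 : T + 1 - 1 - h = (T - 1 - h) + 1 := by omega
      rw [h2, sum_range_succ]
      have h3 : T - 1 - h + h + 1 = T := by omega
      rw [h3]
    rw [sum_congr rfl h1, sum_add_distrib, sum_range_reflect (fun t => F T t) T]

/-- One Weyl step. -/
theorem weyl (g : ℕ → ℂ) (hg : ∀ t, ‖g t‖ = 1) (T : ℕ) :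
    ‖∑ t ∈ range T, g t‖ ^ 2 ≤ (T : ℝ) +
      2 * ∑ h ∈ range T, ‖∑ t ∈ range (T - 1 - h), g (t + h + 1) * (starRingEnd ℂ) (g t)‖ := by
  rw [sq_sum, sort]
  have h1 : ∑ t ∈ range T, ‖g t‖ ^ 2 = (T : ℝ) := by
    simp [hg]
  rw [h1]
  have h2 : (∑ h ∈ range T, ∑ t ∈ range (T - 1 - h), g (t + h + 1) * (starRingEnd ℂ) (g t)).re ≤
      ∑ h ∈ range T, ‖∑ t ∈ range (T - 1 - h), g (t + h + 1) * (starRingEnd ℂ) (g t)‖ :=
    (Complex.re_le_norm _).trans (norm_sum_le _ _)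
  linarith

theorem mn_nonneg (T : ℕ) (θ : ℝ) : 0 ≤ mn T θ := by
  unfold mn
  positivity

/-- The second step. -/
theorem second (hG : S_GEO) (T h : ℕ) (α : ℝ) (n : ℕ) (hn : n ≤ T) :
    ‖∑ t ∈ range n, e ((3 * ((h : ℝ) + 1) * ((t : ℝ) + 1) ^ 2 +
        3 * ((h : ℝ) + 1) ^ 2 * ((t : ℝ) + 1) + ((h : ℝ) + 1) ^ 3) * α)‖ ^ 2 ≤
      (T : ℝ) + 4 * ∑ g ∈ range T, mn T (6 * ((h : ℝ) + 1) * ((g : ℝ) + 1) * α) := by
  have h1 := weyl (fun t => e ((3 * ((h : ℝ) + 1) * ((t : ℝ) + 1) ^ 2 +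
        3 * ((h : ℝ) + 1) ^ 2 * ((t : ℝ) + 1) + ((h : ℝ) + 1) ^ 3) * α)) (fun t => norm_e _) n
  refine h1.trans ?_
  have hT : (n : ℝ) ≤ T := by exact_mod_cast hn
  have h2 : ∀ g ∈ range n, ‖∑ t ∈ range (n - 1 - g),
      e ((3 * ((h : ℝ) + 1) * (((t + g + 1 : ℕ) : ℝ) + 1) ^ 2 +
        3 * ((h : ℝ) + 1) ^ 2 * (((t + g + 1 : ℕ) : ℝ) + 1) + ((h : ℝ) + 1) ^ 3) * α) *
      (starRingEnd ℂ) (e ((3 * ((h : ℝ) + 1) * ((t : ℝ) + 1) ^ 2 +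
        3 * ((h : ℝ) + 1) ^ 2 * ((t : ℝ) + 1) + ((h : ℝ) + 1) ^ 3) * α))‖ ≤
      2 * mn T (6 * ((h : ℝ) + 1) * ((g : ℝ) + 1) * α) := by
    intro g hg
    have h3 : ∀ t : ℕ, e ((3 * ((h : ℝ) + 1) * (((t + g + 1 : ℕ) : ℝ) + 1) ^ 2 +
        3 * ((h : ℝ) + 1) ^ 2 * (((t + g + 1 : ℕ) : ℝ) + 1) + ((h : ℝ) + 1) ^ 3) * α) *
      (starRingEnd ℂ) (e ((3 * ((h : ℝ) + 1) * ((t : ℝ) + 1) ^ 2 +
        3 * ((h : ℝ) + 1) ^ 2 * ((t : ℝ) + 1) + ((h : ℝ) + 1) ^ 3) * α)) =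
        e ((3 * ((h : ℝ) + 1) * ((g : ℝ) + 1) ^ 2 + 3 * ((h : ℝ) + 1) ^ 2 * ((g : ℝ) + 1)) * α) *
          e (((t + 1 : ℕ) : ℝ) * (6 * ((h : ℝ) + 1) * ((g : ℝ) + 1) * α)) := by
      intro t
      rw [conj_e, ← e_add, ← e_add]
      congr 1
      push_cast
      ring
    rw [sum_congr rfl (fun t _ => h3 t), ← mul_sum, norm_mul, norm_e, one_mul]
    have h4 := hG T 0 (n - 1 - g) (6 * ((h : ℝ) + 1) * ((g : ℝ) + 1) * α) (by omega)
    have h5 : ∑ t ∈ Ioc 0 (0 + (n - 1 - g)), e ((t : ℝ) * (6 * ((h : ℝ) + 1) * ((g : ℝ) + 1) * α)) =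
        ∑ t ∈ range (n - 1 - g),
          e (((t + 1 : ℕ) : ℝ) * (6 * ((h : ℝ) + 1) * ((g : ℝ) + 1) * α)) := by
      rw [zero_add, ← sum_image (s := range (n - 1 - g)) (g := fun t => t + 1)
        (f := fun t : ℕ => e ((t : ℝ) * (6 * ((h : ℝ) + 1) * ((g : ℝ) + 1) * α)))
        (by intro a _ b _ hab; simpa using hab)]
      congr 1
      ext t
      simp only [mem_Ioc, mem_image, mem_range]
      constructor
      · rintro ⟨h6, h7⟩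
        exact ⟨t - 1, by omega, by omega⟩
      · rintro ⟨u, hu, rfl⟩
        omega
    rw [h5] at h4
    exact h4
  have h3 := sum_le_sum h2
  have h4 : ∑ g ∈ range n, 2 * mn T (6 * ((h : ℝ) + 1) * ((g : ℝ) + 1) * α) ≤
      ∑ g ∈ range T, 2 * mn T (6 * ((h : ℝ) + 1) * ((g : ℝ) + 1) * α) :=
    sum_le_sum_of_subset_of_nonneg (range_mono hn)
      (fun g _ _ => mul_nonneg (by norm_num) (mn_nonneg _ _))
  rw [← mul_sum] at h3
  rw [← mul_sum, ← mul_sum] at h4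
  linarith

end WE1M

open WE1M

theorem t_WE1 : M_WE1 := by
  intro hG T α hT
  have hT1 : (1 : ℝ) ≤ T := by exact_mod_cast hT
  -- sums over `Icc 1 T` and over `range T`
  have hconv : ∀ {M : Type} [AddCommMonoid M] (F : ℕ → M),
      ∑ t ∈ Icc 1 T, F t = ∑ t ∈ range T, F (t + 1) := by
    intro M _ F
    rw [← sum_image (s := range T) (g := fun t => t + 1) (f := F)
      (by intro a _ b _ hab; simpa using hab)]
    congr 1
    ext t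
    simp only [mem_Icc, mem_image, mem_range]
    constructor
    · rintro ⟨h6, h7⟩
      exact ⟨t - 1, by omega, by omega⟩
    · rintro ⟨u, hu, rfl⟩
      omega
  rw [hconv (fun t : ℕ => e ((t : ℝ) ^ 3 * α)),
    hconv (fun h : ℕ => ∑ g ∈ Icc 1 T, mn T (6 * (h : ℝ) * g * α))]
  have hrow : ∀ h : ℕ, ∑ g ∈ Icc 1 T, mn T (6 * ((h + 1 : ℕ) : ℝ) * g * α) =
      ∑ g ∈ range T, mn T (6 * ((h : ℝ) + 1) * ((g : ℝ) + 1) * α) := by
    intro h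
    rw [hconv (fun g : ℕ => mn T (6 * ((h + 1 : ℕ) : ℝ) * g * α))]
    refine sum_congr rfl fun g _ => ?_
    congr 1
    push_cast
    ring
  rw [sum_congr rfl (fun h _ => hrow h)]
  set S : ℂ := ∑ t ∈ range T, e (((t + 1 : ℕ) : ℝ) ^ 3 * α) with hS
  set A : ℕ → ℝ := fun h => ‖∑ t ∈ range (T - 1 - h),
    e ((3 * ((h : ℝ) + 1) * ((t : ℝ) + 1) ^ 2 +
        3 * ((h : ℝ) + 1) ^ 2 * ((t : ℝ) + 1) + ((h : ℝ) + 1) ^ 3) * α)‖ with hA
  set B : ℕ → ℝ := fun h => ∑ g ∈ range T, mn T (6 * ((h : ℝ) + 1) * ((g : ℝ) + 1) * α) with hB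
  have h1 : ‖S‖ ^ 2 ≤ (T : ℝ) + 2 * ∑ h ∈ range T, A h := by
    have h2 := weyl (fun t => e (((t + 1 : ℕ) : ℝ) ^ 3 * α)) (fun t => norm_e _) T
    refine h2.trans (le_of_eq ?_)
    congr 2
    refine sum_congr rfl fun h _ => ?_
    simp only [hA]
    congr 1
    refine sum_congr rfl fun t _ => ?_
    rw [conj_e, ← e_add]
    congr 1
    push_cast
    ring
  have hA0 : ∀ h, 0 ≤ A h := fun h => norm_nonneg _
  have h2 : ∀ h ∈ range T, A h ^ 2 ≤ (T : ℝ) + 4 * B h := by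
    intro h _
    exact second hG T h α (T - 1 - h) (by omega)
  have h3 : (∑ h ∈ range T, A h) ^ 2 ≤ (T : ℝ) * ∑ h ∈ range T, A h ^ 2 := by
    have h4 := sq_sum_le_card_mul_sum_sq (s := range T) (f := A)
    rwa [card_range] at h4
  have h5 : ∑ h ∈ range T, A h ^ 2 ≤ (T : ℝ) * T + 4 * ∑ h ∈ range T, B h := by
    refine (sum_le_sum h2).trans (le_of_eq ?_)
    rw [sum_add_distrib, ← mul_sum]
    simp
  have hAs : 0 ≤ ∑ h ∈ range T, A h := sum_nonneg fun h _ => hA0 h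
  have hn : 0 ≤ ‖S‖ ^ 2 := by positivity
  have h6 : ‖S‖ ^ 4 ≤ ((T : ℝ) + 2 * ∑ h ∈ range T, A h) ^ 2 := by
    have h7 : ‖S‖ ^ 4 = (‖S‖ ^ 2) ^ 2 := by ring
    rw [h7]
    exact pow_le_pow_left₀ hn h1 2
  have h7 : ((T : ℝ) + 2 * ∑ h ∈ range T, A h) ^ 2 ≤
      2 * (T : ℝ) ^ 2 + 8 * (∑ h ∈ range T, A h) ^ 2 := by
    nlinarith [sq_nonneg ((T : ℝ) - 2 * ∑ h ∈ range T, A h)]
  have h8 : (∑ h ∈ range T, A h) ^ 2 ≤ (T : ℝ) * ((T : ℝ) * T + 4 * ∑ h ∈ range T, B h) :=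
    h3.trans (mul_le_mul_of_nonneg_left h5 (by linarith))
  have h9 : 2 * (T : ℝ) ^ 2 ≤ 2 * (T : ℝ) ^ 3 := by nlinarith [sq_nonneg (T : ℝ)]
  calc ‖S‖ ^ 4 ≤ 2 * (T : ℝ) ^ 2 + 8 * (∑ h ∈ range T, A h) ^ 2 := h6.trans h7
    _ ≤ 2 * (T : ℝ) ^ 3 + 8 * ((T : ℝ) * ((T : ℝ) * T + 4 * ∑ h ∈ range T, B h)) := by linarith
    _ = 10 * (T : ℝ) ^ 3 + 32 * (T : ℝ) * ∑ h ∈ range T, B h := by ring

end Pool.Agent.CDP
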