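import Pool.Agent.CDP.Stmts

set_option autoImplicit false

/-!
# CDP, module WE2: the numbers `h α` are well spaced
-/

namespace Pool.Agent.CDP

open Finset
open Pool.Agent.Lib_helper83.EF (e)
open MUR (cop)

namespace WE2M

lemma mn_nonneg (T : ℕ) (θ : ℝ) : 0 ≤ mn T θ := by
  unfold mn
  positivity

lemma mn_le_T (T : ℕ) (θ : ℝ) : mn T θ ≤ T := by
  unfold mn
  have h : (0 : ℝ) ≤ T * |θ - round θ| := by positivity
  rw [div_le_iff₀ (by linarith)]
  have hT : (0 : ℝ) ≤ T := Nat.cast_nonneg T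
  nlinarith

lemma mn_le (T : ℕ) (θ L : ℝ) (hL : 0 < L) (h : L ≤ |θ - round θ|) : mn T θ ≤ 1 / L := by
  unfold mn
  have h0 : (0 : ℝ) ≤ T * |θ - round θ| := by positivity
  rw [div_le_div_iff₀ (by linarith) hL]
  have hT : (0 : ℝ) ≤ T := Nat.cast_nonneg T
  nlinarith [mul_le_mul_of_nonneg_left h hT]

/-- the bound for one term in terms of the residue class `i` -/
noncomputable def gb (T m i : ℕ) : ℝ :=
  (if i ≤ 2 then (T : ℝ) else 0) + (if m ≤ i + 2 then (T : ℝ) else 0) +
    3 * (m : ℝ) * (i : ℝ)⁻¹ + 3 * (m : ℝ) * ((m : ℝ) - i)⁻¹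

lemma gb_nonneg {T m i : ℕ} (hi : i < m) : 0 ≤ gb T m i := by
  unfold gb
  have h1 : (0 : ℝ) < (m : ℝ) - i := by
    have : (i : ℝ) < m := by exact_mod_cast hi
    linarith
  have h2 : (0 : ℝ) ≤ if i ≤ 2 then (T : ℝ) else 0 := by split_ifs <;> positivity
  have h3 : (0 : ℝ) ≤ if m ≤ i + 2 then (T : ℝ) else 0 := by split_ifs <;> positivity
  positivity

/-- the bound for one term -/
lemma term_bound {T m i : ℕ} (hi : i < m) {θ err ρ : ℝ} {s : ℤ}
    (hθ : θ - round θ = ((i : ℝ) + m * s + ρ) / m + err) (hρ0 : 0 ≤ ρ) (hρ1 : ρ ≤ 1)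
    (herr : |err| ≤ 1 / m) : mn T θ ≤ gb T m i := by
  have hm : (0 : ℝ) < m := by
    have : 0 < m := by omega
    exact_mod_cast this
  have him : (i : ℝ) < m := by exact_mod_cast hi
  have hT : (0 : ℝ) ≤ T := Nat.cast_nonneg T
  have hi0 : (0 : ℝ) ≤ (i : ℝ) := Nat.cast_nonneg i
  have p1 : 0 ≤ 3 * (m : ℝ) * (i : ℝ)⁻¹ := by positivity
  have p2 : 0 ≤ 3 * (m : ℝ) * ((m : ℝ) - i)⁻¹ := by
    have : (0 : ℝ) < (m : ℝ) - i := by linarith
    positivity
  by_cases h1 : i ≤ 2
  · have := mn_le_T T θ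
    unfold gb
    rw [if_pos h1]
    split_ifs <;> linarith
  by_cases h2 : m ≤ i + 2
  · have := mn_le_T T θ
    unfold gb
    rw [if_neg h1, if_pos h2]
    linarith
  unfold gb
  rw [if_neg h1, if_neg h2]
  push Not at h1 h2
  have h1' : (3 : ℝ) ≤ i := by exact_mod_cast h1
  have h2' : (i : ℝ) + 3 ≤ m := by exact_mod_cast h2
  have hkey : |((i : ℝ) + m * s)| / m - 2 / m ≤ |θ - round θ| := by
    rw [hθ]
    have e1 : ((i : ℝ) + m * s) / m = (((i : ℝ) + m * s + ρ) / m + err) - (ρ / m + err) := by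
      field_simp
      ring
    have e2 : |((i : ℝ) + m * s)| / m ≤ |((i : ℝ) + m * s + ρ) / m + err| + |ρ / m + err| := by
      rw [← abs_of_pos hm, ← abs_div, abs_of_pos hm, e1]
      exact abs_sub _ _
    have e3 : |ρ / m + err| ≤ 2 / m := by
      have f1 : |ρ / m| ≤ 1 / m := by
        rw [abs_of_nonneg (by positivity)]
        exact div_le_div_of_nonneg_right hρ1 hm.le
      have f2 := abs_add_le (ρ / m) err
      have f3 : (2 : ℝ) / m = 1 / m + 1 / m := by ring
      linarith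
    linarith
  rcases le_or_gt 0 s with hs | hs
  · have hs' : (0 : ℝ) ≤ s := by exact_mod_cast hs
    have g1 : (i : ℝ) ≤ |((i : ℝ) + m * s)| := by
      refine le_trans ?_ (le_abs_self _)
      have := mul_nonneg hm.le hs'
      linarith
    have g2 : (i : ℝ) / (3 * m) ≤ |θ - round θ| := by
      refine le_trans ?_ hkey
      have g3 : (i : ℝ) / m ≤ |((i : ℝ) + m * s)| / m := div_le_div_of_nonneg_right g1 hm.le
      have g4 : (i : ℝ) / (3 * m) ≤ (i : ℝ) / m - 2 / m := by
        rw [← sub_div, div_le_div_iff₀ (by positivity) hm]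
        nlinarith
      linarith
    have g5 := mn_le T θ _ (by positivity) g2
    have g6 : 1 / ((i : ℝ) / (3 * m)) = 3 * (m : ℝ) * (i : ℝ)⁻¹ := by
      rw [one_div_div, div_eq_mul_inv]
    rw [g6] at g5
    linarith
  · have hs' : (s : ℝ) ≤ -1 := by exact_mod_cast (by omega : s ≤ -1)
    have hd : (0 : ℝ) < (m : ℝ) - i := by linarith
    have g1 : (m : ℝ) - i ≤ |((i : ℝ) + m * s)| := by
      refine le_trans ?_ (neg_le_abs _)
      nlinarith
    have g2 : ((m : ℝ) - i) / (3 * m) ≤ |θ - round θ| := by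
      refine le_trans ?_ hkey
      have g3 : ((m : ℝ) - i) / m ≤ |((i : ℝ) + m * s)| / m := div_le_div_of_nonneg_right g1 hm.le
      have g4 : ((m : ℝ) - i) / (3 * m) ≤ ((m : ℝ) - i) / m - 2 / m := by
        rw [← sub_div, div_le_div_iff₀ (by positivity) hm]
        nlinarith
      linarith
    have g5 := mn_le T θ _ (by positivity) g2
    have g6 : 1 / (((m : ℝ) - i) / (3 * m)) = 3 * (m : ℝ) * ((m : ℝ) - i)⁻¹ := by
      rw [one_div_div, div_eq_mul_inv]
    rw [g6] at g5
    linarith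

lemma harm (n : ℕ) : ∑ i ∈ range n, ((i : ℝ) + 1)⁻¹ ≤ 1 + Real.log n := by
  have h := harmonic_le_one_add_log n
  unfold harmonic at h
  push_cast at h
  exact h

lemma log_mono_nat {a b : ℕ} (hab : a ≤ b) : Real.log a ≤ Real.log b := by
  rcases Nat.eq_zero_or_pos a with h | h
  · subst h
    simp only [Nat.cast_zero, Real.log_zero]
    rcases Nat.eq_zero_or_pos b with h' | h'
    · subst h'; simp
    · exact Real.log_nonneg (by exact_mod_cast h')
  · exact Real.log_le_log (by exact_mod_cast h) (by exact_mod_cast hab)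

lemma sum_gb (T m : ℕ) : ∑ i ∈ range m, gb T m i ≤ 5 * T + 6 * m * (1 + Real.log m) := by
  unfold gb
  rw [sum_add_distrib, sum_add_distrib, sum_add_distrib, ← mul_sum, ← mul_sum]
  have hT : (0 : ℝ) ≤ T := Nat.cast_nonneg T
  have hm : (0 : ℝ) ≤ m := Nat.cast_nonneg m
  have s1 : ∑ i ∈ range m, (if i ≤ 2 then (T : ℝ) else 0) ≤ 3 * T := by
    rw [← sum_filter, sum_const, nsmul_eq_mul]
    have : ((range m).filter (fun i => i ≤ 2)).card ≤ 3 := by
      calc ((range m).filter (fun i => i ≤ 2)).card ≤ (range 3).card := by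
            apply card_le_card
            intro i hi
            rw [mem_filter] at hi
            rw [mem_range]
            omega
        _ = 3 := card_range 3
    have h : (((range m).filter (fun i => i ≤ 2)).card : ℝ) ≤ 3 := by exact_mod_cast this
    exact mul_le_mul_of_nonneg_right h hT
  have s2 : ∑ i ∈ range m, (if m ≤ i + 2 then (T : ℝ) else 0) ≤ 2 * T := by
    rw [← sum_filter, sum_const, nsmul_eq_mul]
    have : ((range m).filter (fun i => m ≤ i + 2)).card ≤ 2 := by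
      calc ((range m).filter (fun i => m ≤ i + 2)).card ≤ (Ico (m - 2) m).card := by
            apply card_le_card
            intro i hi
            rw [mem_filter, mem_range] at hi
            rw [mem_Ico]
            omega
        _ ≤ 2 := by rw [Nat.card_Ico]; omega
    have h : (((range m).filter (fun i => m ≤ i + 2)).card : ℝ) ≤ 2 := by exact_mod_cast this
    exact mul_le_mul_of_nonneg_right h hT
  have s3 : ∑ i ∈ range m, ((i : ℝ))⁻¹ ≤ 1 + Real.log m := by
    rcases Nat.eq_zero_or_pos m with h | h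
    · subst h; simp
    · obtain ⟨k, rfl⟩ : ∃ k, m = k + 1 := ⟨m - 1, by omega⟩
      rw [sum_range_succ']
      simp only [Nat.cast_zero, inv_zero, add_zero]
      have h1 := harm k
      have h2 : Real.log k ≤ Real.log ((k + 1 : ℕ) : ℝ) := log_mono_nat (by omega)
      have h3 : ∑ i ∈ range k, (((i + 1 : ℕ) : ℝ))⁻¹ = ∑ i ∈ range k, ((i : ℝ) + 1)⁻¹ := by
        refine sum_congr rfl fun i _ => ?_
        push_cast
        rfl
      rw [h3]
      linarith
  have s4 : ∑ i ∈ range m, ((m : ℝ) - i)⁻¹ ≤ 1 + Real.log m := by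
    have h1 : ∑ i ∈ range m, ((m : ℝ) - i)⁻¹ = ∑ i ∈ range m, ((i : ℝ) + 1)⁻¹ := by
      rw [← sum_range_reflect (fun i => ((i : ℝ) + 1)⁻¹) m]
      refine sum_congr rfl fun i hi => ?_
      rw [mem_range] at hi
      have : ((m - 1 - i : ℕ) : ℝ) = (m : ℝ) - 1 - i := by
        rw [Nat.cast_sub (by omega), Nat.cast_sub (by omega)]
        simp
      rw [this]
      congr 1
      ring
    rw [h1]
    exact harm m
  have t3 := mul_le_mul_of_nonneg_left s3 (by positivity : 0 ≤ 3 * (m : ℝ))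
  have t4 := mul_le_mul_of_nonneg_left s4 (by positivity : 0 ≤ 3 * (m : ℝ))
  nlinarith

/-- one block -/
lemma block (α : ℝ) (a : ℤ) (m T : ℕ) (hm : 1 ≤ m) (hc : IsCoprime a (m : ℤ))
    (hα : |α - (a : ℝ) / m| ≤ 1 / (m : ℝ) ^ 2) (A : ℝ) :
    ∑ j ∈ range m, mn T (A + j * α) ≤ 5 * T + 6 * m * (1 + Real.log m) := by
  classical
  have hm' : (0 : ℝ) < m := by exact_mod_cast hm
  have hmZ : (0 : ℤ) < (m : ℤ) := by exact_mod_cast hm
  set c : ℤ := ⌊(m : ℝ) * A⌋ with hcdef
  set ρ : ℝ := (m : ℝ) * A - c with hρ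
  have hρ0 : 0 ≤ ρ := by rw [hρ]; linarith [Int.floor_le ((m : ℝ) * A)]
  have hρ1 : ρ ≤ 1 := by rw [hρ]; linarith [(Int.lt_floor_add_one ((m : ℝ) * A)).le]
  set φ : ℕ → ℕ := fun j => ((c + j * a) % (m : ℤ)).toNat with hφ
  have hφm : ∀ j, (φ j : ℤ) = (c + j * a) % (m : ℤ) := fun j =>
    Int.toNat_of_nonneg (Int.emod_nonneg _ hmZ.ne')
  have hφlt : ∀ j, φ j < m := by
    intro j
    have h1 := Int.emod_lt_of_pos (c + j * a) hmZ
    rw [← hφm] at h1
    exact_mod_cast h1
  have hinj : Set.InjOn φ (range m : Set ℕ) := by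
    intro j hj j' hj' h
    rw [coe_range, Set.mem_Iio] at hj hj'
    have h1 : (c + j * a) % (m : ℤ) = (c + j' * a) % (m : ℤ) := by
      rw [← hφm, ← hφm, h]
    have h2 : (m : ℤ) ∣ ((j' : ℤ) - j) * a := by
      have h4 := Int.ModEq.dvd (show (c + j * a) ≡ (c + j' * a) [ZMOD (m : ℤ)] from h1)
      have : ((j' : ℤ) - j) * a = (c + j' * a) - (c + j * a) := by ring
      rw [this]
      exact h4
    have h3 : (m : ℤ) ∣ (j' : ℤ) - j := hc.symm.dvd_of_dvd_mul_right h2
    have h4 : (j' : ℤ) - j = 0 := by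
      apply Int.eq_zero_of_abs_lt_dvd h3
      rw [abs_lt]
      constructor <;> omega
    omega
  have hterm : ∀ j ∈ range m, mn T (A + j * α) ≤ gb T m (φ j) := by
    intro j hj
    rw [mem_range] at hj
    set θ : ℝ := A + j * α with hθ
    have hq := Int.emod_add_mul_ediv (c + j * a) (m : ℤ)
    rw [← hφm] at hq
    set Q : ℤ := (c + j * a) / (m : ℤ) with hQ
    have hqR : (φ j : ℝ) + m * Q = c + j * a := by exact_mod_cast hq
    refine term_bound (hφlt j) (err := j * (α - (a : ℝ) / m)) (ρ := ρ) (s := Q - round θ) ?_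
      hρ0 hρ1 ?_
    · push_cast
      have : (φ j : ℝ) + m * ((Q : ℝ) - round θ) + ρ = c + j * a + ρ - m * round θ := by
        linarith
      rw [this, hρ, hθ]
      field_simp
      ring
    · rw [abs_mul, abs_of_nonneg (Nat.cast_nonneg j)]
      have h1 : (j : ℝ) ≤ m := by exact_mod_cast hj.le
      calc (j : ℝ) * |α - (a : ℝ) / m| ≤ m * (1 / (m : ℝ) ^ 2) :=
            mul_le_mul h1 hα (abs_nonneg _) hm'.le
        _ = 1 / m := by field_simp
  calc ∑ j ∈ range m, mn T (A + j * α) ≤ ∑ j ∈ range m, gb T m (φ j) := sum_le_sum hterm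
    _ = ∑ i ∈ (range m).image φ, gb T m i := (sum_image hinj).symm
    _ ≤ ∑ i ∈ range m, gb T m i := by
        apply sum_le_sum_of_subset_of_nonneg
        · intro i hi
          obtain ⟨j, -, rfl⟩ := mem_image.1 hi
          exact mem_range.2 (hφlt j)
        · intro i hi _
          exact gb_nonneg (mem_range.1 hi)
    _ ≤ _ := sum_gb T m

/-- many blocks -/
lemma blocks (f : ℕ → ℝ) (m : ℕ) (K : ℝ) (hK : ∀ A, ∑ j ∈ range m, f (A + j) ≤ K) (B : ℕ) :
    ∑ i ∈ range (B * m), f i ≤ B * K := by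
  induction B with
  | zero => simp
  | succ B ih =>
    rw [Nat.succ_mul, sum_range_add]
    have := hK (B * m)
    push_cast
    linarith

end WE2M

open WE2M in
theorem t_WE2 : S_WE2 := by
  refine ⟨15, by norm_num, ?_⟩
  intro α a m H T hm hH hT hc hα
  have hm' : (0 : ℝ) < m := by exact_mod_cast hm
  have hm1 : (1 : ℝ) ≤ m := by exact_mod_cast hm
  set K : ℝ := 5 * T + 6 * m * (1 + Real.log m) with hKdef
  have hlog0 : 0 ≤ Real.log m := Real.log_nonneg hm1
  have hK0 : 0 ≤ K := by rw [hKdef]; positivity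
  have hshift : ∀ (f : ℕ → ℝ) (n : ℕ), ∑ h ∈ Icc 1 n, f h = ∑ i ∈ range n, f (i + 1) := by
    intro f n
    induction n with
    | zero => simp
    | succ n ih => rw [sum_Icc_succ_top (by omega), ih, sum_range_succ]
  have h1 : ∑ h ∈ Icc 1 H, mn T ((h : ℝ) * α) = ∑ i ∈ range H, mn T (((i + 1 : ℕ) : ℝ) * α) :=
    hshift (fun h => mn T ((h : ℝ) * α)) H
  have h2 : ∑ i ∈ range H, mn T (((i + 1 : ℕ) : ℝ) * α) ≤
      ∑ i ∈ range ((H / m + 1) * m), mn T (((i + 1 : ℕ) : ℝ) * α) := by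
    apply sum_le_sum_of_subset_of_nonneg
    · intro i hi
      rw [mem_range] at hi ⊢
      have := Nat.lt_div_mul_add (a := H) (b := m) (by omega)
      rw [Nat.succ_mul]
      omega
    · intro i _ _
      exact mn_nonneg _ _
  have h3 : ∑ i ∈ range ((H / m + 1) * m), mn T (((i + 1 : ℕ) : ℝ) * α) ≤
      ((H / m + 1 : ℕ) : ℝ) * K := by
    apply blocks
    intro A
    have := block α a m T hm hc hα (((A : ℝ) + 1) * α)
    refine le_trans (le_of_eq ?_) this
    refine sum_congr rfl fun j _ => ?_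
    congr 1
    push_cast
    ring
  have h4 : ((H / m + 1 : ℕ) : ℝ) ≤ (H : ℝ) / m + 1 := by
    push_cast
    have := @Nat.cast_div_le ℝ _ _ _ H m
    linarith
  have h5 : K ≤ 15 * (T + m * Real.log (m + 1)) := by
    have g1 : Real.log m ≤ Real.log (m + 1) := Real.log_le_log hm' (by linarith)
    have g2 : Real.log 2 ≤ Real.log (m + 1) := Real.log_le_log (by norm_num) (by linarith)
    have g3 := Real.log_two_gt_d9
    have g4 : (1 : ℝ) ≤ 3 / 2 * Real.log (m + 1) := by linarith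
    have g5 : 1 + Real.log m ≤ 5 / 2 * Real.log (m + 1) := by linarith
    have g6 := mul_le_mul_of_nonneg_left g5 (by positivity : 0 ≤ 6 * (m : ℝ))
    have g7 : (0 : ℝ) ≤ T := Nat.cast_nonneg T
    rw [hKdef]
    nlinarith
  have hH0 : 0 ≤ (H : ℝ) / m + 1 := by positivity
  calc ∑ h ∈ Icc 1 H, mn T ((h : ℝ) * α) ≤ ((H / m + 1 : ℕ) : ℝ) * K := by
        rw [h1]; exact h2.trans h3
    _ ≤ ((H : ℝ) / m + 1) * K := mul_le_mul_of_nonneg_right h4 hK0
    _ ≤ ((H : ℝ) / m + 1) * (15 * (T + m * Real.log (m + 1))) :=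
        mul_le_mul_of_nonneg_left h5 hH0
    _ = 15 * ((H : ℝ) / m + 1) * (T + m * Real.log (m + 1)) := by ring

end Pool.Agent.CDP
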