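import Pool.Agent.CDP.Stmts

set_option autoImplicit false

/-!
# CDP, module WEY: Weyl's inequality for cubes
-/

namespace Pool.Agent.CDP

open Finset
open Pool.Agent.Lib_helper83.EF (e)
open MUR (cop)

namespace WEYM

theorem mn_nonneg (T : ℕ) (θ : ℝ) : 0 ≤ mn T θ := by
  unfold mn
  positivity

/-- collecting the pairs with the same product -/
theorem double (T : ℕ) (α : ℝ) :
    ∑ h ∈ Icc 1 T, ∑ g ∈ Icc 1 T, mn T (6 * (h : ℝ) * g * α) ≤
      ∑ j ∈ (Icc 1 (6 * T ^ 2) : Finset ℕ), (j.divisors.card : ℝ) * mn T ((j : ℝ) * α) := by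
  classical
  rw [← Finset.sum_product']
  have hmap : ∀ x ∈ Icc 1 T ×ˢ Icc 1 T, 6 * x.1 * x.2 ∈ Icc 1 (6 * T ^ 2) := by
    intro x hx
    obtain ⟨h1, h2⟩ := mem_product.1 hx
    obtain ⟨h3, h4⟩ := mem_Icc.1 h1
    obtain ⟨h5, h6⟩ := mem_Icc.1 h2
    rw [mem_Icc]
    constructor
    · have : 0 < 6 * x.1 * x.2 := by positivity
      exact this
    · calc 6 * x.1 * x.2 = 6 * (x.1 * x.2) := by ring
        _ ≤ 6 * (T * T) := Nat.mul_le_mul_left _ (Nat.mul_le_mul h4 h6)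
        _ = 6 * T ^ 2 := by ring
  rw [← Finset.sum_fiberwise_of_maps_to hmap]
  refine Finset.sum_le_sum fun j hj => ?_
  have e1 : ∑ x ∈ Icc 1 T ×ˢ Icc 1 T with 6 * x.1 * x.2 = j, mn T (6 * (x.1 : ℝ) * x.2 * α) =
      ∑ x ∈ Icc 1 T ×ˢ Icc 1 T with 6 * x.1 * x.2 = j, mn T ((j : ℝ) * α) := by
    refine Finset.sum_congr rfl fun x hx => ?_
    have h1 := (mem_filter.1 hx).2
    rw [← h1]
    push_cast
    rfl
  rw [e1, Finset.sum_const, nsmul_eq_mul]
  refine mul_le_mul_of_nonneg_right ?_ (mn_nonneg _ _)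
  have hj0 : j ≠ 0 := by
    have := (mem_Icc.1 hj).1
    omega
  have hcard : ((Icc 1 T ×ˢ Icc 1 T).filter fun x => 6 * x.1 * x.2 = j).card ≤
      j.divisors.card := by
    refine Finset.card_le_card_of_injOn Prod.fst ?_ ?_
    · intro x hx
      have h1 := (mem_filter.1 hx).2
      rw [mem_coe, Nat.mem_divisors]
      exact ⟨⟨6 * x.2, by rw [← h1]; ring⟩, hj0⟩
    · intro x hx y hy hxy
      have h1 := (mem_filter.1 hx).2
      have h2 := (mem_filter.1 hy).2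
      have h3 := (mem_Icc.1 (mem_product.1 (mem_filter.1 hx).1).1).1
      have h4 : x.2 = y.2 := by
        rw [← h1, ← hxy] at h2
        have h5 : 0 < 6 * x.1 := by omega
        exact (Nat.eq_of_mul_eq_mul_left h5 h2).symm
      exact Prod.ext hxy h4
  exact_mod_cast hcard

theorem trivial_bound (T : ℕ) (α : ℝ) : ‖∑ t ∈ Icc 1 T, e ((t : ℝ) ^ 3 * α)‖ ≤ (T : ℝ) := by
  refine (norm_sum_le _ _).trans ?_
  have h1 : ∀ t ∈ Icc 1 T, ‖e ((t : ℝ) ^ 3 * α)‖ = 1 := fun t _ =>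
    Pool.Agent.Lib_helper77.EF.norm_e _
  rw [Finset.sum_congr rfl h1, Finset.sum_const, Nat.card_Icc, nsmul_eq_mul, mul_one]
  simp

end WEYM

open WEYM

theorem t_WEY : M_WEY := by
  intro h1 h2
  obtain ⟨C2, hC2, h2⟩ := h2
  obtain ⟨C1, hC1, hd⟩ := Pool.Agent.Lib_helper91.exists_divisor_bound 80 (by norm_num)
  refine ⟨10 + 552960 * C1 * C2, by positivity, ?_⟩
  intro α a m T hm hT hco hα
  have hX : (1 : ℝ) ≤ (T : ℝ) := by exact_mod_cast hT
  have hM : (1 : ℝ) ≤ (m : ℝ) := by exact_mod_cast hm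
  have hX0 : (0 : ℝ) < (T : ℝ) := by linarith
  have hM0 : (0 : ℝ) < (m : ℝ) := by linarith
  set X : ℝ := (T : ℝ) with hXdef
  set M : ℝ := (m : ℝ) with hMdef
  set Z : ℝ := X ^ (1 / 20 : ℝ) with hZ
  set z : ℝ := X ^ (1 / 40 : ℝ) with hz
  have hz1 : 1 ≤ z := Real.one_le_rpow hX (by norm_num)
  have hZz : Z = z * z := by
    rw [hZ, hz, ← Real.rpow_add hX0]
    norm_num
  have hZ1 : 1 ≤ Z := by
    rw [hZz]
    nlinarith
  have hXZ : X ^ (4 + 1 / 20 : ℝ) = X ^ 4 * Z := by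
    rw [Real.rpow_add hX0, hZ]
    congr 1
    exact_mod_cast Real.rpow_natCast X 4
  have hC12 : 0 < C1 * C2 := by positivity
  rw [hXZ]
  by_cases hcase : X ^ 3 ≤ M
  · -- trivial
    have h3 : ‖∑ t ∈ Icc 1 T, e ((t : ℝ) ^ 3 * α)‖ ^ 4 ≤ X ^ 4 :=
      pow_le_pow_left₀ (norm_nonneg _) (trivial_bound T α) 4
    have h4 : 1 ≤ 1 / M + 1 / X + M / X ^ 3 := by
      have h5 : 1 ≤ M / X ^ 3 := by
        rw [le_div_iff₀ (by positivity)]
        linarith
      have h6 : 0 < 1 / M := by positivity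
      have h7 : 0 < 1 / X := by positivity
      linarith
    have h5 : 1 ≤ 10 + 552960 * C1 * C2 := by
      have : 0 < 552960 * C1 * C2 := by positivity
      linarith
    calc ‖∑ t ∈ Icc 1 T, e ((t : ℝ) ^ 3 * α)‖ ^ 4 ≤ X ^ 4 := h3
      _ = 1 * (X ^ 4 * 1) * 1 := by ring
      _ ≤ (10 + 552960 * C1 * C2) * (X ^ 4 * Z) * (1 / M + 1 / X + M / X ^ 3) := by
        gcongr
  · have hMX : M ≤ X ^ 3 := le_of_lt (not_le.1 hcase)
    have h3 := h1 T α hT
    -- the double sum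
    have hdbl := double T α
    have hsum : ∑ j ∈ (Icc 1 (6 * T ^ 2) : Finset ℕ), (j.divisors.card : ℝ) * mn T ((j : ℝ) * α) ≤
        (C1 * (6 * z)) * ∑ j ∈ (Icc 1 (6 * T ^ 2) : Finset ℕ), mn T ((j : ℝ) * α) := by
      rw [Finset.mul_sum]
      refine Finset.sum_le_sum fun j hj => mul_le_mul_of_nonneg_right ?_ (mn_nonneg _ _)
      obtain ⟨hj1, hj2⟩ := mem_Icc.1 hj
      have h4 := hd j (by omega)
      refine h4.trans (mul_le_mul_of_nonneg_left ?_ (by linarith))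
      have h5 : (j : ℝ) ≤ 6 * X ^ 2 := by
        rw [hXdef]
        exact_mod_cast hj2
      calc (j : ℝ) ^ ((1 : ℝ) / (80 : ℕ)) ≤ (6 * X ^ 2) ^ ((1 : ℝ) / (80 : ℕ)) :=
            Real.rpow_le_rpow (Nat.cast_nonneg j) h5 (by norm_num)
        _ = 6 ^ ((1 : ℝ) / (80 : ℕ)) * (X ^ 2) ^ ((1 : ℝ) / (80 : ℕ)) :=
            Real.mul_rpow (by norm_num) (by positivity)
        _ = 6 ^ ((1 : ℝ) / (80 : ℕ)) * z := by
            congr 1
            rw [hz, ← Real.rpow_natCast X 2, ← Real.rpow_mul hX0.le]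
            norm_num
        _ ≤ 6 * z := by
            refine mul_le_mul_of_nonneg_right ?_ (by linarith)
            calc (6 : ℝ) ^ ((1 : ℝ) / (80 : ℕ)) ≤ 6 ^ (1 : ℝ) :=
                  Real.rpow_le_rpow_of_exponent_le (by norm_num) (by norm_num)
              _ = 6 := Real.rpow_one 6
    have h6T : 1 ≤ 6 * T ^ 2 := by
      have : 0 < 6 * T ^ 2 := by positivity
      exact this
    have h4 := h2 α a m (6 * T ^ 2) T hm h6T hT hco hα
    have hcast : (((6 * T ^ 2 : ℕ)) : ℝ) = 6 * X ^ 2 := by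
      rw [hXdef]
      push_cast
      ring
    rw [hcast] at h4
    -- the logarithm
    have hlog : Real.log (M + 1) ≤ 240 * z := by
      have h5 : Real.log (M + 1) ≤ (M + 1) ^ (1 / 120 : ℝ) / (1 / 120 : ℝ) :=
        Real.log_le_rpow_div (by linarith) (by norm_num)
      have h6 : (M + 1) ^ (1 / 120 : ℝ) ≤ 2 * z := by
        calc (M + 1) ^ (1 / 120 : ℝ) ≤ (2 * X ^ 3) ^ (1 / 120 : ℝ) := by
              refine Real.rpow_le_rpow (by linarith) ?_ (by norm_num)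
              have : 1 ≤ X ^ 3 := one_le_pow₀ hX
              linarith
          _ = 2 ^ (1 / 120 : ℝ) * (X ^ 3) ^ (1 / 120 : ℝ) :=
              Real.mul_rpow (by norm_num) (by positivity)
          _ = 2 ^ (1 / 120 : ℝ) * z := by
              congr 1
              rw [hz, ← Real.rpow_natCast X 3, ← Real.rpow_mul hX0.le]
              norm_num
          _ ≤ 2 * z := by
              refine mul_le_mul_of_nonneg_right ?_ (by linarith)
              calc (2 : ℝ) ^ (1 / 120 : ℝ) ≤ 2 ^ (1 : ℝ) :=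
                    Real.rpow_le_rpow_of_exponent_le (by norm_num) (by norm_num)
                _ = 2 := Real.rpow_one 2
      calc Real.log (M + 1) ≤ (M + 1) ^ (1 / 120 : ℝ) / (1 / 120 : ℝ) := h5
        _ ≤ (2 * z) / (1 / 120 : ℝ) := by gcongr
        _ = 240 * z := by ring
    have h5 : X + M * Real.log (M + 1) ≤ 240 * z * (X + M) := by
      have h6 : M * Real.log (M + 1) ≤ M * (240 * z) := mul_le_mul_of_nonneg_left hlog hM0.le
      have h7 : X ≤ 240 * z * X := le_mul_of_one_le_left hX0.le (by linarith)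
      linarith
    have h6 : (6 * X ^ 2 / M + 1) ≤ 6 * (X ^ 2 / M + 1) := by
      have : 6 * X ^ 2 / M = 6 * (X ^ 2 / M) := by ring
      rw [this]
      linarith
    have h7 : (X ^ 2 / M + 1) * (X + M) ≤ 2 * X ^ 3 * (1 / M + 1 / X + M / X ^ 3) := by
      have e1 : (X ^ 2 / M + 1) * (X + M) = X ^ 3 / M + X ^ 2 + X + M := by
        field_simp
        ring
      have e2 : 2 * X ^ 3 * (1 / M + 1 / X + M / X ^ 3) = 2 * (X ^ 3 / M) + 2 * X ^ 2 + 2 * M := by
        field_simp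
      rw [e1, e2]
      have : 0 < X ^ 3 / M := by positivity
      nlinarith
    have h8 : ∑ h ∈ Icc 1 T, ∑ g ∈ Icc 1 T, mn T (6 * (h : ℝ) * g * α) ≤
        17280 * C1 * C2 * (Z * X ^ 3) * (1 / M + 1 / X + M / X ^ 3) := by
      have hpos : 0 ≤ C2 * (6 * X ^ 2 / M + 1) := by positivity
      calc ∑ h ∈ Icc 1 T, ∑ g ∈ Icc 1 T, mn T (6 * (h : ℝ) * g * α)
          ≤ ∑ j ∈ (Icc 1 (6 * T ^ 2) : Finset ℕ), (j.divisors.card : ℝ) * mn T ((j : ℝ) * α) := hdbl
        _ ≤ (C1 * (6 * z)) * ∑ j ∈ (Icc 1 (6 * T ^ 2) : Finset ℕ), mn T ((j : ℝ) * α) := hsum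
        _ ≤ (C1 * (6 * z)) * (C2 * (6 * X ^ 2 / M + 1) * (X + M * Real.log (M + 1))) :=
            mul_le_mul_of_nonneg_left h4 (by positivity)
        _ ≤ (C1 * (6 * z)) * (C2 * (6 * (X ^ 2 / M + 1)) * (240 * z * (X + M))) := by
            refine mul_le_mul_of_nonneg_left ?_ (by positivity)
            refine mul_le_mul ?_ h5 ?_ (by positivity)
            · exact mul_le_mul_of_nonneg_left h6 hC2.le
            · have : 0 ≤ Real.log (M + 1) := Real.log_nonneg (by linarith)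
              positivity
        _ = 8640 * C1 * C2 * (z * z) * ((X ^ 2 / M + 1) * (X + M)) := by ring
        _ ≤ 8640 * C1 * C2 * (z * z) * (2 * X ^ 3 * (1 / M + 1 / X + M / X ^ 3)) :=
            mul_le_mul_of_nonneg_left h7 (by positivity)
        _ = 17280 * C1 * C2 * (Z * X ^ 3) * (1 / M + 1 / X + M / X ^ 3) := by
            rw [hZz]
            ring
    have h9 : 10 * X ^ 3 ≤ 10 * (X ^ 4 * Z) * (1 / M + 1 / X + M / X ^ 3) := by
      have e1 : 1 / X ≤ 1 / M + 1 / X + M / X ^ 3 := by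
        have a1 : 0 < 1 / M := by positivity
        have a2 : 0 < M / X ^ 3 := by positivity
        linarith
      calc 10 * X ^ 3 = 10 * (X ^ 4 * 1) * (1 / X) := by
            field_simp
        _ ≤ 10 * (X ^ 4 * Z) * (1 / M + 1 / X + M / X ^ 3) := by
            gcongr
    calc ‖∑ t ∈ Icc 1 T, e ((t : ℝ) ^ 3 * α)‖ ^ 4
        ≤ 10 * X ^ 3 + 32 * X * ∑ h ∈ Icc 1 T, ∑ g ∈ Icc 1 T, mn T (6 * (h : ℝ) * g * α) := h3
      _ ≤ 10 * (X ^ 4 * Z) * (1 / M + 1 / X + M / X ^ 3) +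
          32 * X * (17280 * C1 * C2 * (Z * X ^ 3) * (1 / M + 1 / X + M / X ^ 3)) :=
          add_le_add h9 (mul_le_mul_of_nonneg_left h8 (by positivity))
      _ = (10 + 552960 * C1 * C2) * (X ^ 4 * Z) * (1 / M + 1 / X + M / X ^ 3) := by ring

end Pool.Agent.CDP
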