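import Pool.Agent.CDP.Stmts

/-!
# CDP, module WIN: correlations and windows
-/

set_option autoImplicit false

namespace Pool.Agent.CDP

open Finset
open Pool.Agent.Lib_helper83.EF (e)
open Pool.Agent.Lib_helper77.EF (e_add conj_e)

/-- the square of an exponential sum -/
theorem win_sq (S : Finset ℕ) (θ : ℝ) :
    ‖∑ u ∈ S, e ((u : ℝ) * θ)‖ ^ 2 =
      ∑ u ∈ S, ∑ v ∈ S, Real.cos (2 * Real.pi * (((u : ℝ) - v) * θ)) := by
  have h1 : ((‖∑ u ∈ S, e ((u : ℝ) * θ)‖ ^ 2 : ℝ) : ℂ) =
      ∑ u ∈ S, ∑ v ∈ S, e (((u : ℝ) - v) * θ) := by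
    have h2 := Complex.mul_conj (∑ u ∈ S, e ((u : ℝ) * θ))
    rw [Complex.normSq_eq_norm_sq] at h2
    rw [← h2, map_sum, sum_mul_sum]
    refine sum_congr rfl fun u _ => sum_congr rfl fun v _ => ?_
    rw [conj_e, ← e_add]
    congr 1
    ring
  have h3 : ∀ x : ℝ, (e x).re = Real.cos (2 * Real.pi * x) := by
    intro x
    have : e x = Complex.exp (((2 * Real.pi * x : ℝ) : ℂ) * Complex.I) := by
      unfold Pool.Agent.Lib_helper83.EF.e
      push_cast
      rfl
    rw [this, Complex.exp_ofReal_mul_I_re]
  have h4 := congrArg Complex.re h1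
  rw [Complex.ofReal_re, Complex.re_sum] at h4
  rw [h4]
  refine sum_congr rfl fun u _ => ?_
  rw [Complex.re_sum]
  exact sum_congr rfl fun v _ => h3 _

/-- the number of the pairs with given difference -/
theorem win_cnt (U : ℕ) (k : ℤ) :
    (((range U ×ˢ range U).filter fun p => (p.1 : ℤ) - p.2 = k).card) = U - k.natAbs := by
  rcases Int.eq_nat_or_neg k with ⟨n, rfl | rfl⟩
  · rw [Int.natAbs_natCast]
    have h : ((range U ×ˢ range U).filter fun p => (p.1 : ℤ) - p.2 = (n : ℤ)) =
        (range (U - n)).image fun v => (v + n, v) := by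
      ext ⟨a, b⟩
      simp only [mem_filter, mem_product, mem_range, mem_image, Prod.mk.injEq]
      constructor
      · rintro ⟨⟨h1, h2⟩, h3⟩
        exact ⟨b, by omega, by omega, rfl⟩
      · rintro ⟨v, h1, h2, h3⟩
        omega
    rw [h, card_image_of_injective _ (fun a b hab => (Prod.mk.inj hab).2), card_range]
  · rw [Int.natAbs_neg, Int.natAbs_natCast]
    have h : ((range U ×ˢ range U).filter fun p => (p.1 : ℤ) - p.2 = -(n : ℤ)) =
        (range (U - n)).image fun v => (v, v + n) := by
      ext ⟨a, b⟩
      simp only [mem_filter, mem_product, mem_range, mem_image, Prod.mk.injEq]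
      constructor
      · rintro ⟨⟨h1, h2⟩, h3⟩
        exact ⟨a, by omega, rfl, by omega⟩
      · rintro ⟨v, h1, h2, h3⟩
        omega
    rw [h, card_image_of_injective _ (fun a b hab => (Prod.mk.inj hab).1), card_range]

/-- a sum over the first points of windows is a sum over `P` -/
theorem win_shift {M : Type*} [AddCommMonoid M] (P : Finset ℕ) (a N : ℕ)
    (hP : ∀ p ∈ P, a ≤ p ∧ p ≤ N) (g : ℕ → M) :
    ∑ x ∈ range (N + 1), (if x + a ∈ P then g (x + a) else 0) = ∑ p ∈ P, g p := by
  rw [← sum_filter]
  refine sum_nbij (fun x => x + a) ?_ ?_ ?_ ?_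
  · intro x hx
    exact (mem_filter.1 hx).2
  · intro x _ y _ hxy
    simpa using hxy
  · intro p hp
    have hp' : p ∈ P := by simpa using hp
    obtain ⟨h1, h2⟩ := hP p hp'
    refine ⟨p - a, ?_, by simp; omega⟩
    have h3 : p - a + a = p := by omega
    simp only [coe_filter, mem_range, Set.mem_ofPred_eq, h3]
    exact ⟨by omega, hp'⟩
  · intro x _
    rfl

theorem t_WIN : S_WIN := by
  classical
  intro P W U N θ hW hP
  have hPu : ∀ u, u < U → ∀ p ∈ P, W * u ≤ p ∧ p ≤ N := by
    intro u hu p hp
    obtain ⟨h1, h2⟩ := hP p hp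
    exact ⟨(Nat.mul_le_mul_left W hu.le).trans h1, h2⟩
  constructor
  · -- the right side
    have hR : ∑ x ∈ range (N + 1), ‖∑ u ∈ win P W U x, e ((u : ℝ) * θ)‖ ^ 2 =
        ∑ p ∈ P, ∑ u ∈ range U, ∑ v ∈ range U,
          (if p - W * u + W * v ∈ P then Real.cos (2 * Real.pi * (((u : ℝ) - v) * θ)) else 0) := by
      have h1 : ∀ x, ‖∑ u ∈ win P W U x, e ((u : ℝ) * θ)‖ ^ 2 =
          ∑ u ∈ range U, ∑ v ∈ range U, (if x + W * u ∈ P then
            (fun p => if p - W * u + W * v ∈ P then
              Real.cos (2 * Real.pi * (((u : ℝ) - v) * θ)) else 0) (x + W * u) else 0) := by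
        intro x
        rw [win_sq]
        unfold win
        rw [sum_filter]
        refine sum_congr rfl fun u _ => ?_
        split_ifs with hu
        · rw [sum_filter]
          refine sum_congr rfl fun v _ => ?_
          simp only [Nat.add_sub_cancel]
        · simp
      simp only [h1]
      rw [sum_comm]
      refine Eq.trans ?_ (sum_comm (s := range U) (t := P))
      refine sum_congr rfl fun u hu => ?_
      rw [sum_comm]
      refine Eq.trans ?_ (sum_comm (s := range U) (t := P))
      refine sum_congr rfl fun v _ => ?_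
      exact win_shift P (W * u) N (hPu u (mem_range.1 hu)) (fun p => if p - W * u + W * v ∈ P then
        Real.cos (2 * Real.pi * (((u : ℝ) - v) * θ)) else 0)
    rw [hR]
    unfold en
    refine sum_congr rfl fun p hp => ?_
    have h2 : (∑ u ∈ range U, ∑ v ∈ range U,
          (if p - W * u + W * v ∈ P then Real.cos (2 * Real.pi * (((u : ℝ) - v) * θ)) else 0) : ℝ) =
        ∑ q ∈ P, ∑ u ∈ range U, ∑ v ∈ range U,
          (if p - W * u + W * v = q then Real.cos (2 * Real.pi * (((u : ℝ) - v) * θ)) else 0) := by
      refine Eq.trans ?_ (sum_comm (s := range U) (t := P))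
      refine sum_congr rfl fun u _ => ?_
      refine Eq.trans ?_ (sum_comm (s := range U) (t := P))
      refine sum_congr rfl fun v _ => ?_
      rw [sum_ite_eq]
    rw [h2, sum_filter]
    refine sum_congr rfl fun q hq => ?_
    have hWZ : (0 : ℤ) < W := by exact_mod_cast hW
    have hWR : (0 : ℝ) < W := by exact_mod_cast hW
    by_cases hpq : q ≡ p [MOD W]
    · rw [if_pos hpq]
      obtain ⟨k, hk⟩ : (W : ℤ) ∣ (p : ℤ) - q := (Nat.modEq_iff_dvd.1 hpq)
      have hkR : ((p : ℝ) - q) / W = (k : ℝ) := by
        rw [div_eq_iff hWR.ne']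
        have : (((p : ℤ) - q : ℤ) : ℝ) = ((W * k : ℤ) : ℝ) := by rw [hk]
        push_cast at this
        linarith
      have h3 : ∑ u ∈ range U, ∑ v ∈ range U,
          (if p - W * u + W * v = q then Real.cos (2 * Real.pi * (((u : ℝ) - v) * θ)) else 0) =
          ∑ t ∈ range U ×ˢ range U, (if (t.1 : ℤ) - t.2 = k then
            Real.cos (2 * Real.pi * ((k : ℝ) * θ)) else 0) := by
        rw [sum_product]
        refine sum_congr rfl fun u hu => sum_congr rfl fun v _ => ?_
        have hu' := (hPu u (mem_range.1 hu) p hp).1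
        have hiff : p - W * u + W * v = q ↔ (u : ℤ) - v = k := by
          have h4 : ((p - W * u + W * v : ℕ) : ℤ) = (p : ℤ) - W * u + W * v := by
            push_cast [Nat.cast_sub hu']
            ring
          constructor
          · intro h
            have h5 : (p : ℤ) - W * u + W * v = q := by rw [← h4, h]
            have h6 : (W : ℤ) * ((u : ℤ) - v) = W * k := by
              rw [← hk]
              linarith
            exact mul_left_cancel₀ hWZ.ne' h6
          · intro h
            have h5 : (W : ℤ) * ((u : ℤ) - v) = (p : ℤ) - q := by rw [h, hk]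
            have h6 : ((p - W * u + W * v : ℕ) : ℤ) = (q : ℤ) := by
              rw [h4]
              linarith
            exact_mod_cast h6
        by_cases h : p - W * u + W * v = q
        · have h7 := hiff.1 h
          rw [if_pos h, if_pos h7]
          have h8 : ((u : ℝ) - v) = (k : ℝ) := by exact_mod_cast h7
          rw [h8]
        · rw [if_neg h, if_neg (fun h' => h (hiff.2 h'))]
      rw [h3, ← sum_filter, sum_const, win_cnt, nsmul_eq_mul, hkR]
      congr 1
      have h9 : |(p : ℝ) - q| / W = ((k.natAbs : ℕ) : ℝ) := by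
        rw [Nat.cast_natAbs, Int.cast_abs, ← hkR, abs_div, abs_of_pos hWR]
      rw [h9]
      rcases le_total k.natAbs U with h | h
      · rw [Nat.cast_sub h, max_eq_right]
        have : (k.natAbs : ℝ) ≤ U := by exact_mod_cast h
        linarith
      · rw [Nat.sub_eq_zero_of_le h, Nat.cast_zero, max_eq_left]
        have : (U : ℝ) ≤ k.natAbs := by exact_mod_cast h
        linarith
    · rw [if_neg hpq]
      symm
      refine sum_eq_zero fun u hu => sum_eq_zero fun v _ => ?_
      rw [if_neg]
      intro h
      apply hpq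
      have hu' := (hPu u (mem_range.1 hu) p hp).1
      have h10 : q + W * u = p + W * v := by omega
      have h11 : q + W * u ≡ p + W * v [MOD W] := by rw [h10]
      have h12 : q + W * u ≡ q + 0 [MOD W] :=
        Nat.ModEq.add_left q ((Nat.modEq_zero_iff_dvd).2 (Dvd.intro _ rfl))
      have h13 : p + W * v ≡ p + 0 [MOD W] :=
        Nat.ModEq.add_left p ((Nat.modEq_zero_iff_dvd).2 (Dvd.intro _ rfl))
      have h14 := (h12.symm.trans h11).trans h13
      simpa using h14
  · have h1 : ∀ x, (win P W U x).card =
        ∑ u ∈ range U, (if x + W * u ∈ P then (fun _ => 1) (x + W * u) else 0) := by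
      intro x
      unfold win
      rw [card_filter]
    simp only [h1]
    rw [sum_comm]
    have h2 : ∀ u ∈ range U, ∑ x ∈ range (N + 1),
        (if x + W * u ∈ P then (fun _ => 1) (x + W * u) else 0) = P.card := by
      intro u hu
      rw [win_shift P (W * u) N (hPu u (mem_range.1 hu)) (fun _ => 1), sum_const, smul_eq_mul,
        mul_one]
    rw [sum_congr rfl h2, sum_const, card_range, smul_eq_mul]

end Pool.Agent.CDP
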