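import Pool.Agent.CDP.GEO
import Pool.Agent.CDP.WE1
import Pool.Agent.CDP.WE2
import Pool.Agent.CDP.WEY
import Pool.Agent.CDP.GAM
import Pool.Agent.CDP.MIN
import Pool.Agent.CDP.AR1
import Pool.Agent.CDP.AR2
import Pool.Agent.CDP.FJB
import Pool.Agent.CDP.MOD
import Pool.Agent.CDP.PAR
import Pool.Agent.CDP.CNT
import Pool.Agent.CDP.WIN
import Pool.Agent.CDP.LOW
import Pool.Agent.CDP.BRT
import Pool.Agent.CDP.LSP
import Pool.Agent.CDP.ENE
import Pool.Agent.CDP.TAI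
import Pool.Agent.CDP.DEN
import Pool.Agent.CDP.PIG
import Pool.Agent.CDP.FIX
import Pool.Agent.CDP.ONE
import Pool.Agent.CDP.FIN

set_option autoImplicit false

/-!
# Project CDP: the assembly
-/

namespace Pool.Agent.CDP

theorem h_WEY : S_WEY := t_WEY (t_WE1 t_GEO) t_WE2

theorem h_GAM : S_GAM := t_GAM h_WEY

theorem h_MOD : S_MOD := t_MOD h_GAM (t_MIN h_WEY) t_AR1 t_AR2 t_FJB

theorem h_LOW : S_LOW := t_LOW t_WIN

/-- Every set of primes of positive upper Dirichlet density contains arbitrarily large `p < q` with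
`q - p = n t^3` and `M₀ ∣ t`. -/
theorem main : MainStatement :=
  main_of t_DEN (t_FIN h_LOW (t_BRT t_WIN) t_PIG (t_FIX t_WIN t_ENE)
    (t_ONE h_MOD (t_CNT t_PAR) t_FJB t_WIN h_LOW (t_TAI h_GAM t_WIN (t_LSP t_WIN))))

end Pool.Agent.CDP
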