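import Pool.Agent.CDP.StmtsC

set_option autoImplicit false

/-!
# CDP_ONEC: the lower bound for the number of solutions for one scale
-/

namespace Pool.Agent.CDP

open Finset
open Pool.Agent.Lib_helper83.EF (e)
open MUR (cop)

namespace ONECM

theorem cop_one : cop 1 = {0} := by
  ext a
  unfold MUR.cop
  rw [mem_filter, mem_range, mem_singleton]
  constructor
  · rintro ⟨h, _⟩
    omega
  · rintro rfl
    exact ⟨by norm_num, Nat.coprime_one_right 0⟩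

theorem gam_one : gam 0 1 = 1 := by
  unfold gam
  simp

/-- splitting of the sum over the moduli -/
theorem split (f : ℕ → ℝ) (w Q : ℕ) (hw : 1 ≤ w) (hwQ : w ≤ Q) :
    ∑ m ∈ Icc 1 Q, f m = f 1 + ∑ m ∈ Ioc 1 w, f m + ∑ m ∈ Ioc w Q, f m := by
  rw [← add_sum_Ioc_eq_sum_Icc (hw.trans hwQ), add_assoc]
  congr 1
  exact (sum_Ioc_consecutive f hw hwQ).symm

end ONECM

open ONECM

theorem t_ONEC : M_ONEC := by
  rintro ⟨C₁, hC₁, hMOD⟩ hCNT hFJB hWIN hLOW ⟨C₂, hC₂, hTAI⟩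
  refine ⟨max C₁ C₂, lt_max_of_lt_left hC₁, ?_⟩
  intro P W T w Q z N η hW hT hw hwQ hz hη hPne hWp hQT hQz hP hden h1 h2 hen8
  have hQ : 1 ≤ Q := hw.trans hwQ
  have hlz : 0 < Real.log z := Real.log_pos (by exact_mod_cast (by omega : 1 < z))
  have hWU : ∀ p ∈ P, W * T ^ 3 ≤ p ∧ p ≤ N := fun p hp => (hP p hp).2.2
  have hen : ∀ θ : ℝ, 0 ≤ en P W (T ^ 3) θ := by
    intro θ
    rw [(hWIN P W (T ^ 3) N θ hW hWU).1]
    exact sum_nonneg fun x _ => sq_nonneg _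
  have hgam : ∀ a m : ℕ, |gam a m| ≤ 1 := hFJB.2.2.1
  set E : ℝ := en P W (T ^ 3) 0 with hE
  have hcnt := hCNT P W T Q (C₁ * (T : ℝ) ^ 6 * (Q : ℝ) ^ (-(1 / 5) : ℝ)) hW hT
    (fun α => hMOD T Q α hT hQ hQT)
  rw [split _ w Q hw hwQ, cop_one, sum_singleton, gam_one, one_mul] at hcnt
  have hE1 : en P W (T ^ 3) (((0 : ℕ) : ℝ) / ((1 : ℕ) : ℝ)) = E := by
    rw [hE]; norm_num
  rw [hE1] at hcnt
  -- small moduli
  have hsmall : -(∑ m ∈ Ioc 1 w, ∑ a ∈ cop m, en P W (T ^ 3) ((a : ℝ) / m)) ≤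
      ∑ m ∈ Ioc 1 w, ∑ a ∈ cop m, gam a m * en P W (T ^ 3) ((a : ℝ) / m) := by
    rw [← sum_neg_distrib]
    apply sum_le_sum
    intro m _
    rw [← sum_neg_distrib]
    apply sum_le_sum
    intro a _
    have g1 := (abs_le.mp (hgam a m)).1
    have g2 := hen ((a : ℝ) / m)
    nlinarith
  have hlarge : -(∑ m ∈ Ioc w Q, ∑ a ∈ cop m, |gam a m| * en P W (T ^ 3) ((a : ℝ) / m)) ≤
      ∑ m ∈ Ioc w Q, ∑ a ∈ cop m, gam a m * en P W (T ^ 3) ((a : ℝ) / m) := by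
    rw [← sum_neg_distrib]
    apply sum_le_sum
    intro m _
    rw [← sum_neg_distrib]
    apply sum_le_sum
    intro a _
    have g1 := neg_abs_le (gam a m)
    have g2 := hen ((a : ℝ) / m)
    nlinarith
  have htai := hTAI P W (T ^ 3) w Q z N hW hw hwQ hz hWp hQz hP
  have hlow := hLOW P W (T ^ 3) N hW hWU
  rw [← hE] at hlow
  have hcard : (0 : ℝ) < P.card := by exact_mod_cast card_pos.mpr hPne
  have hTp : (0 : ℝ) < T := by exact_mod_cast hT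
  push_cast at hlow htai
  set Y : ℝ := ((T : ℝ) ^ 3) ^ 2 * P.card / Real.log z with hY
  have hY0 : 0 < Y := by positivity
  have hN : (0 : ℝ) < (N : ℝ) + 1 := by positivity
  have hEY : η * Y ≤ E := by
    have h3 : ((T : ℝ) ^ 3 * P.card) ^ 2 = ((T : ℝ) ^ 3) ^ 2 * P.card * P.card := by ring
    rw [h3] at hlow
    have h4 : ((T : ℝ) ^ 3) ^ 2 * P.card * (η * (((N : ℝ) + 1) / Real.log z)) ≤
        ((N : ℝ) + 1) * E :=
      (mul_le_mul_of_nonneg_left hden (by positivity)).trans hlow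
    have h5 : ((T : ℝ) ^ 3) ^ 2 * P.card * (η * (((N : ℝ) + 1) / Real.log z)) =
        ((N : ℝ) + 1) * (η * Y) := by
      rw [hY]; field_simp
    rw [h5] at h4
    exact le_of_mul_le_mul_left h4 hN
  have hE0 : 0 < E := lt_of_lt_of_le (mul_pos hη hY0) hEY
  have hw0 : 0 ≤ (w : ℝ) ^ (-(1 / 10) : ℝ) := Real.rpow_nonneg (Nat.cast_nonneg _) _
  have hQ0 : 0 ≤ (Q : ℝ) ^ (-(1 / 5) : ℝ) := Real.rpow_nonneg (Nat.cast_nonneg _) _
  have ht8 : C₂ * (w : ℝ) ^ (-(1 / 10) : ℝ) * Y ≤ E / 8 := by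
    have h3 : C₂ * (w : ℝ) ^ (-(1 / 10) : ℝ) ≤ η / 8 :=
      (mul_le_mul_of_nonneg_right (le_max_right C₁ C₂) hw0).trans h1
    have h4 := mul_le_mul_of_nonneg_right h3 hY0.le
    linarith
  have hb8 : 2 * (C₁ * (T : ℝ) ^ 6 * (Q : ℝ) ^ (-(1 / 5) : ℝ)) * P.card ≤ E / 8 := by
    have h3 : 2 * C₁ * (Q : ℝ) ^ (-(1 / 5) : ℝ) ≤ η / (8 * Real.log z) := by
      refine le_trans ?_ h2
      have := mul_le_mul_of_nonneg_right (le_max_left C₁ C₂) hQ0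
      linarith
    have h4 := mul_le_mul_of_nonneg_right h3
      (show (0 : ℝ) ≤ (T : ℝ) ^ 6 * P.card by positivity)
    have h5 : η / (8 * Real.log z) * ((T : ℝ) ^ 6 * P.card) = η * Y / 8 := by
      rw [hY]; field_simp
    rw [h5] at h4
    calc 2 * (C₁ * (T : ℝ) ^ 6 * (Q : ℝ) ^ (-(1 / 5) : ℝ)) * P.card
        = 2 * C₁ * (Q : ℝ) ^ (-(1 / 5) : ℝ) * ((T : ℝ) ^ 6 * P.card) := by ring
      _ ≤ η * Y / 8 := h4
      _ ≤ E / 8 := by linarith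
  have hfin : E ≤ 48 / 5 * ((T : ℝ) ^ 5 * (sols P W T).card) := by linarith
  have hs0 : (0 : ℝ) ≤ (sols P W T).card := Nat.cast_nonneg _
  have hT5 : (0 : ℝ) < (T : ℝ) ^ 5 := by positivity
  have hl : (T : ℝ) ^ 5 * ((T : ℝ) * (P.card : ℝ) ^ 2) ≤
      (T : ℝ) ^ 5 * (10 * ((N : ℝ) + 1) * (sols P W T).card) := by
    calc (T : ℝ) ^ 5 * ((T : ℝ) * (P.card : ℝ) ^ 2) = ((T : ℝ) ^ 3 * P.card) ^ 2 := by ring
      _ ≤ ((N : ℝ) + 1) * E := hlow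
      _ ≤ ((N : ℝ) + 1) * (48 / 5 * ((T : ℝ) ^ 5 * (sols P W T).card)) :=
          mul_le_mul_of_nonneg_left hfin hN.le
      _ ≤ ((N : ℝ) + 1) * (10 * ((T : ℝ) ^ 5 * (sols P W T).card)) := by
          apply mul_le_mul_of_nonneg_left _ hN.le
          have := mul_nonneg hT5.le hs0
          linarith
      _ = _ := by ring
  exact le_of_mul_le_mul_left hl hT5

end Pool.Agent.CDP
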