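import Pool.Agent.CDP.Stmts

set_option autoImplicit false

/-!
# CDP_TAI: the tail, by summation by parts
-/

namespace Pool.Agent.CDP

open Finset
open Pool.Agent.Lib_helper83.EF (e)
open MUR (cop)

namespace TAIM

theorem step (q : ℕ) (hq : 1 ≤ q) (K : ℝ) (hK : 0 ≤ K) :
    ((q : ℝ) ^ (-(1 / 5) : ℝ) - ((q + 1 : ℕ) : ℝ) ^ (-(1 / 5) : ℝ)) *
      (K * (q : ℝ) ^ (1 / 20 : ℝ)) ≤
    2 * K * ((q : ℝ) ^ (-(1 / 10) : ℝ) - ((q + 1 : ℕ) : ℝ) ^ (-(1 / 10) : ℝ)) := by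
  have hq0 : (0 : ℝ) < q := by exact_mod_cast hq
  have hq1 : (1 : ℝ) ≤ q := by exact_mod_cast hq
  have hQ0 : (0 : ℝ) < ((q + 1 : ℕ) : ℝ) := by exact_mod_cast Nat.succ_pos q
  set x := (q : ℝ) ^ (-(1 / 10) : ℝ) with hx
  set y := ((q + 1 : ℕ) : ℝ) ^ (-(1 / 10) : ℝ) with hy
  set u := (q : ℝ) ^ (1 / 20 : ℝ) with hu
  have hx2 : (q : ℝ) ^ (-(1 / 5) : ℝ) = x * x := by
    rw [hx, ← Real.rpow_add hq0]; norm_num
  have hy2 : ((q + 1 : ℕ) : ℝ) ^ (-(1 / 5) : ℝ) = y * y := by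
    rw [hy, ← Real.rpow_add hQ0]; norm_num
  have hx0 : 0 < x := Real.rpow_pos_of_pos hq0 _
  have hy0 : 0 < y := Real.rpow_pos_of_pos hQ0 _
  have hu0 : 0 < u := Real.rpow_pos_of_pos hq0 _
  have hxy : y ≤ x := by
    rw [hx, hy]
    apply Real.rpow_le_rpow_of_nonpos hq0
    · push_cast; linarith
    · norm_num
  have hxu : x * u ≤ 1 := by
    rw [hx, hu, ← Real.rpow_add hq0]
    apply Real.rpow_le_one_of_one_le_of_nonpos hq1
    norm_num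
  rw [hx2, hy2]
  have h1 : (x * x - y * y) * u ≤ 2 * (x - y) := by
    have h2 : (x + y) * u ≤ 2 := by nlinarith
    have h3 : 0 ≤ x - y := by linarith
    nlinarith [mul_le_mul_of_nonneg_left h2 h3]
  nlinarith [mul_le_mul_of_nonneg_left h1 hK]

theorem abel (f : ℕ → ℝ) (hf : ∀ m, 0 ≤ f m) (w Q : ℕ) (hw : 1 ≤ w) (hwQ : w ≤ Q) (K : ℝ)
    (hK : 0 ≤ K)
    (hA : ∀ m, w ≤ m → m ≤ Q → ∑ i ∈ Icc 1 m, f i ≤ K * (m : ℝ) ^ (1 / 20 : ℝ)) :
    ∑ m ∈ Ioc w Q, (m : ℝ) ^ (-(1 / 5) : ℝ) * f m ≤ 3 * K * (w : ℝ) ^ (-(1 / 10) : ℝ) := by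
  have key : ∀ q, w ≤ q → q ≤ Q → ∑ m ∈ Ioc w q, (m : ℝ) ^ (-(1 / 5) : ℝ) * f m ≤
      (q : ℝ) ^ (-(1 / 5) : ℝ) * ∑ i ∈ Icc 1 q, f i +
        2 * K * ((w : ℝ) ^ (-(1 / 10) : ℝ) - (q : ℝ) ^ (-(1 / 10) : ℝ)) := by
    intro q hq
    induction q, hq using Nat.le_induction with
    | base =>
      intro _
      rw [Ioc_self, sum_empty, sub_self, mul_zero, add_zero]
      exact mul_nonneg (Real.rpow_nonneg (Nat.cast_nonneg _) _) (sum_nonneg fun i _ => hf i)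
    | succ q hq ih =>
      intro hqQ
      have ih' := ih (by omega)
      rw [sum_Ioc_succ_top hq, sum_Icc_succ_top (by omega)]
      have hs := step q (by omega) K hK
      have hd : 0 ≤ (q : ℝ) ^ (-(1 / 5) : ℝ) - ((q + 1 : ℕ) : ℝ) ^ (-(1 / 5) : ℝ) := by
        rw [sub_nonneg]
        apply Real.rpow_le_rpow_of_nonpos
        · exact_mod_cast (by omega : 0 < q)
        · push_cast; linarith
        · norm_num
      have h1 := mul_le_mul_of_nonneg_left (hA q hq (by omega)) hd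
      nlinarith
  have hk := key Q hwQ le_rfl
  have hQ0 : (0 : ℝ) < Q := by exact_mod_cast (by omega : 0 < Q)
  have hw0 : (0 : ℝ) < w := by exact_mod_cast (by omega : 0 < w)
  have h1 : (Q : ℝ) ^ (-(1 / 5) : ℝ) * ∑ i ∈ Icc 1 Q, f i ≤ K * (w : ℝ) ^ (-(1 / 10) : ℝ) := by
    calc (Q : ℝ) ^ (-(1 / 5) : ℝ) * ∑ i ∈ Icc 1 Q, f i
        ≤ (Q : ℝ) ^ (-(1 / 5) : ℝ) * (K * (Q : ℝ) ^ (1 / 20 : ℝ)) :=
          mul_le_mul_of_nonneg_left (hA Q hwQ le_rfl) (Real.rpow_nonneg hQ0.le _)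
      _ = K * ((Q : ℝ) ^ (-(1 / 5) : ℝ) * (Q : ℝ) ^ (1 / 20 : ℝ)) := by ring
      _ = K * (Q : ℝ) ^ (-(3 / 20) : ℝ) := by
          rw [← Real.rpow_add hQ0]; norm_num
      _ ≤ K * (w : ℝ) ^ (-(1 / 10) : ℝ) := by
          apply mul_le_mul_of_nonneg_left _ hK
          calc (Q : ℝ) ^ (-(3 / 20) : ℝ) ≤ (Q : ℝ) ^ (-(1 / 10) : ℝ) :=
                Real.rpow_le_rpow_of_exponent_le (by exact_mod_cast (by omega : 1 ≤ Q))
                  (by norm_num)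
            _ ≤ (w : ℝ) ^ (-(1 / 10) : ℝ) :=
                Real.rpow_le_rpow_of_nonpos hw0 (by exact_mod_cast hwQ) (by norm_num)
  have h2 : 0 ≤ 2 * K * (Q : ℝ) ^ (-(1 / 10) : ℝ) :=
    mul_nonneg (by linarith) (Real.rpow_nonneg hQ0.le _)
  linarith

end TAIM

open TAIM

theorem t_TAI : M_TAI := by
  rintro ⟨C, hC, hgam⟩ hWIN ⟨C', hC', hLSP⟩
  refine ⟨C * (3 * (40 * C')), by positivity, ?_⟩
  intro P W U w Q z N hW hw hwQ hz hWp hQz hP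
  have hlz : 0 < Real.log z := Real.log_pos (by exact_mod_cast (by omega : 1 < z))
  have hWU : ∀ p ∈ P, W * U ≤ p ∧ p ≤ N := fun p hp => (hP p hp).2.2
  have hen : ∀ θ : ℝ, 0 ≤ en P W U θ := by
    intro θ
    rw [(hWIN P W U N θ hW hWU).1]
    exact sum_nonneg fun x _ => sq_nonneg _
  set Y : ℝ := (U : ℝ) ^ 2 * P.card / Real.log z with hY
  have hY0 : 0 ≤ Y := by positivity
  have hA : ∀ m, w ≤ m → m ≤ Q →
      ∑ i ∈ Icc 1 m, ∑ a ∈ cop i, en P W U ((a : ℝ) / i) ≤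
        (40 * C' * Y) * (m : ℝ) ^ (1 / 20 : ℝ) := by
    intro m hwm hmQ
    have hm0 : (0 : ℝ) < m := by exact_mod_cast (by omega : 0 < m)
    have hm1 : (1 : ℝ) ≤ m := by exact_mod_cast (by omega : 1 ≤ m)
    have h1 := hLSP P W U m z N hW (by omega) hz (fun l hl => (hWp l hl).trans hwm)
      ((Nat.pow_le_pow_left (Nat.mul_le_mul_right z hmQ) 2).trans hQz) hP
    have h2 : Real.log ((m : ℝ) + 1) ≤ 40 * (m : ℝ) ^ (1 / 20 : ℝ) := by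
      calc Real.log ((m : ℝ) + 1) ≤ ((m : ℝ) + 1) ^ (1 / 20 : ℝ) / (1 / 20 : ℝ) :=
            Real.log_le_rpow_div (by linarith) (by norm_num)
        _ ≤ (2 * (m : ℝ)) ^ (1 / 20 : ℝ) / (1 / 20 : ℝ) := by
            apply div_le_div_of_nonneg_right _ (by norm_num)
            exact Real.rpow_le_rpow (by linarith) (by linarith) (by norm_num)
        _ = 20 * ((2 : ℝ) ^ (1 / 20 : ℝ) * (m : ℝ) ^ (1 / 20 : ℝ)) := by
            rw [Real.mul_rpow (by norm_num) hm0.le]; ring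
        _ ≤ 20 * (2 * (m : ℝ) ^ (1 / 20 : ℝ)) := by
            have h3 : (2 : ℝ) ^ (1 / 20 : ℝ) ≤ 2 := by
              calc (2 : ℝ) ^ (1 / 20 : ℝ) ≤ (2 : ℝ) ^ (1 : ℝ) :=
                    Real.rpow_le_rpow_of_exponent_le (by norm_num) (by norm_num)
                _ = 2 := Real.rpow_one 2
            have h4 : 0 ≤ (m : ℝ) ^ (1 / 20 : ℝ) := Real.rpow_nonneg hm0.le _
            nlinarith
        _ = 40 * (m : ℝ) ^ (1 / 20 : ℝ) := by ring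
    calc ∑ i ∈ Icc 1 m, ∑ a ∈ cop i, en P W U ((a : ℝ) / i)
        ≤ C' * (Real.log (m + 1) / Real.log z) * (U : ℝ) ^ 2 * P.card := h1
      _ = C' * Y * Real.log (m + 1) := by rw [hY]; field_simp
      _ ≤ C' * Y * (40 * (m : ℝ) ^ (1 / 20 : ℝ)) :=
          mul_le_mul_of_nonneg_left h2 (by positivity)
      _ = (40 * C' * Y) * (m : ℝ) ^ (1 / 20 : ℝ) := by ring
  have hab := abel (fun i => ∑ a ∈ cop i, en P W U ((a : ℝ) / i))
    (fun i => sum_nonneg fun a _ => hen _) w Q hw hwQ (40 * C' * Y) (by positivity) hA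
  calc ∑ m ∈ Ioc w Q, ∑ a ∈ cop m, |gam a m| * en P W U ((a : ℝ) / m)
      ≤ ∑ m ∈ Ioc w Q, C * ((m : ℝ) ^ (-(1 / 5) : ℝ) * ∑ a ∈ cop m, en P W U ((a : ℝ) / m)) := by
        apply sum_le_sum
        intro m hm
        rw [mem_Ioc] at hm
        rw [← mul_assoc, mul_sum]
        apply sum_le_sum
        intro a ha
        have hc : a.Coprime m := (mem_filter.mp ha).2
        exact mul_le_mul_of_nonneg_right (hgam a m (by omega) hc) (hen _)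
    _ = C * ∑ m ∈ Ioc w Q, (m : ℝ) ^ (-(1 / 5) : ℝ) * ∑ a ∈ cop m, en P W U ((a : ℝ) / m) := by
        rw [mul_sum]
    _ ≤ C * (3 * (40 * C' * Y) * (w : ℝ) ^ (-(1 / 10) : ℝ)) :=
        mul_le_mul_of_nonneg_left hab hC.le
    _ = C * (3 * (40 * C')) * (w : ℝ) ^ (-(1 / 10) : ℝ) * Y := by ring

end Pool.Agent.CDP
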