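import Pool.Agent.CDP.GEO
import Pool.Agent.CDP.WE1
import Pool.Agent.CDP.WE2
import Pool.Agent.CDP.WEY
import Pool.Agent.CDP.GAM
import Pool.Agent.CDP.MIN
import Pool.Agent.CDP.AR1
import Pool.Agent.CDP.AR2
import Pool.Agent.CDP.FJB
import Pool.Agent.CDP.MOD
import Pool.Agent.CDP.PAR
import Pool.Agent.CDP.WIN
import Pool.Agent.CDP.LOW
import Pool.Agent.CDP.BRT
import Pool.Agent.CDP.LSP
import Pool.Agent.CDP.ENE
import Pool.Agent.CDP.TAI
import Pool.Agent.CDP.DEN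
import Pool.Agent.CDP.PIG
import Pool.Agent.CDP.FIX
import Pool.Agent.CDP.CNTC
import Pool.Agent.CDP.ONEC
import Pool.Agent.CDP.CHE
import Pool.Agent.CDP.FINC

set_option autoImplicit false

/-!
# Project CDP: the assembly of the counting form
-/

namespace Pool.Agent.CDP

theorem c_WEY : S_WEY := t_WEY (t_WE1 t_GEO) t_WE2

theorem c_GAM : S_GAM := t_GAM c_WEY

theorem c_MOD : S_MOD := t_MOD c_GAM (t_MIN c_WEY) t_AR1 t_AR2 t_FJB

theorem c_LOW : S_LOW := t_LOW t_WIN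

/-- Counting form of the theorem. -/
theorem count : CountStatement :=
  count_of t_DEN (t_FINC c_LOW (t_BRT t_WIN) t_PIG (t_FIX t_WIN t_ENE) t_CHE
    (t_ONEC c_MOD (t_CNTC t_PAR) t_FJB t_WIN c_LOW (t_TAI c_GAM t_WIN (t_LSP t_WIN))))

end Pool.Agent.CDP
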