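import Pool.Agent.CDP.Defs

set_option autoImplicit false

/-!
# Project CDP: the statements

THEOREM. Let `PP` be a set of primes of positive upper Dirichlet density (`Thick`), `n, M₀ ≥ 1`. There
are arbitrarily large `p < q` in `PP` with `q - p = n t^3`, `M₀ ∣ t`.

PROOF (positivity; no Siegel-Walfisz, no prime number theorem). For infinitely many `N` the set
`P = PP ∩ (√N, N]` has at least `c N / log N` elements (DEN). For a multiple `M` of `M₀` put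
`W = n M^3`, `U = T^3`, `W U` at most `√N` and at least a fixed power of `N`. The number of
solutions `q - p = W t^3`, weighted with `wt T t`, is `∑_b ∫ |S_b|^2 ker` over the classes `b`
modulo `W`; `ker` is equal to `model T Q`, `Q = T^(1/20)`, up to a saving of a power of `N` (MOD: major
and minor arcs of the cubes), and `model` gives (CNT)
`(1/2) ∑_{m ≤ Q} ∑_a gam a m * en P W U (a/m)`. All `en P W U θ` are `≥ 0` (WIN), the term `m = 1` is the main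
term (LOW), `|gam a m| ≤ C m^(-1/5)` (GAM). The terms with `m > w` are small by the large sieve for
primes (LSP, TAI). The terms with `2 ≤ m ≤ w` are bounded by the increment of the energy
`W^2 en P W U 0` when `W` is replaced by `W k^3`, `k = w!` (ENE); the energy is bounded (BRT: Brun and
Titchmarsh; LOW), so for one of `I` successive choices of `M` the increment is small. Hence the
number of solutions is positive.

All modules are independent; the hypotheses `S_A → S_B` are part of the statements `M_X`.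
-/

namespace Pool.Agent.CDP

open Finset
open Pool.Agent.Lib_helper83.EF (e)
open MUR (cop)

noncomputable section

/-! ## 1. Weyl sums for cubes -/

/-- GEO: geometric sums over intervals. PROOF. Let `x = |θ - round θ| ≤ 1/2` and let the interval have
`n ≤ T` elements. The sum is at most `n ≤ T`; if `x > 0` it is `|e (nθ) - 1| / |e θ - 1| ≤
1 / |sin (π θ)| ≤ 1 / (2 x)` (`norm_one_sub_e`, `|sin (π θ)| = sin (π x) ≥ 2 x`, Mathlib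
`Real.mul_le_sin` or `sin_lower`). If `T x ≤ 1` then `T ≤ 2 T / (1 + T x)`, and if `T x > 1` then
`1 / (2 x) ≤ T / (1 + T x)`. -/
def S_GEO : Prop := ∀ (T A n : ℕ) (θ : ℝ), n ≤ T →
  ‖∑ t ∈ Ioc A (A + n), e ((t : ℝ) * θ)‖ ≤ 2 * mn T θ

/-- WE1: two Weyl steps. PROOF. Put `S = ∑_{1 ≤ t ≤ T} e (t^3 α)`. Sorting the pairs `(t + h, t)` by the
difference: `|S|^2 = T + 2 Re ∑_{h=1}^{T-1} A_h`, `A_h = ∑_{t=1}^{T-h} e ((3 h t^2 + 3 h^2 t + h^3) α)`,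
so `|S|^2 ≤ T + 2 ∑_{h < T} |A_h|` and `|S|^4 ≤ 2 T^2 + 8 (∑ |A_h|)^2 ≤ 2 T^2 + 8 T ∑_h |A_h|^2`. In the
same way `|A_h|^2 ≤ (T - h) + 2 ∑_{g=1}^{T-h-1} |∑_{t=1}^{T-h-g} e (6 h g t α)|` (the difference of the
polynomial `3 h t^2 + 3 h^2 t + h^3` at `t + g` and `t` is `6 h g t + 3 h g^2 + 3 h^2 g`, the constant part
has absolute value one), and by GEO `|A_h|^2 ≤ T + 4 ∑_{g ≤ T} mn T (6 h g α)`. Together
`|S|^4 ≤ 2 T^2 + 8 T^3 + 32 T ∑ ∑ mn`. -/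
def S_WE1 : Prop := ∀ (T : ℕ) (α : ℝ), 1 ≤ T →
  ‖∑ t ∈ Icc 1 T, e ((t : ℝ) ^ 3 * α)‖ ^ 4 ≤
    10 * (T : ℝ) ^ 3 + 32 * (T : ℝ) * ∑ h ∈ Icc 1 T, ∑ g ∈ Icc 1 T, mn T (6 * (h : ℝ) * g * α)

def M_WE1 : Prop := S_GEO → S_WE1

/-- WE2: the numbers `h α` are well spaced. PROOF. Cut `[1, H]` into at most `H / m + 1` blocks of `m`
consecutive numbers `h = A + j`, `1 ≤ j ≤ m`. In a block `h α = A α + j a / m + j δ` with `|δ| ≤ 1 / m^2`, so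
`h α` differs from `A α + j a / m` by at most `1 / m`, and the numbers `j a / m` are modulo one the
numbers `i / m`, `0 ≤ i < m`, each once. Hence for every integer `0 ≤ k ≤ m / 2` at most `8` of the `h` of
the block have `k / m ≤ ‖h α‖ < (k + 1) / m` (`‖x‖` the distance to the nearest integer: two intervals
of length `1 / m`, each contains at most `4` of the numbers since the positions `A α + i / m` must be
in an interval of length `3 / m`). Those with `k = 0` contribute at most `8 T`, the others at most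
`8 ∑_{1 ≤ k ≤ m/2} m / k ≤ 8 m (1 + log m)`. -/
def S_WE2 : Prop := ∃ C : ℝ, 0 < C ∧ ∀ (α : ℝ) (a : ℤ) (m H T : ℕ), 1 ≤ m → 1 ≤ H → 1 ≤ T →
  IsCoprime a (m : ℤ) → |α - (a : ℝ) / m| ≤ 1 / (m : ℝ) ^ 2 →
  ∑ h ∈ Icc 1 H, mn T ((h : ℝ) * α) ≤ C * ((H : ℝ) / m + 1) * (T + m * Real.log (m + 1))

/-- WEY: Weyl's inequality for cubes. PROOF. If `m > T^3` the right side is larger than `T^4` and the
left side is at most `T^4`. Let `m ≤ T^3`. In WE1 collect the pairs `(h, g)` with `6 h g = j`: there are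
at most `d(j) ≤ C' j^(1/80) ≤ C'' T^(1/40)` of them (`Lib_helper91.exists_divisor_bound 80`, `j ≤ 6 T^2`), so the
double sum is at most `C'' T^(1/40) ∑_{j ≤ 6 T^2} mn T (j α)`, and WE2 with `H = 6 T^2` gives
`≤ C T^(1/40) (6 T^2 / m + 1) (T + m log (m + 1))`, `log (m + 1) ≤ C T^(1/40)` and
`(T^2 / m + 1) (T + m) = T^3 / m + T^2 + T + m ≤ 2 T^3 (1/m + 1/T + m / T^3)`. -/
def S_WEY : Prop := ∃ C : ℝ, 0 < C ∧ ∀ (α : ℝ) (a : ℤ) (m T : ℕ), 1 ≤ m → 1 ≤ T →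
  IsCoprime a (m : ℤ) → |α - (a : ℝ) / m| ≤ 1 / (m : ℝ) ^ 2 →
  ‖∑ t ∈ Icc 1 T, e ((t : ℝ) ^ 3 * α)‖ ^ 4 ≤
    C * (T : ℝ) ^ (4 + 1 / 20 : ℝ) * (1 / (m : ℝ) + 1 / (T : ℝ) + (m : ℝ) / (T : ℝ) ^ 3)

def M_WEY : Prop := S_WE1 → S_WE2 → S_WEY

/-- GAM: complete sums. PROOF. `∑_{r < m} cos (2 π r^3 a / m)` is the real part of
`∑_{t ∈ Icc 1 m} e (t^3 a / m)` (the terms `r = 0` and `t = m` are both one). WEY with `α = a / m`, `T = m`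
gives `|∑|^4 ≤ 3 C m^(3 + 1/20)`, so `|gam|^4 ≤ 3 C m^(-19/20) ≤ 3 C m^(-4/5)`. -/
def S_GAM : Prop := ∃ C : ℝ, 0 < C ∧ ∀ a m : ℕ, 1 ≤ m → a.Coprime m →
  |gam a m| ≤ C * (m : ℝ) ^ (-(1 / 5) : ℝ)

def M_GAM : Prop := S_WEY → S_GAM

/-- MIN: minor arcs. PROOF. Let `S T' = ∑_{t ≤ T'} e (t^3 α)`, `T' ≤ T`. By WEY (for `T'`; for `T' = 0`
trivial), `|S T'|^4 ≤ C T'^(4+1/20) (1/m + 1/T' + m / T'^3) ≤ C (T^(4+1/20) / m + T^(3+1/20) + m T^(1+1/20))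
≤ 3 C T^(3.55)` because `T^(1/2) ≤ m ≤ T^(5/2)`, hence `|S T'| ≤ C T^(9/10)`. Summation by parts: `|ker T α|
≤ |∑ wt T t e (t^3 α)| ≤ (|wt T T| + ∑_{t < T} |wt T (t+1) - wt T t|) max |S T'|`, and the bracket is at
most `30 T^5` (`wt T T = 0`; `wt T t = (3 t^2 - 3 t + 1) (T^3 - t^3)`, a step changes it by at most
`6 t T^3 + 3 (t+1)^2 * 3 (t+1)^2`). -/
def S_MIN : Prop := ∃ C : ℝ, 0 < C ∧ ∀ (α : ℝ) (a : ℤ) (m T : ℕ), 1 ≤ m → 1 ≤ T →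
  IsCoprime a (m : ℤ) → |α - (a : ℝ) / m| ≤ 1 / (m : ℝ) ^ 2 → T ≤ m ^ 2 → m ^ 2 ≤ T ^ 5 →
  |ker T α| ≤ C * (T : ℝ) ^ (6 - 1 / 10 : ℝ)

def M_MIN : Prop := S_WEY → S_MIN

/-! ## 2. Major arcs and the model -/

/-- AR1: near `a / m` the kernel is `gam a m` times the kernel near `0`. PROOF. Let
`f t = wt T t * e (t^3 β)`. Then `∑_t wt T t e (t^3 (a/m + β)) = ∑_{r < m} e (r^3 a / m) F_r`,
`F_r = ∑_{t ≤ T, t ≡ r (m)} f t`. For functions on `[1, T]` the sum over a class modulo `m` differs from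
`1/m` times the full sum by at most `V + 2 sup |f|`, `V = ∑_{t < T} |f (t+1) - f t|` (compare `f` at the
element of the class in a block of `m` consecutive numbers with the mean over the block, the
difference is at most the variation in the block; the last incomplete block gives the sup). Here
`sup |f| ≤ 3 T^5`, `V ≤ 30 T^5 + ∑_t 3 T^5 * 2 π |β| ((t+1)^3 - t^3) ≤ 30 T^5 + 6 π T^5 * 8 T^3 |β|` (use
`|e x - e y| ≤ 2 π |x - y|`). So `|∑_t wt e (t^3 (a/m+β)) - G * ∑_t f t| ≤ m (V + 2 sup |f|)` with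
`G = (1/m) ∑_{r<m} e (r^3 a / m)`, and `G = gam a m` is real because the imaginary part is odd under
`r ↦ m - r`. Take real parts. -/
def S_AR1 : Prop := ∃ C : ℝ, 0 < C ∧ ∀ (β : ℝ) (a m T : ℕ), 1 ≤ m → 1 ≤ T →
  |ker T ((a : ℝ) / m + β) - gam a m * ker T β| ≤
    C * m * (T : ℝ) ^ 5 * (1 + (T : ℝ) ^ 3 * |β|)

/-- AR2: near `0` the kernel is half the Fejer kernel of length `U = T^3`. PROOF.
`fej U β = ∑_{|u| < U} (U - |u|) e (u β) = U + 2 ∑_{u=1}^U (U - u) cos (2 π u β)`. The `u` in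
`((t-1)^3, t^3]`, `t = 1, ..., T`, partition `[1, U]`; for such `u`
`|(U - u) cos (2 π u β) - (U - t^3) cos (2 π t^3 β)| ≤ (t^3 - u) (1 + 2 π |β| U) ≤ 3 t^2 (1 + 2 π |β| U)`, there are at
most `3 t^2` of them, the sum over `u` is at most `9 T^5 (1 + 2 π |β| U)`. So
`|fej U β / 2 - ker T β| ≤ T^3 / 2 + 9 T^5 (1 + 2 π |β| U)`. -/
def S_AR2 : Prop := ∃ C : ℝ, 0 < C ∧ ∀ (β : ℝ) (T : ℕ), 1 ≤ T →
  |ker T β - fej (T ^ 3) β / 2| ≤ C * (T : ℝ) ^ 5 * (1 + (T : ℝ) ^ 3 * |β|)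

/-- FJB: bounds for `fej`, `gam` and the model. PROOF. (1) trivial. (2) GEO for `|∑|` gives
`1 / (2 x)`, see its proof (`|sin (π θ)| ≥ 2 x`). (3) `|gam| ≤ 1` trivial. (4) periodicity: `e` has period one
on integers, `cos` too. (5) by (2), (3): at most `Q^2` terms. -/
def S_FJB : Prop :=
  (∀ (U : ℕ) (θ : ℝ), 0 ≤ fej U θ ∧ fej U θ ≤ (U : ℝ) ^ 2) ∧
  (∀ (U : ℕ) (θ : ℝ), fej U θ * (4 * |θ - round θ| ^ 2) ≤ 1) ∧
  (∀ a m : ℕ, |gam a m| ≤ 1) ∧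
  (∀ (T Q : ℕ) (α : ℝ) (k : ℤ), ker T (α + k) = ker T α ∧ model T Q (α + k) = model T Q α ∧
    fej T (α + k) = fej T α) ∧
  (∀ (T Q : ℕ) (α D : ℝ), 0 < D →
    (∀ m ∈ Icc 1 Q, ∀ a ∈ cop m,
      D ≤ |(α - (a : ℝ) / m) - round (α - (a : ℝ) / m)|) →
    |model T Q α| ≤ (Q : ℝ) ^ 2 / (8 * D ^ 2))

/-- MOD: the model is close to the kernel everywhere. PROOF. Let `N₁ = Nat.sqrt (T^5)`. Dirichlet
(Mathlib `Real.exists_rat_abs_sub_le_and_den_le`): `|α - a/m| ≤ 1 / (m (N₁ + 1))`, `1 ≤ m ≤ N₁`, `a` prime to `m`;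
by periodicity (FJB (4)) we may assume `0 ≤ a < m`, i.e. `a ∈ cop m`. Put `β = α - a / m`. For
`m' ≤ Q`, `a' ∈ cop m'`, `(m', a') ≠ (m, a)`: the distance of `a'/m' - a/m` to the integers is at least
`1 / (m m')` (it is a nonzero multiple of `1/(m m')`, compare `farey_spacing`), so the distance of `α - a'/m'`
to the integers is at least `1 / (m m') - 1 / (m (N₁ + 1)) ≥ 1 / (2 m m')`, as `2 m' ≤ 2 Q ≤ N₁ + 1` (if `T = 1`
then `Q = 1` and everything is bounded by an absolute constant). By the argument of FJB (5) the sum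
of these terms of the model is at most `Q^2 (m Q)^2 / 2`.
(A) `m^2 ≤ T`, `m ≤ Q`: the term `(m, a)` of the model is `gam a m * fej (T^3) β / 2`, by AR1, AR2 (`|gam| ≤ 1`) it
differs from `ker T α` by at most `2 C m T^5 (1 + T^3 |β|) ≤ C' (m T^5 + T^8 / (N₁ + 1)) ≤ C'' T^(5.5)`
(`(N₁+1)^2 > T^5`); the other terms give at most `Q^6`.
(B) `m^2 ≤ T`, `m > Q`: the same with `|gam a m| fej (T^3) β ≤ C m^(-1/5) T^6 ≤ C Q^(-1/5) T^6` (GAM), and the model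
is at most `Q^2 (m Q)^2 ≤ Q^4 T`.
(C) `T ≤ m^2`: `m^2 ≤ N₁^2 ≤ T^5`, MIN gives `|ker| ≤ C T^(5.9)`, and the model is at most `Q^4 m^2 ≤ Q^4 T^5`.
Since `Q^20 ≤ T`, `Q^4 T^5 ≤ T^(5.2)`, and all bounds are at most `C T^6 Q^(-1/5)`. -/
def S_MOD : Prop := ∃ C : ℝ, 0 < C ∧ ∀ (T Q : ℕ) (α : ℝ), 1 ≤ T → 1 ≤ Q → Q ^ 20 ≤ T →
  |ker T α - model T Q α| ≤ C * (T : ℝ) ^ 6 * (Q : ℝ) ^ (-(1 / 5) : ℝ)

def M_MOD : Prop := S_GAM → S_MIN → S_AR1 → S_AR2 → S_FJB → S_MOD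

/-! ## 3. Counting -/

/-- PAR: Parseval. PROOF. Expand `‖ ‖^2 = ∑_{u, v ∈ S} e ((u - v) α)` and use that
`∫_0^1 e (k α) dα` is `1` for `k = 0` and `0` for the other integers `k`. The three integrals:
(1) `∑_{u,v} 1_{u = v}`; (2) `cos (2 π k α) = (e (k α) + e (- k α)) / 2`: half the number of the pairs with
`u - v = k` plus half the number of the pairs with `v - u = k`, which are equal by symmetry;
(3) `fej U (α - θ) = ∑_{i, j < U} e ((i - j) (α - θ))`: the integral is `∑_{u,v} e ((u - v) θ) #{(i, j) : i, j < U,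
j - i = u - v}`, the number is `max 0 (U - |u - v|)`; the sum is real, so `e` may be replaced by `cos`. -/
def S_PAR : Prop := ∀ (S : Finset ℕ),
  (∫ α in (0 : ℝ)..1, ‖∑ u ∈ S, e ((u : ℝ) * α)‖ ^ 2) = S.card ∧
  (∀ k : ℕ, (∫ α in (0 : ℝ)..1, ‖∑ u ∈ S, e ((u : ℝ) * α)‖ ^ 2 * Real.cos (2 * Real.pi * ((k : ℝ) * α))) =
    (((S ×ˢ S).filter (fun x => x.1 = x.2 + k)).card : ℝ)) ∧
  (∀ (U : ℕ) (θ : ℝ), (∫ α in (0 : ℝ)..1, ‖∑ u ∈ S, e ((u : ℝ) * α)‖ ^ 2 * fej U (α - θ)) =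
    ∑ u ∈ S, ∑ v ∈ S, max 0 ((U : ℝ) - |(u : ℝ) - v|) *
      Real.cos (2 * Real.pi * (((u : ℝ) - v) * θ)))

/-- CNT: if there are no solutions the model is small on `P`. PROOF. For `b < W` let `S_b` be the set of the
`p / W` (floor), `p ∈ P`, `p % W = b` (`p ↦ p / W` is injective on this part, `p - p' = W (u - u')`). Multiply
`model - ker ≤ B` by `‖∑_{u ∈ S_b} e (u α)‖^2` and integrate over `[0, 1]` (PAR): the integral with
`ker` is `∑_t wt T t #{(u, v) ∈ S_b^2 : u = v + t^3} = 0`, since `u = v + t^3` means `q = p + W t^3`. So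
`(1/2) ∑_{m ≤ Q} ∑_a gam a m ∑_{u,v ∈ S_b} max 0 (U - |u-v|) cos (2 π (u-v) a/m) ≤ B |S_b|`, `U = T^3`. Sum over
`b`: the left sides give `(1/2) ∑ ∑ gam a m * en P W U (a/m)`, the right sides `B |P|`. -/
def S_CNT : Prop := ∀ (P : Finset ℕ) (W T Q : ℕ) (B : ℝ), 1 ≤ W → 1 ≤ T →
  (∀ α : ℝ, |ker T α - model T Q α| ≤ B) →
  (∀ p ∈ P, ∀ q ∈ P, ∀ t ∈ Icc 1 T, q ≠ p + W * t ^ 3) →
  ∑ m ∈ Icc 1 Q, ∑ a ∈ cop m, gam a m * en P W (T ^ 3) ((a : ℝ) / m) ≤ 2 * B * P.card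

def M_CNT : Prop := S_PAR → S_CNT

/-! ## 4. Energies -/

/-- WIN: windows. PROOF. Expand the square on the right: a pair `(u, v)` with `x + W u = p`,
`x + W v = q` in `P` contributes `e ((u - v) θ)`, `u - v = (p - q) / W`. For given `p ≡ q` modulo `W` the `x`
with `x ≡ p` modulo `W`, `x ≤ min (p, q)`, `max (p, q) < x + W U` are, since `p, q ≥ W U`, exactly
`max 0 (U - |p - q| / W)` numbers, all in `[0, N]`. The double sum is real (symmetric), so `e` may be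
replaced by `cos`. Second part: every `p ∈ P` is counted for exactly the `U` numbers
`x = p - W u`, `u < U`. -/
def S_WIN : Prop := ∀ (P : Finset ℕ) (W U N : ℕ) (θ : ℝ), 1 ≤ W →
  (∀ p ∈ P, W * U ≤ p ∧ p ≤ N) →
  en P W U θ = ∑ x ∈ range (N + 1), ‖∑ u ∈ win P W U x, e ((u : ℝ) * θ)‖ ^ 2 ∧
  ∑ x ∈ range (N + 1), (win P W U x).card = U * P.card

/-- LOW: the main term. PROOF. WIN with `θ = 0` and the inequality of Cauchy and Schwarz: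
`(U |P|)^2 = (∑_x |win|)^2 ≤ (N + 1) ∑_x |win|^2`. -/
def S_LOW : Prop := ∀ (P : Finset ℕ) (W U N : ℕ), 1 ≤ W → (∀ p ∈ P, W * U ≤ p ∧ p ≤ N) →
  ((U : ℝ) * P.card) ^ 2 ≤ ((N : ℝ) + 1) * en P W U 0

def M_LOW : Prop := S_WIN → S_LOW

/-- BRT: the upper bound (Brun and Titchmarsh). PROOF. By WIN, `en P W U 0 = ∑_x |win|^2 ≤ max_x |win| *
U |P|`. For fixed `x` the `u ∈ win` satisfy: `x + W u` is a prime `> z`, so for every prime `l ≤ z` not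
dividing `W` the numbers `u` avoid one class modulo `l`. `MUR.t_LSS MUR.t_GS MUR.t_MER MUR.t_MON
MUR.t_TRG : MUR.S_LSS` with `R = G = 1`, `g = 1` (`Trig 1 1 1`), `k = W`, the translated set
`{u + 1} ⊆ Ioc 0 U` gives `|win| ≤ C log 2 (W / φ W) U / log z`. -/
def S_BRT : Prop := ∃ C : ℝ, 0 < C ∧ ∀ (P : Finset ℕ) (W U z N : ℕ), 1 ≤ W → 2 ≤ z →
  16 * z ^ 4 ≤ U → (∀ p ∈ P, p.Prime ∧ z < p ∧ W * U ≤ p ∧ p ≤ N) →
  en P W U 0 ≤ C * ((W : ℝ) / W.totient) * ((U : ℝ) ^ 2 / Real.log z) * P.card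

def M_BRT : Prop := S_WIN → S_BRT

/-- LSP: the large sieve for primes. PROOF. By WIN it is enough to show for every `x`, with
`S = win P W U x`, that `∑_{m ≤ Q} ∑_{a ∈ cop m} ‖∑_{u ∈ S} e (u a / m)‖^2 ≤ C (log (Q+1) / log z) U |S|`; then sum over
`x` (second part of WIN). This is inside the proof of `MUR.t_LSS` (the step `hls` there, file
Pool/Agent/MUR/LSS.lean): with `𝒟` the squarefree `d ≤ z` prime to all primes `≤ Q` and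
`Gz = ∑_𝒟 1 / φ d ≥ c log z / log (Q + 1)` (`MUR.LSS.density` with `k = 1`, `R = Q`), Montgomery's inequality
`MUR.t_MON` (for a prime `l ∈ (Q, z]`, not dividing `W` by hypothesis, the `u` avoid the class with
`x + W u ≡ 0`), `MUR.LSS.combine` (`smo Q Q = Icc 1 Q`) and `MUR.LSS.ls_T` (length `U ≥ (Q z)^2`, set
translated by one) give `Gz ∑ ∑ ‖∑‖^2 ≤ 6 U |S|`. -/
def S_LSP : Prop := ∃ C : ℝ, 0 < C ∧ ∀ (P : Finset ℕ) (W U Q z N : ℕ), 1 ≤ W → 1 ≤ Q → 2 ≤ z →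
  (∀ l ∈ W.primeFactors, l ≤ Q) → (Q * z) ^ 2 ≤ U →
  (∀ p ∈ P, p.Prime ∧ z < p ∧ W * U ≤ p ∧ p ≤ N) →
  ∑ m ∈ Icc 1 Q, ∑ a ∈ cop m, en P W U ((a : ℝ) / m) ≤
    C * (Real.log (Q + 1) / Real.log z) * (U : ℝ) ^ 2 * P.card

def M_LSP : Prop := S_WIN → S_LSP

/-- ENE: the sum over all fractions with denominators dividing `k`. PROOF. The fractions `a / m`, `m ∣ k`,
`a ∈ cop m`, are the fractions `j / k`, `j < k`, each once. For `p ≡ q` modulo `W`,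
`∑_{j < k} cos (2 π ((p - q) / W) j / k)` is `k` if `k` divides `(p - q) / W`, i.e. `p ≡ q` modulo `W k`, and `0`
otherwise. Finally `k * max 0 (k U - |p - q| / W) = k^2 * max 0 (U - |p - q| / (W k))`. -/
def S_ENE : Prop := ∀ (P : Finset ℕ) (W U k : ℕ), 1 ≤ W → 1 ≤ k →
  ∑ m ∈ k.divisors, ∑ a ∈ cop m, en P W (k * U) ((a : ℝ) / m) =
    (k : ℝ) ^ 2 * en P (W * k) U 0

/-- TAI: the tail. PROOF. By GAM `|gam a m| ≤ C m^(-1/5)`, and all `en` are `≥ 0` (WIN). Let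
`A m = ∑_{m' ≤ m} ∑_a en`; for `w ≤ m ≤ Q` LSP (with `m` instead of `Q`) gives
`A m ≤ C' log (m + 1) Y`, `Y = U^2 |P| / log z`. Summation by parts:
`∑_{w < m ≤ Q} m^(-1/5) (A m - A (m-1)) ≤ Q^(-1/5) A Q + ∑_{w < m < Q} (m^(-1/5) - (m+1)^(-1/5)) A m`,
with `log (m + 1) ≤ C m^(1/20)` and `m^(-1/5) - (m+1)^(-1/5) ≤ m^(-6/5)` this is at most
`C'' Y (Q^(-3/20) + ∑_{m > w} m^(-23/20)) ≤ C''' Y w^(-1/10)` (or dyadic blocks). -/
def S_TAI : Prop := ∃ C : ℝ, 0 < C ∧ ∀ (P : Finset ℕ) (W U w Q z N : ℕ), 1 ≤ W → 1 ≤ w →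
  w ≤ Q → 2 ≤ z → (∀ l ∈ W.primeFactors, l ≤ w) → (Q * z) ^ 2 ≤ U →
  (∀ p ∈ P, p.Prime ∧ z < p ∧ W * U ≤ p ∧ p ≤ N) →
  ∑ m ∈ Ioc w Q, ∑ a ∈ cop m, |gam a m| * en P W U ((a : ℝ) / m) ≤
    C * (w : ℝ) ^ (-(1 / 10) : ℝ) * ((U : ℝ) ^ 2 * P.card / Real.log z)

def M_TAI : Prop := S_GAM → S_WIN → S_LSP → S_TAI

/-! ## 5. Density and the end -/

/-- DEN: from Dirichlet density to many primes up to infinitely many `N`. PROOF. Let `c` be the constant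
of `Thick S`, `c₁ = c / 8`, and suppose that there is `N₀ = 2^J` with `|S' ∩ [1, N]| ≤ c₁ N / log N` for all
`N ≥ N₀`, `S'` the set of the primes in `S`. For `1 < s ≤ 2`: the part of the sum over `S'` below `N₀` is at
most `N₀`, the part in `(2^j, 2^(j+1)]`, `j ≥ J`, at most `c₁ 2^(j+1) / ((j+1) log 2) * 2^(-j s) =
(2 c₁ / log 2) r^j / (j + 1)`, `r = 2^(-(s-1)) ≥ 1/2`. Since `∑_j r^(j+1) / (j + 1) = - log (1 - r)` and
`1 - r ≥ (s - 1) / 2` (`2^(-x) ≤ 1 - x / 2` on `[0, 1]`), the whole sum is at most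
`N₀ + (4 c₁ / log 2) log (2 / (s - 1)) ≤ N₀ + c log 2 + c log (1 / (s - 1))` (`4 c₁ / log 2 < c`). This contradicts
`Thick S` with `K = N₀ + c log 2 + 1`. (All finite partial sums of the series satisfy the bound; the
series converges by comparison with `∑ n^(-s)`, otherwise its `tsum` would be zero.) -/
def S_DEN : Prop := ∀ S : Set ℕ, Thick S → ∃ c : ℝ, 0 < c ∧
  ∀ N₀ : ℕ, ∃ N : ℕ, N₀ ≤ N ∧
    c * ((N : ℝ) / Real.log N) ≤ ((PB {q | q.Prime ∧ q ∈ S} 0 N).card : ℝ)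

/-- PIG: pigeonhole for a bounded sequence. PROOF. Otherwise `f (i + 1) > (9/8) f i` for all `i < I`,
so `f I ≥ (9/8)^I f 0 > B f 0` (`f 0 > 0`). -/
def S_PIG : Prop := ∀ (f : ℕ → ℝ) (I : ℕ) (B : ℝ), 0 < f 0 → f I ≤ B * f 0 → B < (9 / 8 : ℝ) ^ I →
  ∃ i < I, f (i + 1) ≤ 9 / 8 * f i

/-- FIX: one energy step. PROOF. ENE with `k^3` instead of `k` (and `U` instead of `U`): `(k^3).divisors`
contains `1` and all `m ≤ w` (they divide `k`), all `en` are `≥ 0` (WIN for `W`, `k^3 U`), so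
`en P W (k^3 U) 0 + ∑_{2 ≤ m ≤ w} ∑_a en P W (k^3 U) (a/m) ≤ k^6 en P (W k^3) U 0`. The hypothesis says that
the right side is at most `9/8 en P W (k^3 U) 0`. -/
def S_FIX : Prop := ∀ (P : Finset ℕ) (W U w k N : ℕ), 1 ≤ W → 1 ≤ w → 1 ≤ k →
  (∀ m ∈ Icc 1 w, m ∣ k) → (∀ p ∈ P, W * (k ^ 3 * U) ≤ p ∧ p ≤ N) →
  (k : ℝ) ^ 6 * en P (W * k ^ 3) U 0 ≤ 9 / 8 * en P W (k ^ 3 * U) 0 →
  ∑ m ∈ Ioc 1 w, ∑ a ∈ cop m, en P W (k ^ 3 * U) ((a : ℝ) / m) ≤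
    1 / 8 * en P W (k ^ 3 * U) 0

def M_FIX : Prop := S_WIN → S_ENE → S_FIX

/-- ONE: the contradiction for one scale. PROOF. Suppose there is no solution. CNT with
`B = C₁ T^6 Q^(-1/5)` (MOD), `U = T^3`: the term `m = 1` is `gam 0 1 * en P W U 0 = en P W U 0 =: E`, so
`E ≤ 2 B |P| + ∑_{2 ≤ m ≤ w} ∑_a en + ∑_{w < m ≤ Q} ∑_a |gam a m| en ≤ 2 B |P| + E / 8 + C₂ w^(-1/10) U^2 |P| / log z`
(`|gam| ≤ 1` from FJB, `en ≥ 0` from WIN, TAI). By LOW and `|P| / (N + 1) ≥ η / log z` we have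
`E ≥ U^2 |P|^2 / (N + 1) ≥ η U^2 |P| / log z`, so by the choice of `w` the last term is at most `E / 8`, and
`2 B |P| ≤ E / 8` because `2 C₁ Q^(-1/5) ≤ η / (8 log z)`. Together `E ≤ 3 E / 8`, but `E > 0`. The constant `C` is
`max (C₁, C₂)`. -/
def S_ONE : Prop := ∃ C : ℝ, 0 < C ∧ ∀ (P : Finset ℕ) (W T w Q z N : ℕ) (η : ℝ), 1 ≤ W → 1 ≤ T →
  1 ≤ w → w ≤ Q → 2 ≤ z → 0 < η → P.Nonempty → (∀ l ∈ W.primeFactors, l ≤ w) → Q ^ 20 ≤ T →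
  (Q * z) ^ 2 ≤ T ^ 3 → (∀ p ∈ P, p.Prime ∧ z < p ∧ W * T ^ 3 ≤ p ∧ p ≤ N) →
  η * (((N : ℝ) + 1) / Real.log z) ≤ (P.card : ℝ) →
  C * (w : ℝ) ^ (-(1 / 10) : ℝ) ≤ η / 8 →
  2 * C * (Q : ℝ) ^ (-(1 / 5) : ℝ) ≤ η / (8 * Real.log z) →
  ∑ m ∈ Ioc 1 w, ∑ a ∈ cop m, en P W (T ^ 3) ((a : ℝ) / m) ≤ 1 / 8 * en P W (T ^ 3) 0 →
  ∃ p ∈ P, ∃ q ∈ P, ∃ t ∈ Icc 1 T, q = p + W * t ^ 3

def M_ONE : Prop := S_MOD → S_CNT → S_FJB → S_WIN → S_LOW → S_TAI → S_ONE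

/-- FIN: the choice of the parameters. PROOF. Let `c > 0` be such that `|PP ∩ (0, N]| ≥ c N / log N` for
arbitrarily large `N`. Put `η = c / 1600`. Let `C` be the constant of ONE, `C_B` that of BRT. Choose `w ≥ n, M₀, 2`
with `C w^(-1/10) ≤ η / 8`; `k = w!`; `W_i = n (M₀ k^(i+1))^3`. All `W_i` have the same prime factors, namely
the primes `≤ w`; let `ρ = W_i / φ W_i` (the same for all `i`, `Nat.totient_eq_mul_prod_factors`), `B = C_B ρ / η`,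
`I ≥ 1` with `(9/8)^I > B`. Let `N` be large with `|PP ∩ (0, N]| ≥ c N / log N`, and `s` the largest integer
with `s^200 ≤ N` (so `N < (s+1)^200 ≤ s^400`, `log N ≤ 400 log s`). Put `z = Q = s`, `T_i = k^(I-i) s^20`,
`U_i = T_i^3`, so `W_i U_i = X := n (M₀ k^(I+1))^3 s^60 ≤ s^100` for `s` large, and `W_{i+1} = W_i k^3`,
`U_i = k^3 U_{i+1}`. Let `P = PP ∩ (s^100, N]`: `|P| ≥ c N / log N - s^100 ≥ (c/2) N / log N ≥
(c / 4) (N + 1) / (400 log s) = η (N+1) / log z` for `s` large. All conditions of ONE hold for every `i`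
(`Q^20 = s^20 ≤ T_i`, `(Q z)^2 = s^4 ≤ T_i^3`, `z = s < s^100 < p`, `2 C s^(-1/5) ≤ η / (8 log s)` for `s` large).
Put `f i = W_i^2 en P W_i U_i 0`. By LOW, `f 0 ≥ X^2 |P|^2 / (N + 1) ≥ η X^2 |P| / log z > 0`; by BRT (`16 z^4 ≤ U_I`),
`f I ≤ C_B ρ X^2 |P| / log z ≤ B f 0`. By PIG there is `i < I` with `f (i+1) ≤ 9/8 f i`, that is
`k^6 en P (W_i k^3) U_{i+1} 0 ≤ 9/8 en P W_i (k^3 U_{i+1}) 0`; FIX and ONE give `p, q ∈ P`, `t ≥ 1` with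
`q = p + W_i t^3 = p + n (M₀ k^(i+1) t)^3`. -/
def S_FIN : Prop := ∀ (PP : Set ℕ) (c : ℝ), (∀ p ∈ PP, p.Prime) → 0 < c →
  (∀ N₀ : ℕ, ∃ N : ℕ, N₀ ≤ N ∧ c * ((N : ℝ) / Real.log N) ≤ ((PB PP 0 N).card : ℝ)) →
  ∀ n M₀ : ℕ, 1 ≤ n → 1 ≤ M₀ → ∀ N₀ : ℕ, ∃ p ∈ PP, ∃ q ∈ PP, ∃ t : ℕ,
    N₀ < p ∧ 0 < t ∧ M₀ ∣ t ∧ q = p + n * t ^ 3

def M_FIN : Prop := S_LOW → S_BRT → S_PIG → S_FIX → S_ONE → S_FIN

/-- The main statement. -/
def MainStatement : Prop := ∀ S : Set ℕ, Thick S → ∀ n M₀ : ℕ, 1 ≤ n → 1 ≤ M₀ → ∀ N₀ : ℕ,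
  ∃ p q t : ℕ, p.Prime ∧ q.Prime ∧ p ∈ S ∧ q ∈ S ∧ N₀ < p ∧ 0 < t ∧ M₀ ∣ t ∧ q = p + n * t ^ 3

theorem main_of (h1 : S_DEN) (h2 : S_FIN) : MainStatement := by
  intro S hS n M₀ hn hM N₀
  obtain ⟨c, hc, h⟩ := h1 S hS
  obtain ⟨p, hp, q, hq, t, h3, h4, h5, h6⟩ :=
    h2 {q | q.Prime ∧ q ∈ S} c (fun p hp => hp.1) hc h n M₀ hn hM N₀
  exact ⟨p, q, t, hp.1, hq.1, hp.2, hq.2, h3, h4, h5, h6⟩

end

end Pool.Agent.CDP
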